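import Pool.Agent.Lib.MP_2794d1_ag.BW.ADefs
import Pool.Agent.Lib.MP_2794d1_ag.E02
import Pool.Agent.Lib.MP_2794d1_ag.E03
import Pool.Agent.Lib.MP_2794d1_ag.U02
import Pool.Agent.Lib.MP_2794d1_ag.U01

/-!
A1: eigenbasis of a CM point. Let `S, d` be adapted, `M = S⁻¹ A S`; `M a b ≠ 0` only if `d a = d b` (`mem_FEnd_iff`, `conj_mem_FEnd_iff` as in
`rosati_frob`, U01). `U02_eigs`: distinct eigenvalues `e j`, eigenvectors `b j` (the columns of `P`, independent). The block components of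
`S⁻¹ b j` are eigenvectors of `M` for `e j`, so multiples of `S⁻¹ b j`: exactly one block `q j` occurs. `fl`: `x = ∑ y j • b j` (`y = P⁻¹ x`);
`x ∈ Fl p` iff all coordinates of `S⁻¹ x` are in blocks `≥ p` (`E03_fl`), and the block `r` component of `S⁻¹ x` is
`∑_{q j = r} y j • S⁻¹ b j`, zero iff all `y j = 0`. `deg`: the column `j` of `P` is in `Fl (q j)` and in `conjSub (Fl (wt - q j))`.
`deg'`: the column `c` of `S` is in `Fl (d c)` and in `conjSub (Fl (wt - d c))`.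
-/

namespace MP2794d1.BW

open Matrix Complex Filter Topology MP2794d1 MP2794d1.AH
open scoped ContDiff Manifold

private theorem A1_eq {n : ℕ} (A P : Matrix (Fin n) (Fin n) ℂ) (e : Fin n → ℂ) (hP : IsUnit P.det)
    (h : A * P = P * Matrix.diagonal e) (v : Fin n → ℂ) (a : ℂ) (hv : A *ᵥ v = a • v) (k : Fin n) :
    e k * (P⁻¹ *ᵥ v) k = a * (P⁻¹ *ᵥ v) k := by
  have h1 : P⁻¹ * A = Matrix.diagonal e * P⁻¹ := by
    have h2 : P⁻¹ * (A * P) * P⁻¹ = P⁻¹ * (P * Matrix.diagonal e) * P⁻¹ := by rw [h]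
    rw [← Matrix.mul_assoc, Matrix.mul_assoc (P⁻¹ * A), Matrix.mul_nonsing_inv _ hP, Matrix.mul_one,
      Matrix.nonsing_inv_mul_cancel_left _ _ hP] at h2
    exact h2
  have h2 : P⁻¹ *ᵥ (A *ᵥ v) = Matrix.diagonal e *ᵥ (P⁻¹ *ᵥ v) := by
    rw [Matrix.mulVec_mulVec, h1, Matrix.mulVec_mulVec]
  rw [hv, Matrix.mulVec_smul] at h2
  have h3 := congrFun h2 k
  rw [Matrix.mulVec_diagonal, Pi.smul_apply, smul_eq_mul] at h3
  exact h3.symm

private theorem A1_one {n : ℕ} (A P : Matrix (Fin n) (Fin n) ℂ) (e : Fin n → ℂ) (he : Function.Injective e)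
    (hP : IsUnit P.det) (h : A * P = P * Matrix.diagonal e) (v : Fin n → ℂ) (j : Fin n)
    (hv : A *ᵥ v = e j • v) : ∃ c : ℂ, v = c • (Pᵀ j) := by
  have h1 := A1_eq A P e hP h v (e j) hv
  refine ⟨(P⁻¹ *ᵥ v) j, ?_⟩
  have h2 : P⁻¹ *ᵥ v = (P⁻¹ *ᵥ v) j • (Pi.single j 1 : Fin n → ℂ) := by
    funext k
    by_cases hk : k = j
    · subst hk; simp
    · have h3 := h1 k
      have h4 : e k - e j ≠ 0 := sub_ne_zero.mpr fun h5 => hk (he h5)
      have h5 : (e k - e j) * (P⁻¹ *ᵥ v) k = 0 := by rw [sub_mul, h3, sub_self]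
      rw [(mul_eq_zero.mp h5).resolve_left h4]
      simp [hk]
  have h3 : P *ᵥ (P⁻¹ *ᵥ v) = v := by
    rw [Matrix.mulVec_mulVec, Matrix.mul_nonsing_inv _ hP, Matrix.one_mulVec]
  rw [h2, Matrix.mulVec_smul, Matrix.mulVec_single_one] at h3
  exact h3.symm

private theorem A1_Tinv {n : ℕ} (T T' : Matrix (Fin n) (Fin n) ℂ) (d q : Fin n → ℤ) (h1 : T * T' = 1)
    (h2 : T' * T = 1) (h : ∀ a j, T a j ≠ 0 → d a = q j) (j a : Fin n) (hja : T' j a ≠ 0) : d a = q j := by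
  have h3 : T * Matrix.diagonal (fun j => (q j : ℂ)) = Matrix.diagonal (fun a => (d a : ℂ)) * T := by
    ext a j
    rw [Matrix.mul_diagonal, Matrix.diagonal_mul]
    by_cases h4 : T a j = 0
    · rw [h4, zero_mul, mul_zero]
    · rw [h a j h4, mul_comm]
  have h4 : T' * Matrix.diagonal (fun a => (d a : ℂ)) = Matrix.diagonal (fun j => (q j : ℂ)) * T' := by
    calc T' * Matrix.diagonal (fun a => (d a : ℂ)) =
        T' * (Matrix.diagonal (fun a => (d a : ℂ)) * T) * T' := by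
          rw [Matrix.mul_assoc, Matrix.mul_assoc, h1, Matrix.mul_one]
      _ = (T' * T) * Matrix.diagonal (fun j => (q j : ℂ)) * T' := by
          rw [← h3]
          simp only [Matrix.mul_assoc]
      _ = _ := by rw [h2, Matrix.one_mul]
  have h5 := congrFun (congrFun h4 j) a
  rw [Matrix.mul_diagonal, Matrix.diagonal_mul, mul_comm] at h5
  exact_mod_cast mul_right_cancel₀ hja h5

theorem exists_cmbasis {n : ℕ} {wt : ℤ} {Q : Matrix (Fin n) (Fin n) ℤ} {Fl : ℤ → Submodule ℂ (Fin n → ℂ)}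
    (h : IsPHS wt Q Fl) (A : Matrix (Fin n) (Fin n) ℤ) (hsep : (im A).charpoly.Separable)
    (hA : ∀ p, ∀ x ∈ Fl p, im A *ᵥ x ∈ Fl p) :
    ∃ (e : Fin n → ℂ) (P : Matrix (Fin n) (Fin n) ℂ) (q : Fin n → ℤ), CMBasis wt Fl A e P q := by
  classical
  obtain ⟨S, d, hS⟩ := exists_adapted h
  obtain ⟨e, b, he, hb0, hb⟩ := U02_eigs (im A) hsep
  have hli : LinearIndependent ℂ b := by
    apply Module.End.eigenvectors_linearIndependent' (im A).mulVecLin e he b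
    intro j
    refine ⟨?_, hb0 j⟩
    rw [Module.End.mem_eigenspace_iff]
    simpa using hb j
  let P : Matrix (Fin n) (Fin n) ℂ := Matrix.of (fun a j => b j a)
  have hPT : ∀ j, Pᵀ j = b j := fun j => rfl
  have hPu : IsUnit P.det := by
    rw [← Matrix.isUnit_iff_isUnit_det]
    refine Matrix.linearIndependent_cols_iff_isUnit.mp ?_
    exact hli
  have hPe : im A * P = P * Matrix.diagonal e := by
    ext a j
    rw [Matrix.mul_diagonal]
    have h1 := congrFun (hb j) a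
    rw [Pi.smul_apply, smul_eq_mul] at h1
    have h2 : (im A * P) a j = (im A *ᵥ b j) a := rfl
    rw [h2, h1, mul_comm]
    rfl
  -- the matrix of `A` in the adapted basis
  have hM1 := (mem_FEnd_iff hS (im A) 0).mp (fun p x hx => by rw [add_zero]; exact hA p x hx)
  have hM2 := (conj_mem_FEnd_iff hS (im A) 0).mp (by
    rw [U01_mconj_im]; exact fun p x hx => by rw [add_zero]; exact hA p x hx)
  have hM : ∀ a c, (S⁻¹ * im A * S) a c ≠ 0 → d a = d c := fun a c hac => by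
    have h1 := hM1 a c hac
    have h2 := hM2 a c hac
    omega
  have hSi : ∀ x : Fin n → ℂ, S⁻¹ *ᵥ (S *ᵥ x) = x := fun x => by
    rw [Matrix.mulVec_mulVec, Matrix.nonsing_inv_mul _ hS.inv, Matrix.one_mulVec]
  have hSi' : ∀ x : Fin n → ℂ, S *ᵥ (S⁻¹ *ᵥ x) = x := fun x => by
    rw [Matrix.mulVec_mulVec, Matrix.mul_nonsing_inv _ hS.inv, Matrix.one_mulVec]
  have hlev : ∀ j a a', (S⁻¹ *ᵥ b j) a ≠ 0 → (S⁻¹ *ᵥ b j) a' ≠ 0 → d a' = d a := by
    intro j a a' ha ha'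
    set y := S⁻¹ *ᵥ b j with hy
    let z : Fin n → ℂ := fun c => if d c = d a then y c else 0
    have hMy : (S⁻¹ * im A * S) *ᵥ y = e j • y := by
      rw [hy, ← E03_coord hS.inv, hb j, Matrix.mulVec_smul]
    have hMz : (S⁻¹ * im A * S) *ᵥ z = e j • z := by
      funext c
      by_cases hc : d c = d a
      · have h1 : ((S⁻¹ * im A * S) *ᵥ z) c = ((S⁻¹ * im A * S) *ᵥ y) c := by
          unfold Matrix.mulVec dotProduct
          refine Finset.sum_congr rfl fun k _ => ?_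
          beta_reduce
          by_cases hk : (S⁻¹ * im A * S) c k = 0
          · rw [hk, zero_mul, zero_mul]
          · have h2 := hM c k hk
            have h3 : z k = y k := if_pos (h2.symm.trans hc)
            rw [h3]
        have h2 : z c = y c := if_pos hc
        rw [h1, hMy, Pi.smul_apply, Pi.smul_apply, h2]
      · have h1 : ((S⁻¹ * im A * S) *ᵥ z) c = 0 := by
          unfold Matrix.mulVec dotProduct
          refine Finset.sum_eq_zero fun k _ => ?_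
          beta_reduce
          by_cases hk : (S⁻¹ * im A * S) c k = 0
          · rw [hk, zero_mul]
          · have h2 := hM c k hk
            have h3 : z k = 0 := if_neg (fun h4 => hc (h2.trans h4))
            rw [h3, mul_zero]
        have h2 : z c = 0 := if_neg hc
        rw [h1, Pi.smul_apply, h2, smul_zero]
    have hv : im A *ᵥ (S *ᵥ z) = e j • (S *ᵥ z) := by
      have h1 : S⁻¹ *ᵥ (im A *ᵥ (S *ᵥ z)) = S⁻¹ *ᵥ (e j • (S *ᵥ z)) := by
        rw [E03_coord hS.inv, hSi, hMz, Matrix.mulVec_smul, hSi]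
      rw [← hSi' (im A *ᵥ (S *ᵥ z)), h1, hSi']
    obtain ⟨c, hc⟩ := A1_one (im A) P e he hPu hPe (S *ᵥ z) j hv
    rw [hPT] at hc
    have h1 : z = c • y := by
      rw [← hSi z, hc, Matrix.mulVec_smul]
    have h2 : z a = y a := if_pos rfl
    have h3 := congrFun h1 a
    rw [h2, Pi.smul_apply, smul_eq_mul] at h3
    have h4 : c = 1 := by
      have h5 : (1 - c) * y a = 0 := by rw [sub_mul, one_mul, ← h3, sub_self]
      have h6 := (mul_eq_zero.mp h5).resolve_right ha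
      exact (sub_eq_zero.mp h6).symm
    have h5 := congrFun h1 a'
    rw [h4, one_smul] at h5
    by_contra hne
    have h6 : z a' = 0 := if_neg hne
    exact ha' (h5.symm.trans h6)
  have hq : ∀ j, ∃ r : ℤ, ∀ a, (S⁻¹ *ᵥ b j) a ≠ 0 → d a = r := by
    intro j
    by_cases hex : ∃ a, (S⁻¹ *ᵥ b j) a ≠ 0
    · obtain ⟨a, ha⟩ := hex
      exact ⟨d a, fun a' ha' => hlev j a a' ha ha'⟩
    · exact ⟨0, fun a ha => absurd ⟨a, ha⟩ hex⟩
  choose q hq using hq
  have hT : ∀ a j, (S⁻¹ * P) a j ≠ 0 → d a = q j := fun a j haj => hq j a haj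
  have hTT : (S⁻¹ * P) * (P⁻¹ * S) = 1 := by
    rw [Matrix.mul_assoc, ← Matrix.mul_assoc P, Matrix.mul_nonsing_inv _ hPu, Matrix.one_mul,
      Matrix.nonsing_inv_mul _ hS.inv]
  have hTT' : (P⁻¹ * S) * (S⁻¹ * P) = 1 := by
    rw [Matrix.mul_assoc, ← Matrix.mul_assoc S, Matrix.mul_nonsing_inv _ hS.inv, Matrix.one_mul,
      Matrix.nonsing_inv_mul _ hPu]
  have hT' : ∀ j a, (P⁻¹ * S) j a ≠ 0 → d a = q j := A1_Tinv _ _ d q hTT hTT' hT
  have hx1 : ∀ x : Fin n → ℂ, P⁻¹ *ᵥ x = (P⁻¹ * S) *ᵥ (S⁻¹ *ᵥ x) := fun x => by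
    rw [← Matrix.mulVec_mulVec, hSi']
  have hx2 : ∀ x : Fin n → ℂ, S⁻¹ *ᵥ x = (S⁻¹ * P) *ᵥ (P⁻¹ *ᵥ x) := fun x => by
    rw [← Matrix.mulVec_mulVec, Matrix.mulVec_mulVec x P P⁻¹, Matrix.mul_nonsing_inv _ hPu,
      Matrix.one_mulVec]
  refine ⟨e, P, q, he, hPu, hPe, fun p x => ?_, fun p x => ?_⟩
  · rw [E03_fl hS]
    constructor
    · intro hx j hj
      rw [hx1] at hj
      obtain ⟨a, h1, h2⟩ := E03_supp _ _ _ hj
      rw [← hT' j a h1]
      exact hx a h2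
    · intro hx a ha
      rw [hx2] at ha
      obtain ⟨j, h1, h2⟩ := E03_supp _ _ _ ha
      rw [hT a j h1]
      exact hx j h2
  · rw [E03_cfl hS]
    constructor
    · intro hx j hj
      rw [hx1] at hj
      obtain ⟨a, h1, h2⟩ := E03_supp _ _ _ hj
      rw [← hT' j a h1]
      exact hx a h2
    · intro hx a ha
      rw [hx2] at ha
      obtain ⟨j, h1, h2⟩ := E03_supp _ _ _ ha
      rw [hT a j h1]
      exact hx j h2

private theorem A1_col {n : ℕ} {wt : ℤ} {Fl : ℤ → Submodule ℂ (Fin n → ℂ)}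
    {A : Matrix (Fin n) (Fin n) ℤ} {e : Fin n → ℂ} {P : Matrix (Fin n) (Fin n) ℂ} {q : Fin n → ℤ}
    (hP : CMBasis wt Fl A e P q) (j : Fin n) (p : ℤ) :
    (Pᵀ j ∈ Fl p ↔ p ≤ q j) ∧ (Pᵀ j ∈ conjSub (Fl p) ↔ q j ≤ wt - p) := by
  rw [hP.fl, hP.cfl, E03_col hP.inv]
  constructor
  · constructor
    · intro h1
      exact h1 j (by simp)
    · intro h1 k hk
      by_cases hkj : k = j
      · subst hkj; exact h1
      · exact absurd (by simp [hkj]) hk
  · constructor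
    · intro h1
      exact h1 j (by simp)
    · intro h1 k hk
      by_cases hkj : k = j
      · subst hkj; exact h1
      · exact absurd (by simp [hkj]) hk

theorem CMBasis.deg {n : ℕ} {wt : ℤ} {Q : Matrix (Fin n) (Fin n) ℤ} {Fl : ℤ → Submodule ℂ (Fin n → ℂ)}
    {A : Matrix (Fin n) (Fin n) ℤ} {e : Fin n → ℂ} {P : Matrix (Fin n) (Fin n) ℂ} {q : Fin n → ℤ}
    (hP : CMBasis wt Fl A e P q) {S : Matrix (Fin n) (Fin n) ℂ} {d : Fin n → ℤ}
    (hS : Adapted wt Q Fl S d) (a j : Fin n) (h : (S⁻¹ * P) a j ≠ 0) : d a = q j := by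
  have h0 : (S⁻¹ *ᵥ Pᵀ j) a ≠ 0 := h
  have h1 := (E03_fl hS (q j) (Pᵀ j)).mp ((A1_col hP j (q j)).1.mpr le_rfl) a h0
  have h2 := (E03_cfl hS (wt - q j) (Pᵀ j)).mp ((A1_col hP j (wt - q j)).2.mpr (by omega)) a h0
  omega

theorem CMBasis.deg' {n : ℕ} {wt : ℤ} {Q : Matrix (Fin n) (Fin n) ℤ} {Fl : ℤ → Submodule ℂ (Fin n → ℂ)}
    {A : Matrix (Fin n) (Fin n) ℤ} {e : Fin n → ℂ} {P : Matrix (Fin n) (Fin n) ℂ} {q : Fin n → ℤ}
    (hP : CMBasis wt Fl A e P q) {S : Matrix (Fin n) (Fin n) ℂ} {d : Fin n → ℤ}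
    (hS : Adapted wt Q Fl S d) (j c : Fin n) (h : (P⁻¹ * S) j c ≠ 0) : d c = q j := by
  have h0 : (P⁻¹ *ᵥ Sᵀ c) j ≠ 0 := h
  have h1 : Sᵀ c ∈ Fl (d c) := (E03_fl hS (d c) (Sᵀ c)).mpr fun a ha => by
    rw [E03_colcoef hS.inv a c ha]
  have h2 : Sᵀ c ∈ conjSub (Fl (wt - d c)) := (E03_cfl hS (wt - d c) (Sᵀ c)).mpr fun a ha => by
    rw [E03_colcoef hS.inv a c ha]
    omega
  have h3 := (hP.fl (d c) (Sᵀ c)).mp h1 j h0
  have h4 := (hP.cfl (wt - d c) (Sᵀ c)).mp h2 j h0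
  omega

/-- the eigenvalues are the `e j` -/
theorem CMBasis.eig_iff {n : ℕ} {wt : ℤ} {Fl : ℤ → Submodule ℂ (Fin n → ℂ)}
    {A : Matrix (Fin n) (Fin n) ℤ} {e : Fin n → ℂ} {P : Matrix (Fin n) (Fin n) ℂ} {q : Fin n → ℤ}
    (hP : CMBasis wt Fl A e P q) (a : ℂ) : Eig A a ↔ ∃ j, e j = a := by
  unfold Eig
  rw [Matrix.eval_charpoly]
  have h1 : (Matrix.scalar (Fin n)) a - im A = P * Matrix.diagonal (fun k => a - e k) * P⁻¹ := by
    have h1 : Matrix.diagonal (fun k => a - e k) =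
        (Matrix.scalar (Fin n)) a - Matrix.diagonal e := by
      ext i j
      by_cases h : i = j
      · subst h; simp
      · simp [h]
    have h2 : im A = P * Matrix.diagonal e * P⁻¹ := by
      rw [← hP.eig, Matrix.mul_assoc, Matrix.mul_nonsing_inv _ hP.inv, Matrix.mul_one]
    have h3 : P * (Matrix.scalar (Fin n)) a * P⁻¹ = (Matrix.scalar (Fin n)) a := by
      rw [(Matrix.scalar_commute a (fun r => mul_comm a r) P).symm.eq, Matrix.mul_assoc,
        Matrix.mul_nonsing_inv _ hP.inv, Matrix.mul_one]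
    rw [h1, Matrix.mul_sub, Matrix.sub_mul, ← h2, h3]
  rw [h1, Matrix.det_mul, Matrix.det_mul, Matrix.det_diagonal]
  have h2 : P.det ≠ 0 := hP.inv.ne_zero
  have h3 : (P⁻¹).det ≠ 0 := by
    rw [Matrix.det_nonsing_inv]
    exact hP.inv.ringInverse.ne_zero
  constructor
  · intro h4
    rcases mul_eq_zero.mp h4 with h5 | h5
    · rcases mul_eq_zero.mp h5 with h6 | h6
      · exact absurd h6 h2
      · obtain ⟨j, _, hj⟩ := Finset.prod_eq_zero_iff.mp h6
        exact ⟨j, (sub_eq_zero.mp hj).symm⟩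
    · exact absurd h5 h3
  · rintro ⟨j, hj⟩
    have h4 : ∏ k, (a - e k) = 0 := Finset.prod_eq_zero (Finset.mem_univ j) (by rw [hj, sub_self])
    rw [h4, mul_zero, zero_mul]

/-- an eigenvector for `e j` has the level `q j` -/
theorem CMBasis.lev {n : ℕ} {wt : ℤ} {Fl : ℤ → Submodule ℂ (Fin n → ℂ)}
    {A : Matrix (Fin n) (Fin n) ℤ} {e : Fin n → ℂ} {P : Matrix (Fin n) (Fin n) ℂ} {q : Fin n → ℤ}
    (hP : CMBasis wt Fl A e P q) (a : ℂ) (v : Fin n → ℂ) (hv : v ≠ 0) (hev : im A *ᵥ v = a • v) (p : ℤ)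
    (h1 : v ∈ Fl p) (h2 : v ∉ Fl (p + 1)) : ∃ j, e j = a ∧ q j = p := by
  have h3 := A1_eq (im A) P e hP.inv hP.eig v a hev
  have h4 : ∀ k, (P⁻¹ *ᵥ v) k ≠ 0 → e k = a := fun k hk => mul_right_cancel₀ hk (h3 k)
  rw [hP.fl] at h1 h2
  push Not at h2
  obtain ⟨j, hj, hjp⟩ := h2
  have h5 := h1 j hj
  exact ⟨j, h4 j hj, by omega⟩

/-- complex conjugation -/
theorem CMBasis.conj {n : ℕ} {wt : ℤ} {Fl : ℤ → Submodule ℂ (Fin n → ℂ)}
    {A : Matrix (Fin n) (Fin n) ℤ} {e : Fin n → ℂ} {P : Matrix (Fin n) (Fin n) ℂ} {q : Fin n → ℤ}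
    (hP : CMBasis wt Fl A e P q) (j : Fin n) : ∃ j', e j' = (starRingEnd ℂ) (e j) ∧ q j' = wt - q j := by
  have hb : im A *ᵥ (Pᵀ j) = e j • (Pᵀ j) := by
    funext a
    have h1 := congrFun (congrFun hP.eig a) j
    rw [Matrix.mul_diagonal] at h1
    rw [Pi.smul_apply, smul_eq_mul, mul_comm]
    exact h1
  have hb0 : Pᵀ j ≠ 0 := by
    intro h1
    have h2 := E03_col hP.inv j
    rw [h1, Matrix.mulVec_zero] at h2
    have h3 := congrFun h2 j
    simp at h3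
  refine hP.lev ((starRingEnd ℂ) (e j)) (star (Pᵀ j)) ?_ ?_ (wt - q j) ?_ ?_
  · intro h1
    apply hb0
    rw [← star_star (Pᵀ j), h1, star_zero]
  · have h1 := E03_star (im A) (Pᵀ j)
    rw [U01_mconj_im, hb, star_smul] at h1
    exact h1.symm
  · exact (A1_col hP j (wt - q j)).2.mpr (by omega)
  · intro h1
    have h2 := (A1_col hP j (wt - q j + 1)).2.mp h1
    omega

end MP2794d1.BW
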