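import Pool.Agent.Lib.MP_2794d1_ag.BW.ADefs

/-!
A2: adjugates in the eigenbasis: `a - A = P (a - D) P⁻¹`, `adj (X Y) = adj Y * adj X`, `adj P = det P • P⁻¹`, `Matrix.adjugate_diagonal`:
`adj (e i - A) = c • P E_ii P⁻¹` with `c = ∏_{k ≠ i} (e i - e k) ≠ 0`. So `XX A N (e i) (e j) = c_i c_j (P⁻¹ N P)_ij P E_ij P⁻¹`.
`nil_zero`: if all off-diagonal entries of `P⁻¹ N P` vanish, it is diagonal and nilpotent, so zero.
`XX_trans`: `N b_j = ∑ i, (P⁻¹ N P)_ij b_i`.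
-/

namespace MP2794d1.BW

open Matrix Complex Filter Topology MP2794d1 MP2794d1.AH
open scoped ContDiff Manifold

private theorem A2_adj_conj {n : ℕ} (P D : Matrix (Fin n) (Fin n) ℂ) (hP : IsUnit P.det) :
    (P * D * P⁻¹).adjugate = P * D.adjugate * P⁻¹ := by
  have h1 : P.adjugate = P.det • P⁻¹ := by
    rw [Matrix.inv_def, smul_smul, Ring.mul_inverse_cancel _ hP, one_smul]
  have hP' : IsUnit (P⁻¹).det := by
    rw [Matrix.det_nonsing_inv]
    exact hP.ringInverse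
  have h2 : P⁻¹.adjugate = (P⁻¹).det • P := by
    have h3 : (P⁻¹).adjugate = (P⁻¹).det • (P⁻¹)⁻¹ := by
      rw [Matrix.inv_def (P⁻¹), smul_smul, Ring.mul_inverse_cancel _ hP', one_smul]
    rw [h3, Matrix.nonsing_inv_nonsing_inv _ hP]
  rw [Matrix.adjugate_mul_distrib, Matrix.adjugate_mul_distrib, h1, h2, Matrix.mul_smul,
    Matrix.mul_smul, Matrix.smul_mul, smul_smul, ← Matrix.det_mul, Matrix.mul_nonsing_inv _ hP,
    Matrix.det_one, one_smul, Matrix.mul_assoc]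

private theorem A2_conj {n : ℕ} {wt : ℤ} {Fl : ℤ → Submodule ℂ (Fin n → ℂ)}
    {A : Matrix (Fin n) (Fin n) ℤ} {e : Fin n → ℂ} {P : Matrix (Fin n) (Fin n) ℂ} {q : Fin n → ℤ}
    (hP : CMBasis wt Fl A e P q) (a : ℂ) :
    a • (1 : Matrix (Fin n) (Fin n) ℂ) - im A = P * Matrix.diagonal (fun k => a - e k) * P⁻¹ := by
  have h1 : Matrix.diagonal (fun k => a - e k) = a • (1 : Matrix (Fin n) (Fin n) ℂ) - Matrix.diagonal e := by
    ext i j
    by_cases h : i = j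
    · subst h; simp
    · simp [h]
  have h2 : im A = P * Matrix.diagonal e * P⁻¹ := by
    rw [← hP.eig, Matrix.mul_assoc, Matrix.mul_nonsing_inv _ hP.inv, Matrix.mul_one]
  rw [h1, Matrix.mul_sub, Matrix.sub_mul, ← h2, Matrix.mul_smul, Matrix.mul_one, Matrix.smul_mul,
    Matrix.mul_nonsing_inv _ hP.inv]

theorem adj_eig {n : ℕ} {wt : ℤ} {Fl : ℤ → Submodule ℂ (Fin n → ℂ)}
    {A : Matrix (Fin n) (Fin n) ℤ} {e : Fin n → ℂ} {P : Matrix (Fin n) (Fin n) ℂ} {q : Fin n → ℤ}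
    (hP : CMBasis wt Fl A e P q) (i : Fin n) :
    ∃ c : ℂ, c ≠ 0 ∧ (e i • (1 : Matrix (Fin n) (Fin n) ℂ) - im A).adjugate =
      c • (P * Matrix.single i i (1 : ℂ) * P⁻¹) := by
  classical
  refine ⟨∏ j ∈ Finset.univ.erase i, (e i - e j), ?_, ?_⟩
  · refine Finset.prod_ne_zero_iff.mpr fun j hj => sub_ne_zero.mpr fun h => ?_
    exact (Finset.mem_erase.mp hj).1 (hP.inj h).symm
  · rw [A2_conj hP, A2_adj_conj _ _ hP.inv, Matrix.adjugate_diagonal]
    have h1 : Matrix.diagonal (fun k => ∏ j ∈ Finset.univ.erase k, (e i - e j)) =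
        (∏ j ∈ Finset.univ.erase i, (e i - e j)) • Matrix.single i i (1 : ℂ) := by
      ext a b
      rw [Matrix.smul_apply, Matrix.single_apply]
      by_cases h : a = b
      · subst h
        rw [Matrix.diagonal_apply_eq]
        by_cases h2 : i = a
        · subst h2; simp
        · rw [if_neg (by tauto), smul_zero]
          refine Finset.prod_eq_zero (i := i) (Finset.mem_erase.mpr ⟨h2, Finset.mem_univ _⟩) ?_
          exact sub_self _
      · rw [Matrix.diagonal_apply_ne _ h, if_neg (by rintro ⟨rfl, rfl⟩; exact h rfl), smul_zero]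
    rw [h1, Matrix.mul_smul, Matrix.smul_mul]

private theorem A2_XX {n : ℕ} {wt : ℤ} {Fl : ℤ → Submodule ℂ (Fin n → ℂ)}
    {A : Matrix (Fin n) (Fin n) ℤ} {e : Fin n → ℂ} {P : Matrix (Fin n) (Fin n) ℂ} {q : Fin n → ℤ}
    (hP : CMBasis wt Fl A e P q) (N : Matrix (Fin n) (Fin n) ℚ) (i j : Fin n) :
    ∃ c : ℂ, c ≠ 0 ∧ XX A N (e i) (e j) =
      P * Matrix.single i j (c * (P⁻¹ * cm N * P) i j) * P⁻¹ := by
  obtain ⟨c, hc, h1⟩ := adj_eig hP i
  obtain ⟨c', hc', h2⟩ := adj_eig hP j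
  refine ⟨c * c', mul_ne_zero hc hc', ?_⟩
  unfold XX
  rw [h1, h2]
  have h3 : Matrix.single i i (1 : ℂ) * (P⁻¹ * cm N * P) * Matrix.single j j (1 : ℂ) =
      Matrix.single i j ((P⁻¹ * cm N * P) i j) := by
    rw [Matrix.single_mul_mul_single, one_mul, mul_one]
  have h4 : Matrix.single i j (c * c' * (P⁻¹ * cm N * P) i j) =
      (c * c') • Matrix.single i j ((P⁻¹ * cm N * P) i j) := by
    rw [Matrix.smul_single, smul_eq_mul]
  rw [h4, ← h3, Matrix.smul_mul, Matrix.smul_mul, Matrix.mul_smul, Matrix.mul_smul, Matrix.smul_mul,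
    smul_smul]
  simp only [Matrix.mul_assoc]

private theorem A2_cancel {n : ℕ} (P X : Matrix (Fin n) (Fin n) ℂ) (hP : IsUnit P.det)
    (h : P * X * P⁻¹ = 0) : X = 0 := by
  have h1 : P⁻¹ * (P * X * P⁻¹) * P = X := by
    rw [Matrix.mul_assoc P X P⁻¹, Matrix.nonsing_inv_mul_cancel_left _ _ hP,
      Matrix.mul_assoc, Matrix.nonsing_inv_mul _ hP, Matrix.mul_one]
  rw [← h1, h, Matrix.mul_zero, Matrix.zero_mul]

theorem XX_zero_iff {n : ℕ} {wt : ℤ} {Fl : ℤ → Submodule ℂ (Fin n → ℂ)}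
    {A : Matrix (Fin n) (Fin n) ℤ} {e : Fin n → ℂ} {P : Matrix (Fin n) (Fin n) ℂ} {q : Fin n → ℤ}
    (hP : CMBasis wt Fl A e P q) (N : Matrix (Fin n) (Fin n) ℚ) (i j : Fin n) :
    XX A N (e i) (e j) = 0 ↔ (P⁻¹ * cm N * P) i j = 0 := by
  obtain ⟨c, hc, h1⟩ := A2_XX hP N i j
  constructor
  · intro h
    rw [h1] at h
    have h2 := A2_cancel _ _ hP.inv h
    have h3 := congrFun (congrFun h2 i) j
    rw [Matrix.single_apply_same, Matrix.zero_apply] at h3
    exact (mul_eq_zero.mp h3).resolve_left hc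
  · intro h
    rw [h1, h, mul_zero, Matrix.single_zero, Matrix.mul_zero, Matrix.zero_mul]

theorem nil_zero {n : ℕ} {wt : ℤ} {Fl : ℤ → Submodule ℂ (Fin n → ℂ)}
    {A : Matrix (Fin n) (Fin n) ℤ} {e : Fin n → ℂ} {P : Matrix (Fin n) (Fin n) ℂ} {q : Fin n → ℤ}
    (hP : CMBasis wt Fl A e P q) (N : Matrix (Fin n) (Fin n) ℚ) (hN : N ^ n = 0)
    (h : ∀ i j, i ≠ j → XX A N (e i) (e j) = 0) : N = 0 := by
  set W := P⁻¹ * cm N * P with hW
  have h1 : W = Matrix.diagonal (fun i => W i i) := by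
    ext i j
    by_cases hij : i = j
    · subst hij; rw [Matrix.diagonal_apply_eq]
    · rw [Matrix.diagonal_apply_ne _ hij]
      exact (XX_zero_iff hP N i j).mp (h i j hij)
  have hcm : cm (N ^ n) = cm N ^ n := by
    unfold cm
    exact Matrix.map_pow N (Rat.castHom ℂ) n
  have h2 : ∀ k : ℕ, W ^ k = P⁻¹ * cm N ^ k * P := by
    intro k
    induction k with
    | zero => rw [pow_zero, pow_zero, Matrix.mul_one, Matrix.nonsing_inv_mul _ hP.inv]
    | succ k ih =>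
      rw [pow_succ, ih, hW, pow_succ]
      calc P⁻¹ * cm N ^ k * P * (P⁻¹ * cm N * P) = P⁻¹ * cm N ^ k * (P * P⁻¹) * cm N * P := by
            simp only [Matrix.mul_assoc]
        _ = P⁻¹ * (cm N ^ k * cm N) * P := by
            rw [Matrix.mul_nonsing_inv _ hP.inv, Matrix.mul_one]
            simp only [Matrix.mul_assoc]
  have h3 : W ^ n = 0 := by
    rw [h2 n, ← hcm, hN]
    have : cm (0 : Matrix (Fin n) (Fin n) ℚ) = 0 := by
      ext i j; simp [cm]
    rw [this, Matrix.mul_zero, Matrix.zero_mul]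
  have h4 : ∀ i, W i i = 0 := by
    intro i
    rw [h1, Matrix.diagonal_pow] at h3
    have h5 := congrFun (congrFun h3 i) i
    rw [Matrix.diagonal_apply_eq, Matrix.zero_apply, Pi.pow_apply] at h5
    exact eq_zero_of_pow_eq_zero h5
  have h5 : W = 0 := by
    rw [h1]
    ext i j
    by_cases hij : i = j
    · subst hij; rw [Matrix.diagonal_apply_eq, h4 i, Matrix.zero_apply]
    · rw [Matrix.diagonal_apply_ne _ hij, Matrix.zero_apply]
  have h6 : cm N = 0 := by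
    have h7 : P * W * P⁻¹ = cm N := by
      rw [hW]
      calc P * (P⁻¹ * cm N * P) * P⁻¹ = (P * P⁻¹) * cm N * (P * P⁻¹) := by
            simp only [Matrix.mul_assoc]
        _ = cm N := by rw [Matrix.mul_nonsing_inv _ hP.inv, Matrix.one_mul, Matrix.mul_one]
    rw [← h7, h5, Matrix.mul_zero, Matrix.zero_mul]
  ext i j
  have h7 := congrFun (congrFun h6 i) j
  have h8 : ((N i j : ℚ) : ℂ) = 0 := h7
  rw [Matrix.zero_apply]
  exact_mod_cast h8

theorem XX_trans {n : ℕ} {wt : ℤ} {Fl : ℤ → Submodule ℂ (Fin n → ℂ)}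
    {A : Matrix (Fin n) (Fin n) ℤ} {e : Fin n → ℂ} {P : Matrix (Fin n) (Fin n) ℂ} {q : Fin n → ℤ}
    (hP : CMBasis wt Fl A e P q) (N : Matrix (Fin n) (Fin n) ℚ)
    (h : ∀ i j, q i + 2 ≤ q j → XX A N (e i) (e j) = 0) (p : ℤ) (x : Fin n → ℂ) (hx : x ∈ Fl p) :
    cm N *ᵥ x ∈ Fl (p - 1) := by
  rw [hP.fl] at hx ⊢
  intro i hi
  rw [E03_coord hP.inv] at hi
  obtain ⟨j, h1, h2⟩ := E03_supp _ _ _ hi
  have h3 := hx j h2
  have h4 : ¬ (q i + 2 ≤ q j) := fun h5 => h1 ((XX_zero_iff hP N i j).mp (h i j h5))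
  omega

end MP2794d1.BW
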