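import Pool.Agent.Lib.MP_2794d1_ag.BW.A1
import Pool.Agent.Lib.MP_2794d1_ag.BW.A2
import Pool.Agent.Lib.MP_2794d1_ag.A05
import Pool.Agent.Lib.MP_2794d1_ag.P01

/-!
A3: entries of `XX` in an adapted basis. `M = S⁻¹ A S` has entries `≤ H`, `‖e i‖ ≤ n H` (`A05_eig`), the entries of `e i - M` are
`≤ (n + 1) H`, those of `adj (e i - M) = S⁻¹ adj (e i - A) S` are `≤ n! ((n + 1) H)^n` (determinant of a matrix with one row replaced by a
unit vector). By `adj_eig` (A2) and `deg`, `deg'` (A1) `(S⁻¹ adj (e i - A) S) a c ≠ 0` only if `d a = q i = d c`. So in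
`∑ c c', adj a c * (S⁻¹ N S) c c' * adj c' b` only terms with `d c = q i`, `d c' = q j` occur, `‖(S⁻¹ N S) c c'‖ ≤ η`.
-/

namespace MP2794d1.BW

open Matrix Complex Filter Topology MP2794d1 MP2794d1.AH
open scoped ContDiff Manifold

private theorem A3_det {n : ℕ} (Y : Matrix (Fin n) (Fin n) ℂ) {B : ℝ} (h : ∀ a b, ‖Y a b‖ ≤ B) :
    ‖Y.det‖ ≤ n.factorial * B ^ n := by
  rw [Matrix.det_apply]
  refine (norm_sum_le _ _).trans ?_
  have h0 : ∀ σ ∈ (Finset.univ : Finset (Equiv.Perm (Fin n))),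
      ‖Equiv.Perm.sign σ • ∏ i, Y (σ i) i‖ ≤ B ^ n := by
    intro σ _
    have h1 : ‖Equiv.Perm.sign σ • ∏ i, Y (σ i) i‖ = ∏ i, ‖Y (σ i) i‖ := by
      rcases Int.units_eq_one_or (Equiv.Perm.sign σ) with h | h <;> rw [h] <;> simp
    rw [h1]
    calc ∏ i, ‖Y (σ i) i‖ ≤ ∏ _i : Fin n, B :=
          Finset.prod_le_prod (fun _ _ => norm_nonneg _) (fun i _ => h _ _)
      _ = B ^ n := by simp
  refine (Finset.sum_le_sum h0).trans (le_of_eq ?_)
  rw [Finset.sum_const, Finset.card_univ, Fintype.card_perm, Fintype.card_fin, nsmul_eq_mul]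

private theorem A3_adj {n : ℕ} (Y : Matrix (Fin n) (Fin n) ℂ) {B : ℝ} (hB : 1 ≤ B)
    (h : ∀ a b, ‖Y a b‖ ≤ B) (a b : Fin n) : ‖Y.adjugate a b‖ ≤ n.factorial * B ^ n := by
  rw [Matrix.adjugate_apply]
  refine A3_det _ fun c d => ?_
  rw [Matrix.updateRow_apply]
  split_ifs with hc
  · rw [Pi.single_apply]
    split_ifs with hd
    · rw [norm_one]
      exact hB
    · rw [norm_zero]
      linarith
  · exact h c d

private theorem A3_adjS {n : ℕ} (S : Matrix (Fin n) (Fin n) ℂ) (hS : IsUnit S.det) :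
    S.adjugate = S.det • S⁻¹ := by
  rw [Matrix.inv_def, smul_smul, Ring.mul_inverse_cancel _ hS, one_smul]

private theorem A3_conj {n : ℕ} (S X : Matrix (Fin n) (Fin n) ℂ) (hS : IsUnit S.det) :
    (S⁻¹ * X * S).adjugate = S⁻¹ * X.adjugate * S := by
  have hS' : IsUnit S⁻¹.det := by
    rw [Matrix.isUnit_nonsing_inv_det_iff]
    exact hS
  rw [Matrix.adjugate_mul_distrib, Matrix.adjugate_mul_distrib, A3_adjS S hS, A3_adjS S⁻¹ hS',
    Matrix.nonsing_inv_nonsing_inv S hS, Matrix.smul_mul, Matrix.mul_smul, Matrix.mul_smul,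
    smul_smul, ← Matrix.det_mul, Matrix.mul_nonsing_inv S hS, Matrix.det_one, one_smul,
    Matrix.mul_assoc]

private theorem A3_K {n : ℕ} {wt : ℤ} {Fl : ℤ → Submodule ℂ (Fin n → ℂ)}
    {A : Matrix (Fin n) (Fin n) ℤ} {e : Fin n → ℂ} {P : Matrix (Fin n) (Fin n) ℂ} {q : Fin n → ℤ}
    (hP : CMBasis wt Fl A e P q) {S : Matrix (Fin n) (Fin n) ℂ} (hS : IsUnit S.det) {H : ℝ}
    (hH : 1 ≤ H) (hM : ∀ a b, ‖(S⁻¹ * im A * S) a b‖ ≤ H) (i a b : Fin n) :
    ‖(S⁻¹ * (e i • (1 : Matrix (Fin n) (Fin n) ℂ) - im A).adjugate * S) a b‖ ≤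
      n.factorial * ((n + 1) * H) ^ n := by
  have hSinv : S * S⁻¹ = 1 := Matrix.mul_nonsing_inv S hS
  have hSinv' : S⁻¹ * S = 1 := Matrix.nonsing_inv_mul S hS
  have heig : ‖e i‖ ≤ n * H := by
    have h1 : (S⁻¹ * im A * S) * (S⁻¹ * P) = (S⁻¹ * P) * Matrix.diagonal e := by
      calc (S⁻¹ * im A * S) * (S⁻¹ * P) = S⁻¹ * im A * (S * S⁻¹) * P := by
            simp only [Matrix.mul_assoc]
        _ = S⁻¹ * (im A * P) := by rw [hSinv, Matrix.mul_one, Matrix.mul_assoc]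
        _ = (S⁻¹ * P) * Matrix.diagonal e := by rw [hP.eig, Matrix.mul_assoc]
    have h2 : (S⁻¹ * im A * S) *ᵥ (fun a => (S⁻¹ * P) a i) = e i • (fun a => (S⁻¹ * P) a i) := by
      funext a
      have h3 := congrFun (congrFun h1 a) i
      rw [Matrix.mul_apply, Matrix.mul_diagonal] at h3
      show ∑ b, (S⁻¹ * im A * S) a b * (S⁻¹ * P) b i = e i * (S⁻¹ * P) a i
      rw [h3, mul_comm]
    have h3 : (fun a => (S⁻¹ * P) a i) ≠ 0 := by
      intro h0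
      have h4 : P⁻¹ * S * (S⁻¹ * P) = 1 := by
        calc P⁻¹ * S * (S⁻¹ * P) = P⁻¹ * (S * S⁻¹) * P := by simp only [Matrix.mul_assoc]
          _ = 1 := by rw [hSinv, Matrix.mul_one, Matrix.nonsing_inv_mul P hP.inv]
      have h5 := congrFun (congrFun h4 i) i
      rw [Matrix.mul_apply, Matrix.one_apply_eq, Finset.sum_eq_zero] at h5
      · exact zero_ne_one h5
      · intro b _
        rw [show (S⁻¹ * P) b i = 0 from congrFun h0 b, mul_zero]
    have h4 := A05_eig h3 h2 hM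
    rwa [Fintype.card_fin] at h4
  rw [← A3_conj S _ hS]
  refine A3_adj _ ?_ (fun c d => ?_) a b
  · have : (0 : ℝ) ≤ n := Nat.cast_nonneg n
    nlinarith
  · have h1 : S⁻¹ * (e i • (1 : Matrix (Fin n) (Fin n) ℂ) - im A) * S =
        e i • (1 : Matrix (Fin n) (Fin n) ℂ) - S⁻¹ * im A * S := by
      rw [Matrix.mul_sub, Matrix.sub_mul, Matrix.mul_smul, Matrix.mul_one, Matrix.smul_mul, hSinv']
    rw [h1, Matrix.sub_apply, Matrix.smul_apply]
    refine (norm_sub_le _ _).trans ?_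
    have h2 : ‖e i • (1 : Matrix (Fin n) (Fin n) ℂ) c d‖ ≤ n * H := by
      rw [norm_smul]
      refine le_trans (mul_le_of_le_one_right (norm_nonneg _) ?_) heig
      rw [Matrix.one_apply]
      split_ifs <;> simp
    have h3 := hM c d
    linarith

private theorem A3_supp {n : ℕ} {wt : ℤ} {Q : Matrix (Fin n) (Fin n) ℤ}
    {Fl : ℤ → Submodule ℂ (Fin n → ℂ)}
    {A : Matrix (Fin n) (Fin n) ℤ} {e : Fin n → ℂ} {P : Matrix (Fin n) (Fin n) ℂ} {q : Fin n → ℤ}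
    (hP : CMBasis wt Fl A e P q) {S : Matrix (Fin n) (Fin n) ℂ} {d : Fin n → ℤ}
    (hS : Adapted wt Q Fl S d) (i a b : Fin n)
    (h : (S⁻¹ * (e i • (1 : Matrix (Fin n) (Fin n) ℂ) - im A).adjugate * S) a b ≠ 0) :
    d a = q i ∧ d b = q i := by
  obtain ⟨c, hc, hadj⟩ := adj_eig hP i
  have h1 : S⁻¹ * (e i • (1 : Matrix (Fin n) (Fin n) ℂ) - im A).adjugate * S =
      c • ((S⁻¹ * P) * Matrix.single i i (1 : ℂ) * (P⁻¹ * S)) := by
    rw [hadj, Matrix.mul_smul, Matrix.smul_mul]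
    simp only [Matrix.mul_assoc]
  have h2 : ((S⁻¹ * P) * Matrix.single i i (1 : ℂ) * (P⁻¹ * S)) a b =
      (S⁻¹ * P) a i * (P⁻¹ * S) i b := by
    rw [Matrix.mul_apply, Finset.sum_eq_single i]
    · rw [Matrix.mul_single_apply_same, mul_one]
    · intro k _ hk
      rw [Matrix.mul_single_apply_of_ne _ _ _ _ _ hk, zero_mul]
    · intro hi
      exact absurd (Finset.mem_univ i) hi
  rw [h1, Matrix.smul_apply, h2, smul_eq_mul] at h
  have h3 := right_ne_zero_of_mul h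
  exact ⟨hP.deg hS a i (left_ne_zero_of_mul h3), hP.deg' hS i b (right_ne_zero_of_mul h3)⟩

theorem XX_small (n : ℕ) : ∃ C : ℝ, 0 ≤ C ∧ ∀ {wt : ℤ} {Q : Matrix (Fin n) (Fin n) ℤ}
    {Fl : ℤ → Submodule ℂ (Fin n → ℂ)} {A : Matrix (Fin n) (Fin n) ℤ} {e : Fin n → ℂ}
    {P : Matrix (Fin n) (Fin n) ℂ} {q : Fin n → ℤ}, CMBasis wt Fl A e P q →
    ∀ {S : Matrix (Fin n) (Fin n) ℂ} {d : Fin n → ℤ}, Adapted wt Q Fl S d → ∀ H : ℝ, 1 ≤ H →
      (∀ a b, ‖(S⁻¹ * im A * S) a b‖ ≤ H) → ∀ (N : Matrix (Fin n) (Fin n) ℚ) (η : ℝ), 0 ≤ η →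
      (∀ a b, d a + 2 ≤ d b → ‖(S⁻¹ * cm N * S) a b‖ ≤ η) → ∀ i j, q i + 2 ≤ q j →
        ∀ a b, ‖(S⁻¹ * XX A N (e i) (e j) * S) a b‖ ≤ C * H ^ (2 * n) * η := by
  refine ⟨n ^ 2 * (n.factorial : ℝ) ^ 2 * (n + 1) ^ (2 * n), by positivity, ?_⟩
  intro wt Q Fl A e P q hP S d hS H hH hM N η hη hN i j hij a b
  have hSinv : S * S⁻¹ = 1 := Matrix.mul_nonsing_inv S hS.inv
  obtain ⟨K, hK⟩ : ∃ K, K = S⁻¹ * (e i • (1 : Matrix (Fin n) (Fin n) ℂ) - im A).adjugate * S :=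
    ⟨_, rfl⟩
  obtain ⟨L, hL⟩ : ∃ L, L = S⁻¹ * (e j • (1 : Matrix (Fin n) (Fin n) ℂ) - im A).adjugate * S :=
    ⟨_, rfl⟩
  obtain ⟨R, hR⟩ : ∃ R, R = S⁻¹ * cm N * S := ⟨_, rfl⟩
  have hX : S⁻¹ * XX A N (e i) (e j) * S = K * R * L := by
    unfold XX
    rw [hK, hL, hR]
    obtain ⟨U, hU⟩ : ∃ U, U = (e i • (1 : Matrix (Fin n) (Fin n) ℂ) - im A).adjugate := ⟨_, rfl⟩
    obtain ⟨W, hW⟩ : ∃ W, W = (e j • (1 : Matrix (Fin n) (Fin n) ℂ) - im A).adjugate := ⟨_, rfl⟩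
    rw [← hU, ← hW]
    calc S⁻¹ * (U * cm N * W) * S = S⁻¹ * U * (1 * (cm N * (1 * (W * S)))) := by
          rw [Matrix.one_mul, Matrix.one_mul]
          simp only [Matrix.mul_assoc]
      _ = S⁻¹ * U * S * (S⁻¹ * cm N * S) * (S⁻¹ * W * S) := by
          rw [← hSinv]
          simp only [Matrix.mul_assoc]
  have hKb : ∀ a b, ‖K a b‖ ≤ n.factorial * ((n + 1) * H) ^ n := fun a b => by
    rw [hK]
    exact A3_K hP hS.inv hH hM i a b
  have hLb : ∀ a b, ‖L a b‖ ≤ n.factorial * ((n + 1) * H) ^ n := fun a b => by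
    rw [hL]
    exact A3_K hP hS.inv hH hM j a b
  have hKs : ∀ a b, K a b ≠ 0 → d b = q i := fun a b h => by
    rw [hK] at h
    exact (A3_supp hP hS i a b h).2
  have hLs : ∀ a b, L a b ≠ 0 → d a = q j := fun a b h => by
    rw [hL] at h
    exact (A3_supp hP hS j a b h).1
  have hRb : ∀ a b, d a + 2 ≤ d b → ‖R a b‖ ≤ η := fun a b h => by
    rw [hR]
    exact hN a b h
  obtain ⟨B, hB⟩ : ∃ B : ℝ, B = n.factorial * ((n + 1) * H) ^ n := ⟨_, rfl⟩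
  rw [← hB] at hKb hLb
  have hB0 : 0 ≤ B := by
    rw [hB]
    positivity
  rw [hX, Matrix.mul_apply]
  have h1 : ∀ c' ∈ (Finset.univ : Finset (Fin n)), ‖(K * R) a c' * L c' b‖ ≤ n * (B * η * B) := by
    intro c' _
    by_cases hz : L c' b = 0
    · rw [hz, mul_zero, norm_zero]
      positivity
    rw [Matrix.mul_apply, Finset.sum_mul]
    refine (norm_sum_le _ _).trans ?_
    have h2 : ∀ c ∈ (Finset.univ : Finset (Fin n)), ‖K a c * R c c' * L c' b‖ ≤ B * η * B := by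
      intro c _
      by_cases hz' : K a c = 0
      · rw [hz', zero_mul, zero_mul, norm_zero]
        positivity
      have h3 := hKs a c hz'
      have h4 := hLs c' b hz
      have h5 := hRb c c' (by rw [h3, h4]; exact hij)
      rw [norm_mul, norm_mul]
      exact mul_le_mul (mul_le_mul (hKb a c) h5 (norm_nonneg _) hB0) (hLb c' b) (norm_nonneg _)
        (by positivity)
    refine (Finset.sum_le_sum h2).trans (le_of_eq ?_)
    rw [Finset.sum_const, Finset.card_univ, Fintype.card_fin, nsmul_eq_mul]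
  refine (norm_sum_le _ _).trans ((Finset.sum_le_sum h1).trans (le_of_eq ?_))
  rw [Finset.sum_const, Finset.card_univ, Fintype.card_fin, nsmul_eq_mul, hB, mul_pow]
  ring

end MP2794d1.BW
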