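import Pool.Agent.Lib.MP_2794d1_ag.BW.ADefs
import Pool.Agent.Lib.MP_2794d1_ag.A07

/-!
A4: the entries of `XX` form algebraic families: `algSub H hH` (A07) is a subalgebra; entries of `adj M` are determinants
(`Matrix.adjugate_apply`, `Matrix.det_apply`) with entries in it (`AlgFam.int`, `AlgFam.eigen`, `AlgFam.const`); see `plucker_alg` (B04).
-/

namespace MP2794d1.BW

open Matrix Complex Filter Topology MP2794d1 MP2794d1.AH
open scoped ContDiff Manifold

/-- the determinant of a family of matrices with entries in a subalgebra -/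
private theorem A4_det {I : Type} {n : ℕ} (S : Subalgebra ℚ (I → ℂ))
    (M : I → Matrix (Fin n) (Fin n) ℂ) (hM : ∀ a b, (fun i => M i a b) ∈ S) :
    (fun i => (M i).det) ∈ S := by
  have h : (fun i => (M i).det) = ∑ σ : Equiv.Perm (Fin n), (Equiv.Perm.sign σ : ℤ) •
      ∏ k, (fun i => M i (σ k) k) := by
    funext i
    rw [Matrix.det_apply, Finset.sum_apply]
    refine Finset.sum_congr rfl fun σ _ => ?_
    rw [Pi.smul_apply, Finset.prod_apply]
    rfl
  rw [h]
  exact Subalgebra.sum_mem _ fun σ _ => zsmul_mem (Subalgebra.prod_mem _ fun k _ => hM _ _) _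

private theorem A4_adj {I : Type} {n : ℕ} (S : Subalgebra ℚ (I → ℂ))
    (M : I → Matrix (Fin n) (Fin n) ℂ) (hM : ∀ a b, (fun i => M i a b) ∈ S) (a b : Fin n) :
    (fun i => (M i).adjugate a b) ∈ S := by
  have h : (fun i => (M i).adjugate a b) =
      (fun i => ((M i).updateRow b (Pi.single a 1)).det) := by
    funext i
    exact Matrix.adjugate_apply (M i) a b
  rw [h]
  refine A4_det S _ fun c d => ?_
  by_cases hc : c = b
  · by_cases hd : d = a
    · have h1 : (fun i => ((M i).updateRow b (Pi.single a 1)) c d) = (1 : I → ℂ) := by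
        funext i
        rw [hc, Matrix.updateRow_self, hd, Pi.single_eq_same, Pi.one_apply]
      rw [h1]
      exact Subalgebra.one_mem _
    · have h1 : (fun i => ((M i).updateRow b (Pi.single a 1)) c d) = (0 : I → ℂ) := by
        funext i
        rw [hc, Matrix.updateRow_self, Pi.single_eq_of_ne hd, Pi.zero_apply]
      rw [h1]
      exact Subalgebra.zero_mem _
  · have h1 : (fun i => ((M i).updateRow b (Pi.single a 1)) c d) = fun i => M i c d := by
      funext i
      rw [Matrix.updateRow_ne hc]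
    rw [h1]
    exact hM c d

private theorem A4_mul {I : Type} {n : ℕ} (S : Subalgebra ℚ (I → ℂ))
    (M N : I → Matrix (Fin n) (Fin n) ℂ) (hM : ∀ a b, (fun i => M i a b) ∈ S)
    (hN : ∀ a b, (fun i => N i a b) ∈ S) (a b : Fin n) :
    (fun i => (M i * N i) a b) ∈ S := by
  have h : (fun i => (M i * N i) a b) = ∑ k, (fun i => M i a k) * (fun i => N i k b) := by
    funext i
    rw [Matrix.mul_apply, Finset.sum_apply]
    rfl
  rw [h]
  exact Subalgebra.sum_mem _ fun k _ => Subalgebra.mul_mem _ (hM _ _) (hN _ _)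

theorem XX_alg {I : Type} {n : ℕ} {H : I → ℝ} (hH : ∀ i, 1 ≤ H i) (A : I → Matrix (Fin n) (Fin n) ℤ)
    (hA : ∀ i a b, |(A i a b : ℝ)| ≤ H i) (α β : I → ℂ)
    (hα : ∀ i, ∃ w : Fin n → ℂ, w ≠ 0 ∧ im (A i) *ᵥ w = α i • w)
    (hβ : ∀ i, ∃ w : Fin n → ℂ, w ≠ 0 ∧ im (A i) *ᵥ w = β i • w) (N : Matrix (Fin n) (Fin n) ℚ) (a b : Fin n) :
    AlgFam H (fun i => XX (A i) N (α i) (β i) a b) := by
  rw [← mem_algSub hH]
  have hsub : ∀ γ : I → ℂ, AlgFam H γ → ∀ c d : Fin n,
      (fun i => (γ i • (1 : Matrix (Fin n) (Fin n) ℂ) - im (A i)) c d) ∈ algSub H hH := by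
    intro γ hγ c d
    have h : (fun i => (γ i • (1 : Matrix (Fin n) (Fin n) ℂ) - im (A i)) c d) =
        (if c = d then γ else (0 : I → ℂ)) - (fun i => ((A i c d : ℤ) : ℂ)) := by
      funext i
      rw [Matrix.sub_apply, Matrix.smul_apply, Pi.sub_apply]
      by_cases hcd : c = d
      · rw [if_pos hcd, hcd, Matrix.one_apply_eq, smul_eq_mul, mul_one]
        rfl
      · rw [if_neg hcd, Matrix.one_apply_ne hcd, smul_zero]
        rfl
    rw [h]
    refine Subalgebra.sub_mem _ ?_ (AlgFam.int hH (fun i => A i c d) (fun i => hA i c d))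
    by_cases hcd : c = d
    · rw [if_pos hcd]
      exact hγ
    · rw [if_neg hcd]
      exact Subalgebra.zero_mem _
  have hN : ∀ c d : Fin n, (fun _ : I => cm N c d) ∈ algSub H hH := fun c d =>
    AlgFam.const hH (N c d)
  unfold XX
  exact A4_mul _ _ _ (A4_mul _ _ _
    (A4_adj _ _ (hsub α (AlgFam.eigen hH A hA α hα))) hN)
    (A4_adj _ _ (hsub β (AlgFam.eigen hH A hA β hβ))) a b

end MP2794d1.BW
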