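import Pool.Agent.Lib.MP_2794d1_ag.BW.U6
import Pool.Agent.Lib.MP_2794d1_ag.Q02
import Pool.Agent.Lib.MP_2794d1_ag.F06

/-!
U7: transversality of the monodromy logarithm up to an exponentially small error. `p = d b`, `u = S e_b`, a vector of `F^p` at `z₀`;
`R w = RW V N p z₀ w` is holomorphic, 1-periodic and bounded in the basis `S` for `‖w - z₀‖ < ε y`, so its derivative at `z₀` is
exponentially small (`periodic_deriv`). `s w = exp ((w - z₀) N) (R w u)` belongs to `F^p` at `w`, `s' z₀ = N u + R' z₀ u` belongs to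
`F^(p - 1)` (Griffiths).
-/

namespace MP2794d1.BW

open Matrix Complex Filter Topology MP2794d1
open scoped ContDiff

theorem trans_u (n : ℕ) (κ : ℝ) : ∃ ε C Y : ℝ, 0 < ε ∧ 0 ≤ C ∧ 1 ≤ Y ∧
    ∀ (V : PolVHS n) (c : UCusp V), kc V = κ → ∀ z₀ : ℂ, Y ≤ z₀.im →
      ∀ (S : Matrix (Fin n) (Fin n) ℂ) (d : Fin n → ℤ), Adapted V.wt V.Q (fun p => V.F p z₀) S d →
        ∀ a b, d a + 2 ≤ d b → ‖(S⁻¹ * cm c.N * S) a b‖ ≤ C * Real.exp (-(ε * z₀.im)) := by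
  obtain ⟨ε₁, C₁, Y₁, hε₁, hε₁2, hC₁, hY₁, hA⟩ := RW_analytic_u n κ
  obtain ⟨ε₂, C₂, Y₂, hε₂, hε₂2, hC₂, hY₂, hR⟩ := RW_props_u n κ
  set δ : ℝ := min ε₁ ε₂ with hδ
  have hδ0 : 0 < δ := lt_min hε₁ hε₂
  have hδ1 : δ ≤ ε₁ := min_le_left _ _
  have hδ2 : δ ≤ ε₂ := min_le_right _ _
  refine ⟨δ, 16 * Real.pi * C₁, max (max Y₁ Y₂) (2 / δ), hδ0, by positivity,
    le_trans hY₁ ((le_max_left _ _).trans (le_max_left _ _)), ?_⟩
  intro V c hV z₀ him S d hS a b hab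
  have hN : cm c.N ^ n = 0 := cm_pow c.N c.nil
  set y : ℝ := z₀.im with hy
  have hyY₁ : Y₁ ≤ y := (le_max_left _ _).trans ((le_max_left _ _).trans him)
  have hyY₂ : Y₂ ≤ y := (le_max_right _ _).trans ((le_max_left _ _).trans him)
  have hyδ : 2 / δ ≤ y := (le_max_right _ _).trans him
  have hy1 : 1 ≤ y := hY₁.trans hyY₁
  have hy0 : 0 < y := by linarith
  have hδy : 2 ≤ δ * y := by
    rw [div_le_iff₀ hδ0] at hyδ
    linarith
  replace hA := hA V c hV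
  replace hR := hR V c hV
  obtain ⟨p, hp⟩ : ∃ p, p = d b := ⟨_, rfl⟩
  obtain ⟨u, hu⟩ : ∃ u : Fin n → ℂ, u = S *ᵥ Pi.single b 1 := ⟨_, rfl⟩
  have hss : S⁻¹ * S = 1 := Matrix.nonsing_inv_mul _ hS.inv
  have hd1 : ∀ w : ℂ, ‖w - z₀‖ < δ * y → ‖w - z₀‖ < ε₁ * z₀.im := fun w hw =>
    lt_of_lt_of_le hw (mul_le_mul_of_nonneg_right hδ1 hy0.le)
  have hd2 : ∀ w : ℂ, ‖w - z₀‖ < δ * y → ‖w - z₀‖ ≤ ε₂ * z₀.im := fun w hw =>
    (lt_of_lt_of_le hw (mul_le_mul_of_nonneg_right hδ2 hy0.le)).le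
  have him' : ∀ w : ℂ, ‖w - z₀‖ < δ * y → 0 < w.im := by
    intro w hw
    have h1 := Complex.abs_im_le_norm (w - z₀)
    rw [Complex.sub_im] at h1
    have h2 := (abs_le.1 h1).1
    have h3 : δ * y ≤ 1 / 2 * y := mul_le_mul_of_nonneg_right (hδ1.trans hε₁2) hy0.le
    have h4 : z₀.im = y := rfl
    rw [h4] at h2
    linarith
  have hz₀ : ‖z₀ - z₀‖ < δ * y := by
    rw [sub_self, norm_zero]
    positivity
  -- the derivative of the entry of `S⁻¹ R S`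
  have hent : ∀ w, (S⁻¹ * RW V (cm c.N) p z₀ w * S) a b =
      ∑ j, (∑ i, S⁻¹ a i * RW V (cm c.N) p z₀ w i j) * S j b := by
    intro w
    rw [Matrix.mul_apply]
    refine Finset.sum_congr rfl fun j _ => ?_
    rw [Matrix.mul_apply]
  have hRd : ∀ w : ℂ, ‖w - z₀‖ < δ * y → ∀ i j,
      DifferentiableAt ℂ (fun y => RW V (cm c.N) p z₀ y i j) w := fun w hw i j =>
    ((hA z₀ w hyY₁ (hd1 w hw) p).1 i j).differentiableAt
  have hfd : ∀ w : ℂ, ‖w - z₀‖ < δ * y → HasDerivAt (fun w => (S⁻¹ * RW V (cm c.N) p z₀ w * S) a b)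
      (∑ j, (∑ i, S⁻¹ a i * deriv (fun y => RW V (cm c.N) p z₀ y i j) w) * S j b) w := by
    intro w hw
    simp only [hent]
    refine HasDerivAt.fun_sum fun j _ => HasDerivAt.mul_const ?_ _
    refine HasDerivAt.fun_sum fun i _ => ?_
    exact ((hRd w hw i j).hasDerivAt).const_mul _
  have hper := periodic_deriv (fun w => (S⁻¹ * RW V (cm c.N) p z₀ w * S) a b) z₀ (δ * y) C₁ hδy
    (fun w hw => ⟨(hfd w hw).differentiableAt, (hA z₀ w hyY₁ (hd1 w hw) p).2.2 S d hS a b⟩)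
    (fun w hw hw1 => by
      show (S⁻¹ * RW V (cm c.N) p z₀ (w + 1) * S) a b = (S⁻¹ * RW V (cm c.N) p z₀ w * S) a b
      rw [(hA z₀ w hyY₁ (hd1 w hw) p).2.1 (hd1 (w + 1) hw1)])
  rw [(hfd z₀ hz₀).deriv] at hper
  -- the section
  have hsF : ∀ᶠ w in 𝓝 z₀, uexp (cm c.N) (w - z₀) *ᵥ (RW V (cm c.N) p z₀ w *ᵥ u) ∈ V.F p w := by
    have hc : ContinuousAt (fun w : ℂ => ‖w - z₀‖) z₀ := by fun_prop
    filter_upwards [hc.eventually_lt continuousAt_const hz₀] with w hw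
    obtain ⟨-, -, hPR, -, -, -⟩ := hR z₀ w hyY₂ (hd2 w hw) p
    have h1 : PW V (cm c.N) p z₀ w *ᵥ (RW V (cm c.N) p z₀ w *ᵥ u) = RW V (cm c.N) p z₀ w *ᵥ u := by
      rw [Matrix.mulVec_mulVec, hPR]
    rw [PW_mem V (cm c.N) hN p (him' w hw)] at h1
    obtain ⟨x, hx, hx2⟩ := h1
    rw [Matrix.mulVecLin_apply] at hx2
    rw [← hx2, Matrix.mulVec_mulVec, (P03_inv (cm c.N) hN (w - z₀)).1, Matrix.one_mulVec]
    exact hx
  obtain ⟨Rp, hRp⟩ : ∃ Rp : Matrix (Fin n) (Fin n) ℂ,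
      Rp = Matrix.of fun i j => deriv (fun y => RW V (cm c.N) p z₀ y i j) z₀ := ⟨_, rfl⟩
  have hRu : HasDerivAt (fun w => RW V (cm c.N) p z₀ w *ᵥ u) (Rp *ᵥ u) z₀ := by
    rw [hasDerivAt_pi]
    intro i
    show HasDerivAt (fun w => ∑ j, RW V (cm c.N) p z₀ w i j * u j) (∑ j, Rp i j * u j) z₀
    refine HasDerivAt.fun_sum fun j _ => ?_
    rw [hRp]
    exact ((hRd z₀ hz₀ i j).hasDerivAt).mul_const _
  have hPu : RW V (cm c.N) p z₀ z₀ *ᵥ u = u := by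
    rw [RW_self V (cm c.N) p hy0, ← PiV_mem V hy0 p]
    show u ∈ V.F p z₀
    rw [show V.F p z₀ = (fun p => V.F p z₀) p from rfl, E03_fl hS, hu, Matrix.mulVec_mulVec, hss,
      Matrix.one_mulVec]
    intro a' ha'
    have h1 : a' = b := by
      by_contra hne
      rw [Pi.single_eq_of_ne hne] at ha'
      exact ha' rfl
    rw [h1, hp]
  have hsd := F06_uexp (cm c.N) hN (v := fun w => w - z₀) (v' := 1) (z₀ := z₀)
    ((hasDerivAt_id z₀).sub_const z₀) hRu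
  rw [sub_self, uexp_zero, Matrix.one_mulVec, Matrix.one_mulVec, one_smul, hPu] at hsd
  have hsan : ∀ i, AnalyticAt ℂ
      (fun w => (uexp (cm c.N) (w - z₀) *ᵥ (RW V (cm c.N) p z₀ w *ᵥ u)) i) z₀ := by
    intro i
    show AnalyticAt ℂ (fun w => ∑ j, uexp (cm c.N) (w - z₀) i j *
      ∑ l, RW V (cm c.N) p z₀ w j l * u l) z₀
    refine Finset.analyticAt_fun_sum _ fun j _ => ?_
    refine (P05_uexp_an _ (analyticAt_id.sub analyticAt_const) i j).mul ?_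
    refine Finset.analyticAt_fun_sum _ fun l _ => ?_
    exact ((hA z₀ z₀ hyY₁ (hd1 z₀ hz₀) p).1 j l).mul analyticAt_const
  have hG := V.griffiths p z₀ hy0 _ hsan hsF
  have hG2 : (fun i => deriv (fun w => (uexp (cm c.N) (w - z₀) *ᵥ
      (RW V (cm c.N) p z₀ w *ᵥ u)) i) z₀) = cm c.N *ᵥ u + Rp *ᵥ u := by
    funext i
    exact ((hasDerivAt_pi.1 hsd) i).deriv
  rw [hG2] at hG
  have hG3 : (S⁻¹ *ᵥ (cm c.N *ᵥ u + Rp *ᵥ u)) a = 0 := by
    by_contra hne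
    have := (E03_fl hS (p - 1) _).1 hG a hne
    omega
  have e1 : ∀ M : Matrix (Fin n) (Fin n) ℂ, (S⁻¹ *ᵥ (M *ᵥ u)) a = (S⁻¹ * M * S) a b := by
    intro M
    rw [hu, Matrix.mulVec_mulVec, Matrix.mulVec_mulVec, Matrix.mul_assoc, Matrix.mulVec_single_one]
    simp only [Matrix.mul_assoc, Matrix.col_apply]
  rw [Matrix.mulVec_add, Pi.add_apply, e1, e1] at hG3
  have hG4 : (S⁻¹ * cm c.N * S) a b = -(S⁻¹ * Rp * S) a b := eq_neg_of_add_eq_zero_left hG3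
  have e2 : (S⁻¹ * Rp * S) a b =
      ∑ j, (∑ i, S⁻¹ a i * deriv (fun y => RW V (cm c.N) p z₀ y i j) z₀) * S j b := by
    rw [Matrix.mul_apply]
    refine Finset.sum_congr rfl fun j _ => ?_
    rw [Matrix.mul_apply, hRp]
    rfl
  rw [hG4, norm_neg, e2]
  refine hper.trans ?_
  apply mul_le_mul_of_nonneg_left _ (by positivity)
  apply Real.exp_le_exp.2
  have h3 : δ * y ≤ Real.pi * (δ * y) := by
    have := Real.pi_gt_three
    nlinarith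
  linarith

end MP2794d1.BW
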