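import Pool.Agent.Lib.MP_2794d1_ag.BW.S1
import Pool.Agent.Lib.MP_2794d1_ag.BW.U7

/-!
F3: transversality in the chart: `trans_u n (kX V)` (U7) for the slices `exists_sliceZ` (S1), `kc_eq`.
-/

namespace MP2794d1.BW

open Matrix Complex Filter Topology MP2794d1 MP2794d1.AH
open scoped ContDiff Manifold

variable {n m k l : ℕ} {X G : Type} [TopologicalSpace X] [ChartedSpace (Fin m → ℂ) X]
  [IsManifold 𝓘(ℂ, Fin m → ℂ) ω X] [Group G] [MulAction G X]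

theorem chart_trans (V : MVHS n m X G) (C : BChart V k l) : ∃ ε C₀ Y : ℝ, 0 < ε ∧ 0 ≤ C₀ ∧ 1 ≤ Y ∧
    ∀ (z : ℂ) (u : Fin k → ℂ) (t : Fin l → ℂ), t ∈ C.B → (∀ j, 0 < (u j).im) → Y ≤ z.im →
      ∀ (S : Matrix (Fin n) (Fin n) ℂ) (d : Fin n → ℤ),
        Adapted V.wt V.Q (fun p => V.F p (C.c z u t)) S d →
          ∀ a b, d a + 2 ≤ d b → ‖(S⁻¹ * cm C.N * S) a b‖ ≤ C₀ * Real.exp (-(ε * z.im)) := by
  obtain ⟨ε, C₀, Y, hε, hC₀, hY, h⟩ := trans_u n (kX V)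
  refine ⟨ε, C₀, Y, hε, hC₀, hY, fun z u t ht hu hz S d hS a b hab => ?_⟩
  obtain ⟨W, c, hwt, hQ, hlo, hhi, hN, hF⟩ := exists_sliceZ V C u t hu ht
  have hS' : Adapted W.wt W.Q (fun p => W.F p z) S d := by
    have h1 : (fun p => W.F p z) = fun p => V.F p (C.c z u t) := funext fun p => hF p z
    rw [hwt, hQ, h1]
    exact hS
  have h2 := h W c (kc_eq V W hlo hhi) z hz S d hS' a b hab
  rw [hN] at h2
  exact h2

end MP2794d1.BW
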