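import Pool.Agent.Lib.MP_2794d1_ag.BW.F2
import Pool.Agent.Lib.MP_2794d1_ag.BW.F3
import Pool.Agent.Lib.MP_2794d1_ag.BW.A3
import Pool.Agent.Lib.MP_2794d1_ag.BW.A4
import Pool.Agent.Lib.MP_2794d1_ag.A06
import Pool.Agent.Lib.MP_2794d1_ag.U04
import Pool.Agent.Lib.MP_2794d1_ag.R01

/-!
A5: the commutation relations forced by a small complexity. Index set: all `(z, u, t, A, h, α, β)` with the conditions, `1 ≤ h`, `IsEnd V x A h`,
`α, β` eigenvalues. Entries of `A`: `A = S M S⁻¹`, entries of `M` at most `h` (`rosati_frob`), of `S, S⁻¹` at most `C₀ P ^ K` (F2),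
`P = z.im * ∏ j, (u j).im`; so at most `Hh = C h P ^ K'`. `XX_alg` (A4) and `AlgFam.lower` (A06): a non-zero entry of `XX` is at least
`1 / (C Hh ^ C)`; `XX_small` (A3) with `chart_trans` (F3) and F2: it is at most `C P ^ K h ^ (2 n) exp (-ε z.im)`. With
`h = exp (δ z.im)`, `P ≤ z.im * exp (δ z.im)` this is impossible for small `δ` and large `z.im` (`num`).
-/

namespace MP2794d1.BW

open Matrix Complex Filter Topology MP2794d1 MP2794d1.AH
open scoped ContDiff Manifold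

theorem num (ε c : ℝ) (M : ℕ) (hε : 0 < ε) (hc : 0 ≤ c) : ∃ δ Y : ℝ, 0 < δ ∧ 1 ≤ Y ∧ ∀ y : ℝ, Y < y →
    c * (Real.exp (δ * y) * (y * Real.exp (δ * y))) ^ M * Real.exp (-(ε * y)) < 1 := by
  obtain ⟨C, hC, hpe⟩ := R01_poly_exp M (half_pos hε)
  have hM : (0 : ℝ) < 4 * ((M : ℝ) + 1) := by positivity
  refine ⟨ε / (4 * ((M : ℝ) + 1)), max 1 (4 / ε * Real.log (c * C + 1)), by positivity,
    le_max_left _ _, fun y hy => ?_⟩
  have hy1 : 1 < y := lt_of_le_of_lt (le_max_left _ _) hy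
  have hy2 : 4 / ε * Real.log (c * C + 1) < y := lt_of_le_of_lt (le_max_right _ _) hy
  have hy0 : 0 < y := by linarith
  set δ : ℝ := ε / (4 * ((M : ℝ) + 1)) with hδ
  have e1 : (Real.exp (δ * y) * (y * Real.exp (δ * y))) ^ M = y ^ M * Real.exp (2 * M * (δ * y)) := by
    rw [show Real.exp (δ * y) * (y * Real.exp (δ * y)) = y * (Real.exp (δ * y) * Real.exp (δ * y)) by ring,
      mul_pow, ← Real.exp_add, ← Real.exp_nat_mul]
    congr 2
    ring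
  have h1 : 2 * M * (δ * y) ≤ ε / 2 * y := by
    have h2 : 2 * (M : ℝ) * δ ≤ ε / 2 := by
      rw [hδ]
      rw [mul_div_assoc', div_le_div_iff₀ hM (by norm_num)]
      nlinarith
    calc 2 * M * (δ * y) = 2 * M * δ * y := by ring
      _ ≤ ε / 2 * y := mul_le_mul_of_nonneg_right h2 hy0.le
  have h2 : Real.exp (2 * M * (δ * y)) * Real.exp (-(ε * y)) ≤ Real.exp (-(ε / 2 * y)) := by
    rw [← Real.exp_add]
    apply Real.exp_le_exp.2
    linarith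
  have h3 : c * (Real.exp (δ * y) * (y * Real.exp (δ * y))) ^ M * Real.exp (-(ε * y)) ≤
      c * C * Real.exp (-(ε / 2 / 2 * y)) := by
    rw [e1]
    calc c * (y ^ M * Real.exp (2 * M * (δ * y))) * Real.exp (-(ε * y))
        = c * y ^ M * (Real.exp (2 * M * (δ * y)) * Real.exp (-(ε * y))) := by ring
      _ ≤ c * y ^ M * Real.exp (-(ε / 2 * y)) := mul_le_mul_of_nonneg_left h2 (by positivity)
      _ = c * (y ^ M * Real.exp (-(ε / 2 * y))) := by ring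
      _ ≤ c * (C * Real.exp (-(ε / 2 / 2 * y))) :=
          mul_le_mul_of_nonneg_left (hpe y hy0.le) hc
      _ = _ := by ring
  refine lt_of_le_of_lt h3 ?_
  have h4 : 0 < c * C + 1 := by positivity
  have h5 : Real.log (c * C + 1) < ε / 2 / 2 * y := by
    have h6 : Real.log (c * C + 1) = ε / 4 * (4 / ε * Real.log (c * C + 1)) := by
      field_simp
    rw [h6]
    have h7 : ε / 2 / 2 * y = ε / 4 * y := by ring
    rw [h7]
    exact mul_lt_mul_of_pos_left hy2 (by positivity)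
  have h6 : c * C + 1 < Real.exp (ε / 2 / 2 * y) := by
    rw [← Real.log_lt_iff_lt_exp h4]
    exact h5
  rw [Real.exp_neg, ← div_eq_mul_inv, div_lt_one (Real.exp_pos _)]
  linarith

variable {n m k l : ℕ} {X G : Type} [TopologicalSpace X] [ChartedSpace (Fin m → ℂ) X]
  [IsManifold 𝓘(ℂ, Fin m → ℂ) ω X] [Group G] [MulAction G X]

/-- the index set -/
structure A5I (V : MVHS n m X G) (C : BChart V k l) (T : Set (Fin l → ℂ)) : Type where
  z : ℂ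
  u : Fin k → ℂ
  t : Fin l → ℂ
  A : Matrix (Fin n) (Fin n) ℤ
  h : ℝ
  a : ℂ
  b : ℂ
  ht : t ∈ T
  hre : |z.re| ≤ 1
  him : 1 ≤ z.im
  hu : ∀ j, |(u j).re| ≤ 1 ∧ 1 ≤ (u j).im
  hh : 1 ≤ h
  hA : IsEnd V (C.c z u t) A h
  ha : ∃ w : Fin n → ℂ, w ≠ 0 ∧ im A *ᵥ w = a • w
  hb : ∃ w : Fin n → ℂ, w ≠ 0 ∧ im A *ᵥ w = b • w

theorem A5_P {k : ℕ} {y : ℝ} {u : Fin k → ℂ} (hy : 1 ≤ y) (hu : ∀ j, |(u j).re| ≤ 1 ∧ 1 ≤ (u j).im) :
    1 ≤ y * ∏ j, (u j).im := by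
  have h1 : 1 ≤ ∏ j, (u j).im := by
    calc (1 : ℝ) = ∏ _j : Fin k, (1 : ℝ) := by simp
      _ ≤ ∏ j, (u j).im := Finset.prod_le_prod (fun _ _ => zero_le_one) fun j _ => (hu j).2
  nlinarith

/-- entries in an adapted basis -/
theorem A5_M (V : MVHS n m X G) {x : X} {A : Matrix (Fin n) (Fin n) ℤ} {h : ℝ} (hh : 1 ≤ h)
    (hA : IsEnd V x A h) {S : Matrix (Fin n) (Fin n) ℂ} {d : Fin n → ℤ}
    (hS : Adapted V.wt V.Q (fun p => V.F p x) S d) (a b : Fin n) : ‖(S⁻¹ * im A * S) a b‖ ≤ h := by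
  have h3 := hA.2.2
  rw [rosati_frob (V.phs x) hS A hA.2.1] at h3
  have b1 : Complex.normSq ((S⁻¹ * im A * S) a b) ≤
      ∑ a, ∑ b, Complex.normSq ((S⁻¹ * im A * S) a b) := by
    refine le_trans ?_ (Finset.single_le_sum (f := fun a => ∑ b,
      Complex.normSq ((S⁻¹ * im A * S) a b))
      (fun a _ => Finset.sum_nonneg fun b _ => Complex.normSq_nonneg _) (Finset.mem_univ a))
    exact Finset.single_le_sum (f := fun b => Complex.normSq ((S⁻¹ * im A * S) a b))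
      (fun b _ => Complex.normSq_nonneg _) (Finset.mem_univ b)
  rw [Complex.normSq_eq_norm_sq] at b1
  exact le_of_sq_le_sq (b1.trans h3) (by linarith)

/-- back to the standard basis -/
theorem A5_back {S : Matrix (Fin n) (Fin n) ℂ} (hS : IsUnit S.det) {Y : Matrix (Fin n) (Fin n) ℂ}
    {s r : ℝ} (hs : ∀ a b, ‖S a b‖ ≤ s ∧ ‖S⁻¹ a b‖ ≤ s) (hY : ∀ a b, ‖(S⁻¹ * Y * S) a b‖ ≤ r)
    (a b : Fin n) : ‖Y a b‖ ≤ n * (n * (s * r) * s) := by
  have h1 : Y = S * (S⁻¹ * Y * S) * S⁻¹ := by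
    calc Y = (S * S⁻¹) * Y * (S * S⁻¹) := by
          rw [Matrix.mul_nonsing_inv _ hS, Matrix.one_mul, Matrix.mul_one]
      _ = _ := by simp only [Matrix.mul_assoc]
  rw [h1]
  exact mul_entries (mul_entries (fun i j => (hs i j).1) hY) (fun i j => (hs i j).2) a b

theorem star (V : MVHS n m X G) (C : BChart V k l) (T : Set (Fin l → ℂ)) (hT : IsCompact T)
    (hTB : T ⊆ C.B) : ∃ δ Y : ℝ, 0 < δ ∧ 1 ≤ Y ∧ ∀ (z : ℂ) (u : Fin k → ℂ) (t : Fin l → ℂ), t ∈ T →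
      |z.re| ≤ 1 → Y < z.im → (∀ j, |(u j).re| ≤ 1 ∧ 1 ≤ (u j).im) →
      ∏ j, (u j).im ≤ Real.exp (δ * z.im) → ∀ A : Matrix (Fin n) (Fin n) ℤ,
        IsEnd V (C.c z u t) A (Real.exp (δ * z.im)) →
        ∀ (e : Fin n → ℂ) (P : Matrix (Fin n) (Fin n) ℂ) (q : Fin n → ℤ),
          CMBasis V.wt (fun p => V.F p (C.c z u t)) A e P q → ∀ i j, q i + 2 ≤ q j →
            XX A C.N (e i) (e j) = 0 := by
  obtain ⟨C₀, K, hC₀, hfr⟩ := chart_frame V C T hT hTB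
  obtain ⟨ε, C₂, Y₂, hε, hC₂, hY₂, htr⟩ := chart_trans V C
  obtain ⟨C₄, hC₄, hsm⟩ := XX_small n
  -- the bound of the entries of `A`
  obtain ⟨C₃, hC₃⟩ : ∃ C₃ : ℝ, C₃ = n * (n * (C₀ * 1) * C₀) + 1 := ⟨_, rfl⟩
  have hC₃1 : 1 ≤ C₃ := by
    rw [hC₃]
    have : 0 ≤ (n : ℝ) * (n * (C₀ * 1) * C₀) := by positivity
    linarith
  obtain ⟨Pf, hPf⟩ : ∃ Pf : A5I V C T → ℝ, Pf = fun i => i.z.im * ∏ j, (i.u j).im := ⟨_, rfl⟩
  have hP1 : ∀ i, 1 ≤ Pf i := by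
    intro i
    rw [hPf]
    exact A5_P i.him i.hu
  obtain ⟨Hh, hHh⟩ : ∃ Hh : A5I V C T → ℝ, Hh = fun i => C₃ * (i.h * Pf i) ^ (2 * K + 1) := ⟨_, rfl⟩
  have hhP : ∀ i, 1 ≤ i.h * Pf i := fun i => by
    have h1 := i.hh
    have h2 := hP1 i
    nlinarith
  have hH1 : ∀ i, 1 ≤ Hh i := by
    intro i
    rw [hHh]
    have h3 := one_le_pow₀ (hhP i) (n := 2 * K + 1)
    show 1 ≤ C₃ * (i.h * Pf i) ^ (2 * K + 1)
    nlinarith
  have hAe : ∀ i a b, |(i.A a b : ℝ)| ≤ Hh i := by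
    intro i a b
    obtain ⟨S, d, hS⟩ := exists_adapted (V.phs (C.c i.z i.u i.t))
    have h1 := A5_back hS.inv (hfr i.z i.u i.t i.ht i.hre i.him i.hu S d hS)
      (fun a b => A5_M V i.hh i.hA hS a b) a b
    have h2 : ‖im i.A a b‖ = |(i.A a b : ℝ)| := by simp [im]
    rw [h2] at h1
    refine h1.trans ?_
    have h3 : i.z.im * ∏ j, (i.u j).im = Pf i := by rw [hPf]
    rw [h3, hHh]
    show (n : ℝ) * (n * (C₀ * Pf i ^ K * i.h) * (C₀ * Pf i ^ K)) ≤ C₃ * (i.h * Pf i) ^ (2 * K + 1)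
    have h4 : (0 : ℝ) ≤ Pf i := by linarith [hP1 i]
    have h5 : (0 : ℝ) ≤ i.h := by linarith [i.hh]
    have h6 : Pf i ^ (2 * K) * i.h ≤ (i.h * Pf i) ^ (2 * K + 1) := by
      have h7 : Pf i ≤ i.h * Pf i := by nlinarith [i.hh]
      have h8 : i.h ≤ i.h * Pf i := by nlinarith [hP1 i]
      calc Pf i ^ (2 * K) * i.h ≤ (i.h * Pf i) ^ (2 * K) * (i.h * Pf i) :=
            mul_le_mul (pow_le_pow_left₀ h4 h7 _) h8 h5 (by positivity)
        _ = _ := by ring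
    calc (n : ℝ) * (n * (C₀ * Pf i ^ K * i.h) * (C₀ * Pf i ^ K))
        = (n * (n * (C₀ * 1) * C₀)) * (Pf i ^ (2 * K) * i.h) := by ring
      _ ≤ (n * (n * (C₀ * 1) * C₀)) * (i.h * Pf i) ^ (2 * K + 1) :=
          mul_le_mul_of_nonneg_left h6 (by positivity)
      _ ≤ C₃ * (i.h * Pf i) ^ (2 * K + 1) := by
          apply mul_le_mul_of_nonneg_right _ (by positivity)
          rw [hC₃]
          linarith
  -- Liouville
  have hlow : ∀ ab : Fin n × Fin n, ∃ c : ℕ, 0 < c ∧ ∀ i : A5I V C T,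
      XX i.A C.N i.a i.b ab.1 ab.2 ≠ 0 →
        1 ≤ c * Hh i ^ c * ‖XX i.A C.N i.a i.b ab.1 ab.2‖ := fun ab =>
    AlgFam.lower hH1 (XX_alg hH1 (fun i => i.A) hAe (fun i => i.a) (fun i => i.b)
      (fun i => i.ha) (fun i => i.hb) C.N ab.1 ab.2)
  choose cf hcf0 hcf using hlow
  obtain ⟨Cm, hCm⟩ : ∃ Cm : ℕ, Cm = ∑ ab, cf ab := ⟨_, rfl⟩
  have hCm' : ∀ ab, cf ab ≤ Cm := fun ab => by
    rw [hCm]
    exact Finset.single_le_sum (f := cf) (fun _ _ => Nat.zero_le _) (Finset.mem_univ ab)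
  obtain ⟨δ, Y, hδ, hY, hnum⟩ := num ε (Cm * C₃ ^ Cm * (n * (n * (C₀ * (C₄ * C₂)) * C₀)))
    ((2 * K + 1) * Cm + (2 * K + 2 * n)) hε (by positivity)
  refine ⟨δ, max Y Y₂, hδ, le_trans hY (le_max_left _ _), ?_⟩
  intro z u t ht hre him hu hprod A hA e P q hP i j hij
  have hyY : Y < z.im := lt_of_le_of_lt (le_max_left _ _) him
  have hyY₂ : Y₂ < z.im := lt_of_le_of_lt (le_max_right _ _) him
  have hy1 : 1 ≤ z.im := by linarith
  have hy0 : 0 < z.im := by linarith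
  have hh1 : 1 ≤ Real.exp (δ * z.im) := Real.one_le_exp (by positivity)
  have heig : ∀ j, ∃ w : Fin n → ℂ, w ≠ 0 ∧ im A *ᵥ w = e j • w := by
    intro j
    refine ⟨P *ᵥ Pi.single j 1, ?_, ?_⟩
    · intro h0
      have h1 : P⁻¹ *ᵥ (P *ᵥ Pi.single j (1 : ℂ)) = 0 := by rw [h0, Matrix.mulVec_zero]
      rw [Matrix.mulVec_mulVec, Matrix.nonsing_inv_mul _ hP.inv, Matrix.one_mulVec] at h1
      have h2 := congrFun h1 j
      rw [Pi.single_eq_same] at h2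
      exact one_ne_zero h2
    · rw [Matrix.mulVec_mulVec, hP.eig, ← Matrix.mulVec_mulVec]
      have h1 : Matrix.diagonal e *ᵥ Pi.single j (1 : ℂ) = e j • Pi.single j (1 : ℂ) := by
        ext i
        rw [Matrix.mulVec_diagonal, Pi.smul_apply, smul_eq_mul]
        by_cases hij : i = j
        · subst hij
          rfl
        · rw [Pi.single_eq_of_ne hij, mul_zero, mul_zero]
      rw [h1, Matrix.mulVec_smul]
  let ι : A5I V C T := ⟨z, u, t, A, Real.exp (δ * z.im), e i, e j, ht, hre, hy1, hu, hh1, hA,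
    heig i, heig j⟩
  by_contra hne
  obtain ⟨a, b, hab⟩ : ∃ a b, XX A C.N (e i) (e j) a b ≠ 0 := by
    by_contra hcon
    push Not at hcon
    exact hne (by ext a b; exact hcon a b)
  have h1 := hcf (a, b) ι hab
  obtain ⟨S, d, hS⟩ := exists_adapted (V.phs (C.c z u t))
  have h2 := hsm hP hS (Real.exp (δ * z.im)) hh1 (fun a b => A5_M V hh1 hA hS a b) C.N
    (C₂ * Real.exp (-(ε * z.im))) (by positivity)
    (fun a b hab => htr z u t (hTB ht) (fun j => by linarith [(hu j).2]) hyY₂.le S d hS a b hab) i j hij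
  have h3 := A5_back hS.inv (hfr z u t ht hre hy1 hu S d hS) h2 a b
  obtain ⟨h, hh⟩ : ∃ h, h = Real.exp (δ * z.im) := ⟨_, rfl⟩
  obtain ⟨p, hp⟩ : ∃ p, p = z.im * ∏ j, (u j).im := ⟨_, rfl⟩
  have hp1 : 1 ≤ p := by
    rw [hp]
    exact A5_P hy1 hu
  have hhp1 : 1 ≤ h * p := by
    rw [hh]
    nlinarith
  rw [← hh, ← hp] at h3
  have hHι : Hh ι = C₃ * (h * p) ^ (2 * K + 1) := by
    rw [hHh]
    show C₃ * (Real.exp (δ * z.im) * Pf ι) ^ (2 * K + 1) = _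
    rw [hPf, hh, hp]
  have h4 : (cf (a, b) : ℝ) * Hh ι ^ cf (a, b) ≤ Cm * Hh ι ^ Cm := by
    have h5 : (cf (a, b) : ℝ) ≤ Cm := by exact_mod_cast hCm' (a, b)
    exact mul_le_mul h5 (pow_le_pow_right₀ (hH1 ι) (hCm' (a, b)))
      (pow_nonneg (by linarith [hH1 ι]) _) (by positivity)
  have h5 : (1 : ℝ) ≤ Cm * Hh ι ^ Cm * (n * (n * (C₀ * p ^ K * (C₄ * h ^ (2 * n) *
      (C₂ * Real.exp (-(ε * z.im))))) * (C₀ * p ^ K))) := by
    refine h1.trans ?_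
    have h6 : (0 : ℝ) ≤ Cm * Hh ι ^ Cm :=
      mul_nonneg (Nat.cast_nonneg _) (pow_nonneg (by linarith [hH1 ι]) _)
    exact mul_le_mul h4 h3 (norm_nonneg _) h6
  have hp0 : 0 ≤ p := by linarith
  have hh0 : 0 ≤ h := by
    rw [hh]
    positivity
  have h6 : (1 : ℝ) ≤ (Cm * C₃ ^ Cm * (n * (n * (C₀ * (C₄ * C₂)) * C₀))) *
      (h * p) ^ ((2 * K + 1) * Cm + (2 * K + 2 * n)) * Real.exp (-(ε * z.im)) := by
    refine h5.trans ?_
    rw [hHι]
    have h7 : p ^ (2 * K) * h ^ (2 * n) ≤ (h * p) ^ (2 * K + 2 * n) := by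
      have h8 : p ≤ h * p := by
        rw [hh]
        nlinarith
      have h9 : h ≤ h * p := by nlinarith
      calc p ^ (2 * K) * h ^ (2 * n) ≤ (h * p) ^ (2 * K) * (h * p) ^ (2 * n) :=
            mul_le_mul (pow_le_pow_left₀ hp0 h8 _) (pow_le_pow_left₀ hh0 h9 _) (by positivity)
              (by positivity)
        _ = _ := by rw [← pow_add]
    calc (Cm : ℝ) * (C₃ * (h * p) ^ (2 * K + 1)) ^ Cm * (n * (n * (C₀ * p ^ K * (C₄ * h ^ (2 * n) *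
          (C₂ * Real.exp (-(ε * z.im))))) * (C₀ * p ^ K)))
        = (Cm * C₃ ^ Cm * (n * (n * (C₀ * (C₄ * C₂)) * C₀))) * (h * p) ^ ((2 * K + 1) * Cm) *
          (p ^ (2 * K) * h ^ (2 * n)) * Real.exp (-(ε * z.im)) := by
          rw [mul_pow, ← pow_mul]
          ring
      _ ≤ (Cm * C₃ ^ Cm * (n * (n * (C₀ * (C₄ * C₂)) * C₀))) * (h * p) ^ ((2 * K + 1) * Cm) *
          (h * p) ^ (2 * K + 2 * n) * Real.exp (-(ε * z.im)) := by
          apply mul_le_mul_of_nonneg_right _ (Real.exp_pos _).le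
          exact mul_le_mul_of_nonneg_left h7 (by positivity)
      _ = _ := by
          rw [pow_add (h * p) ((2 * K + 1) * Cm)]
          ring
  have h7 := hnum z.im hyY
  have h8 : h * p ≤ Real.exp (δ * z.im) * (z.im * Real.exp (δ * z.im)) := by
    rw [hh, hp]
    exact mul_le_mul_of_nonneg_left (mul_le_mul_of_nonneg_left hprod hy0.le) (Real.exp_pos _).le
  have h9 : (Cm * C₃ ^ Cm * (n * (n * (C₀ * (C₄ * C₂)) * C₀))) *
      (h * p) ^ ((2 * K + 1) * Cm + (2 * K + 2 * n)) * Real.exp (-(ε * z.im)) ≤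
      (Cm * C₃ ^ Cm * (n * (n * (C₀ * (C₄ * C₂)) * C₀))) *
      (Real.exp (δ * z.im) * (z.im * Real.exp (δ * z.im))) ^ ((2 * K + 1) * Cm + (2 * K + 2 * n)) *
      Real.exp (-(ε * z.im)) := by
    apply mul_le_mul_of_nonneg_right _ (Real.exp_pos _).le
    exact mul_le_mul_of_nonneg_left (pow_le_pow_left₀ (by linarith) h8 _) (by positivity)
  linarith

end MP2794d1.BW
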