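import Pool.Agent.Lib.MP_2794d1_ag.BW.Defs
import Pool.Agent.Lib.MP_2794d1_ag.E03
import Pool.Agent.Lib.MP_2794d1_ag.AH.A16
import Pool.Agent.Lib.MP_2794d1_ag.K03

/-!
# CM points near the boundary: auxiliary definitions
-/

namespace MP2794d1.BW

open Matrix Complex Filter Topology MP2794d1.AH
open scoped ContDiff Manifold

/-- the product of the three matrices `adj (a - A)`, `N`, `adj (b - A)` -/
noncomputable def XX {n : ℕ} (A : Matrix (Fin n) (Fin n) ℤ) (N : Matrix (Fin n) (Fin n) ℚ) (a b : ℂ) :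
    Matrix (Fin n) (Fin n) ℂ :=
  (a • (1 : Matrix (Fin n) (Fin n) ℂ) - im A).adjugate * cm N *
    (b • (1 : Matrix (Fin n) (Fin n) ℂ) - im A).adjugate

/-- the columns of `P` are eigenvectors of `A`, for the distinct eigenvalues `e j`, and of Hodge type `(q j, wt - q j)` -/
structure CMBasis {n : ℕ} (wt : ℤ) (Fl : ℤ → Submodule ℂ (Fin n → ℂ)) (A : Matrix (Fin n) (Fin n) ℤ)
    (e : Fin n → ℂ) (P : Matrix (Fin n) (Fin n) ℂ) (q : Fin n → ℤ) : Prop where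
  inj : Function.Injective e
  inv : IsUnit P.det
  eig : im A * P = P * Matrix.diagonal e
  fl : ∀ (p : ℤ) (x : Fin n → ℂ), x ∈ Fl p ↔ ∀ j, (P⁻¹ *ᵥ x) j ≠ 0 → p ≤ q j
  cfl : ∀ (p : ℤ) (x : Fin n → ℂ), x ∈ conjSub (Fl p) ↔ ∀ j, (P⁻¹ *ᵥ x) j ≠ 0 → q j ≤ wt - p

/-- the constant of the Bochner inequality (`kc`), for a variation over `X` -/
noncomputable def kX {n m : ℕ} {X G : Type} [TopologicalSpace X] [ChartedSpace (Fin m → ℂ) X] [Group G]
    [MulAction G X] (V : MVHS n m X G) : ℝ :=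
  1 / ((n : ℝ) * (|(V.lo : ℝ)| + |(V.hi : ℝ)|) ^ 2 + 1)

theorem kc_eq {n m : ℕ} {X G : Type} [TopologicalSpace X] [ChartedSpace (Fin m → ℂ) X] [Group G]
    [MulAction G X] (V : MVHS n m X G) (W : PolVHS n) (hlo : W.lo = V.lo) (hhi : W.hi = V.hi) :
    kc W = kX V := by
  unfold kc kX
  rw [hlo, hhi]

end MP2794d1.BW
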