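import Pool.Agent.Lib.MP_2794d1_ag.BW.A1
import Pool.Agent.Lib.MP_2794d1_ag.BW.A2

/-!
B1: conjugation. `XX_pair`: the entries of `XX A N a b` are values at `![a, b]` of polynomials with rational coefficients:
`XX` over `MvPolynomial (Fin 2) ℚ`, `RingHom.map_adjugate`. `XX_conj`: `A` and `N` are real, complex conjugation is a ring homomorphism.
`XX_all`: `star`-type relations for `q i + 2 ≤ q j` give those for `q j + 2 ≤ q i`, by `CMBasis.conj` (A1).
-/

namespace MP2794d1.BW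

open Matrix Complex Filter Topology MP2794d1 MP2794d1.AH
open scoped ContDiff Manifold

private noncomputable def B1_XXp {n : ℕ} (A : Matrix (Fin n) (Fin n) ℤ) (N : Matrix (Fin n) (Fin n) ℚ) :
    Matrix (Fin n) (Fin n) (MvPolynomial (Fin 2) ℚ) :=
  ((MvPolynomial.X 0 : MvPolynomial (Fin 2) ℚ) • (1 : Matrix (Fin n) (Fin n) (MvPolynomial (Fin 2) ℚ)) -
      A.map (fun q : ℤ => (q : MvPolynomial (Fin 2) ℚ))).adjugate *
    N.map (fun q : ℚ => MvPolynomial.C q) *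
    ((MvPolynomial.X 1 : MvPolynomial (Fin 2) ℚ) • (1 : Matrix (Fin n) (Fin n) (MvPolynomial (Fin 2) ℚ)) -
      A.map (fun q : ℤ => (q : MvPolynomial (Fin 2) ℚ))).adjugate

private theorem B1_map {n : ℕ} (A : Matrix (Fin n) (Fin n) ℤ) (N : Matrix (Fin n) (Fin n) ℚ) (a b : ℂ) :
    (MvPolynomial.aeval ![a, b] : MvPolynomial (Fin 2) ℚ →ₐ[ℚ] ℂ).toRingHom.mapMatrix (B1_XXp A N) =
      XX A N a b := by
  unfold B1_XXp XX
  rw [map_mul, map_mul, RingHom.map_adjugate, RingHom.map_adjugate, map_sub, map_sub]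
  have h1 : ∀ (i : Fin 2) (c : ℂ), (MvPolynomial.aeval ![a, b] : MvPolynomial (Fin 2) ℚ →ₐ[ℚ] ℂ)
      (MvPolynomial.X i) = c →
      (MvPolynomial.aeval ![a, b] : MvPolynomial (Fin 2) ℚ →ₐ[ℚ] ℂ).toRingHom.mapMatrix
        ((MvPolynomial.X i : MvPolynomial (Fin 2) ℚ) •
          (1 : Matrix (Fin n) (Fin n) (MvPolynomial (Fin 2) ℚ))) =
        c • (1 : Matrix (Fin n) (Fin n) ℂ) := by
    intro i c hc
    ext k l
    rw [RingHom.mapMatrix_apply, Matrix.map_apply, Matrix.smul_apply, Matrix.smul_apply, smul_eq_mul,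
      smul_eq_mul, map_mul]
    by_cases hkl : k = l
    · subst hkl
      rw [Matrix.one_apply_eq, Matrix.one_apply_eq, map_one]
      exact congrArg (· * (1 : ℂ)) hc
    · rw [Matrix.one_apply_ne hkl, Matrix.one_apply_ne hkl, map_zero, mul_zero, mul_zero]
  have h2 : (MvPolynomial.aeval ![a, b] : MvPolynomial (Fin 2) ℚ →ₐ[ℚ] ℂ).toRingHom.mapMatrix
      (A.map (fun q : ℤ => (q : MvPolynomial (Fin 2) ℚ))) = im A := by
    ext k l
    rw [RingHom.mapMatrix_apply, Matrix.map_apply, Matrix.map_apply, map_intCast]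
    rfl
  have h3 : (MvPolynomial.aeval ![a, b] : MvPolynomial (Fin 2) ℚ →ₐ[ℚ] ℂ).toRingHom.mapMatrix
      (N.map (fun q : ℚ => (MvPolynomial.C q : MvPolynomial (Fin 2) ℚ))) = cm N := by
    ext k l
    rw [RingHom.mapMatrix_apply, Matrix.map_apply, Matrix.map_apply]
    have h4 : (MvPolynomial.aeval ![a, b] : MvPolynomial (Fin 2) ℚ →ₐ[ℚ] ℂ) (MvPolynomial.C (N k l)) =
        algebraMap ℚ ℂ (N k l) := MvPolynomial.aeval_C _ _
    exact h4
  rw [h1 0 a (by rw [MvPolynomial.aeval_X]; rfl), h1 1 b (by rw [MvPolynomial.aeval_X]; rfl), h2, h3]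

theorem XX_pair {n : ℕ} (A : Matrix (Fin n) (Fin n) ℤ) (N : Matrix (Fin n) (Fin n) ℚ) (a b a' b' : ℂ)
    (h : PairConj a b a' b') (h0 : XX A N a b = 0) : XX A N a' b' = 0 := by
  rw [← B1_map] at h0 ⊢
  ext i j
  have h1 := congrFun (congrFun h0 i) j
  have h2 : (MvPolynomial.aeval ![a, b] : MvPolynomial (Fin 2) ℚ →ₐ[ℚ] ℂ) (B1_XXp A N i j) = 0 := h1
  exact (h _).mp h2

theorem PairConj.symm {a b a' b' : ℂ} (h : PairConj a b a' b') : PairConj a' b' a b := fun g => (h g).symm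

theorem XX_conj {n : ℕ} (A : Matrix (Fin n) (Fin n) ℤ) (N : Matrix (Fin n) (Fin n) ℚ) (a b : ℂ) :
    XX A N ((starRingEnd ℂ) a) ((starRingEnd ℂ) b) = mconj (XX A N a b) := by
  have h0 : mconj (XX A N a b) = (starRingEnd ℂ).mapMatrix (XX A N a b) := rfl
  rw [h0]
  unfold XX
  rw [map_mul, map_mul, RingHom.map_adjugate, RingHom.map_adjugate, map_sub, map_sub]
  have h1 : ∀ c : ℂ, (starRingEnd ℂ).mapMatrix (c • (1 : Matrix (Fin n) (Fin n) ℂ)) =
      (starRingEnd ℂ) c • (1 : Matrix (Fin n) (Fin n) ℂ) := by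
    intro c
    ext k l
    rw [RingHom.mapMatrix_apply, Matrix.map_apply, Matrix.smul_apply, Matrix.smul_apply, smul_eq_mul,
      smul_eq_mul, map_mul]
    by_cases hkl : k = l
    · subst hkl
      rw [Matrix.one_apply_eq, map_one]
    · rw [Matrix.one_apply_ne hkl, map_zero]
  have h2 : (starRingEnd ℂ).mapMatrix (im A) = im A := U01_mconj_im A
  have h3 : (starRingEnd ℂ).mapMatrix (cm N) = cm N := by
    ext i j
    simp [cm]
  rw [h1, h1, h2, h3]

theorem XX_all {n : ℕ} {wt : ℤ} {Fl : ℤ → Submodule ℂ (Fin n → ℂ)}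
    {A : Matrix (Fin n) (Fin n) ℤ} {e : Fin n → ℂ} {P : Matrix (Fin n) (Fin n) ℂ} {q : Fin n → ℤ}
    (hP : CMBasis wt Fl A e P q) (N : Matrix (Fin n) (Fin n) ℚ)
    (h : ∀ i j, q i + 2 ≤ q j → XX A N (e i) (e j) = 0) (i j : Fin n) (hij : 2 ≤ |q i - q j|) :
    XX A N (e i) (e j) = 0 := by
  rcases le_abs.mp hij with h1 | h1
  · obtain ⟨i', hi1, hi2⟩ := hP.conj i
    obtain ⟨j', hj1, hj2⟩ := hP.conj j
    have h2 := h i' j' (by omega)
    rw [hi1, hj1, XX_conj] at h2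
    rw [← E03_mconj_mconj (XX A N (e i) (e j)), h2]
    ext k l
    simp [mconj]
  · exact h i j (by omega)

end MP2794d1.BW
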