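import Pool.Agent.Lib.MP_2794d1_ag.BW.B1

/-!
B2: `not_wide`: if `x` is wide, all off-diagonal `XX` vanish (`XX_all`, `XX_pair`, `CMBasis.lev`), so `N = 0` (`nil_zero`).
`weyl_numbers`: `N ≠ 0`, so `XX A N (e i) (e j) ≠ 0` for some `i ≠ j` (`nil_zero`). If `e j = conj (e i)`, all pairs `(a, conj a)` are conjugate to it,
so `|q a - (wt - q a)| ≤ 1` for all `a`. Otherwise `|q a - q b| ≤ 1` for all `b ≠ a, conj a`; with `conj b` too: `|q a - (wt - q b)| ≤ 1`, so
`|2 q a - wt| ≤ 2`, and if `2 q a = wt + 2` then `q b = wt / 2`; if there is no such `b` then `n ≤ 2`, impossible in this case.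
-/

namespace MP2794d1.BW

open Matrix Complex Filter Topology MP2794d1 MP2794d1.AH
open scoped ContDiff Manifold

variable {n m k l : ℕ} {X G : Type} [TopologicalSpace X] [ChartedSpace (Fin m → ℂ) X]
  [IsManifold 𝓘(ℂ, Fin m → ℂ) ω X] [Group G] [MulAction G X]

theorem not_wide (V : MVHS n m X G) (x : X) (A : Matrix (Fin n) (Fin n) ℤ) {e : Fin n → ℂ}
    {P : Matrix (Fin n) (Fin n) ℂ} {q : Fin n → ℤ} (hP : CMBasis V.wt (fun p => V.F p x) A e P q)
    (N : Matrix (Fin n) (Fin n) ℚ) (hN : N ^ n = 0) (hN0 : N ≠ 0)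
    (h : ∀ i j, q i + 2 ≤ q j → XX A N (e i) (e j) = 0) : ¬ IsWide V x A := by
  intro hw
  refine hN0 (nil_zero hP N hN fun i j hij => ?_)
  obtain ⟨a', b', p, p', hc, ⟨v, hv0, hv, hv1, hv2⟩, ⟨w, hw0, hw', hw1, hw2⟩, hpp⟩ :=
    hw (e i) (e j) ((hP.eig_iff _).2 ⟨i, rfl⟩) ((hP.eig_iff _).2 ⟨j, rfl⟩) fun h => hij (hP.inj h)
  obtain ⟨i', hi', hqi⟩ := hP.lev a' v hv0 hv p hv1 hv2
  obtain ⟨j', hj', hqj⟩ := hP.lev b' w hw0 hw' p' hw1 hw2
  have h0 : XX A N (e i') (e j') = 0 := XX_all hP N h i' j' (by rw [hqi, hqj]; exact hpp)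
  rw [hi', hj'] at h0
  exact XX_pair A N a' b' (e i) (e j) hc.symm h0

theorem weyl_numbers {n : ℕ} {wt : ℤ} {Fl : ℤ → Submodule ℂ (Fin n → ℂ)}
    {A : Matrix (Fin n) (Fin n) ℤ} {e : Fin n → ℂ} {P : Matrix (Fin n) (Fin n) ℂ} {q : Fin n → ℤ}
    (hP : CMBasis wt Fl A e P q) (N : Matrix (Fin n) (Fin n) ℚ)
    (hN : N ^ n = 0) (hN0 : N ≠ 0) (h : ∀ i j, q i + 2 ≤ q j → XX A N (e i) (e j) = 0) (hA : IsWeyl A) :
    (∀ i, 2 * q i ≤ wt + 2) ∧ ∀ i j, 2 * q i = wt + 2 → 2 * q j = wt + 2 → i = j := by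
  obtain ⟨hA1, hA2⟩ := hA
  have hex : ∃ i j, i ≠ j ∧ XX A N (e i) (e j) ≠ 0 := by
    by_contra hcon
    push Not at hcon
    exact hN0 (nil_zero hP N hN hcon)
  obtain ⟨i, j, hij, hX⟩ := hex
  have heig : ∀ a, Eig A (e a) := fun a => (hP.eig_iff _).2 ⟨a, rfl⟩
  choose c hc hqc using hP.conj
  have hcc : ∀ z : ℂ, (starRingEnd ℂ) ((starRingEnd ℂ) z) = z := fun z => Complex.conj_conj z
  have hsmall : ∀ a b, XX A N (e a) (e b) ≠ 0 → |q a - q b| ≤ 1 := by
    intro a b hab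
    by_contra hcon
    exact hab (XX_all hP N h a b (by omega))
  by_cases hj : e j = (starRingEnd ℂ) (e i)
  · have hall : ∀ a, |q a - (wt - q a)| ≤ 1 := by
      intro a
      rw [← hqc a]
      refine hsmall a (c a) fun h0 => hX ?_
      rw [hc a] at h0
      rw [hj]
      exact XX_pair A N _ _ _ _ (hA2 (e a) (e i) (heig a) (heig i)) h0
    have hall2 : ∀ a, 2 * q a ≤ wt + 1 := by
      intro a
      have h1 := (abs_le.1 (hall a)).2
      omega
    refine ⟨fun a => ?_, fun a b ha _ => ?_⟩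
    · have := hall2 a
      omega
    · have := hall2 a
      omega
  · have hne : e j ≠ e i := fun h => hij (hP.inj h).symm
    have hgen : ∀ a b, e b ≠ e a → e b ≠ (starRingEnd ℂ) (e a) → |q a - q b| ≤ 1 := by
      intro a b h1 h2
      refine hsmall a b fun h0 => hX ?_
      exact XX_pair A N _ _ _ _ (hA1 (e a) (e b) (e i) (e j) (heig a) (heig b) (heig i) (heig j) h1 h2 hne hj) h0
    have hgen2 : ∀ a b, e b ≠ e a → e b ≠ (starRingEnd ℂ) (e a) → |q a - q b| ≤ 1 ∧ |q a - (wt - q b)| ≤ 1 := by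
      intro a b h1 h2
      refine ⟨hgen a b h1 h2, ?_⟩
      rw [← hqc b]
      refine hgen a (c b) ?_ ?_
      · rw [hc b]
        intro h3
        apply h2
        rw [← h3, hcc]
      · rw [hc b]
        intro h3
        apply h1
        rw [← hcc (e b), h3, hcc]
    have hb : ∀ a, ∃ b, e b ≠ e a ∧ e b ≠ (starRingEnd ℂ) (e a) := by
      intro a
      by_contra hcon
      push Not at hcon
      by_cases hi : e i = e a
      · have h1 := hcon j (by rw [← hi]; exact hne)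
        rw [← hi] at h1
        exact hj h1
      · have h1 := hcon i hi
        by_cases hja : e j = e a
        · apply hj
          rw [h1, hcc, hja]
        · have h2 := hcon j hja
          exact hne (h2.trans h1.symm)
    refine ⟨fun a => ?_, fun a b ha hb' => ?_⟩
    · obtain ⟨b, h1, h2⟩ := hb a
      obtain ⟨h3, h4⟩ := hgen2 a b h1 h2
      rw [abs_le] at h3 h4
      omega
    · by_contra hab
      have h1 : e b ≠ e a := fun h => hab (hP.inj h).symm
      by_cases h2 : e b = (starRingEnd ℂ) (e a)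
      · have h3 : c a = b := hP.inj ((hc a).trans h2.symm)
        have h4 := hqc a
        rw [h3] at h4
        omega
      · obtain ⟨h3, h4⟩ := hgen2 a b h1 h2
        rw [abs_le] at h3 h4
        omega

end MP2794d1.BW
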