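import Pool.Agent.Lib.MP_2794d1_ag.BW.ADefs
import Pool.Agent.Lib.MP_2794d1_ag.AH.B05

/-!
B3: Hodge numbers. `numbers_of_q`: `x ∈ Fl p` iff `(P⁻¹ x) j ≠ 0 → p ≤ q j`. `rank_const`: as `rk_const` (AH/B05), for all `p`.
-/

namespace MP2794d1.BW

open Matrix Complex Filter Topology MP2794d1 MP2794d1.AH
open scoped ContDiff Manifold

private theorem B3_back {n : ℕ} {P : Matrix (Fin n) (Fin n) ℂ} (hP : IsUnit P.det)
    (x : Fin n → ℂ) : P *ᵥ (P⁻¹ *ᵥ x) = x := by
  rw [Matrix.mulVec_mulVec, Matrix.mul_nonsing_inv P hP, Matrix.one_mulVec]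

theorem numbers_of_q {n : ℕ} {wt : ℤ} {Fl : ℤ → Submodule ℂ (Fin n → ℂ)}
    {A : Matrix (Fin n) (Fin n) ℤ} {e : Fin n → ℂ} {P : Matrix (Fin n) (Fin n) ℂ} {q : Fin n → ℤ}
    (hP : CMBasis wt Fl A e P q) (h1 : ∀ i, 2 * q i ≤ wt + 2)
    (h2 : ∀ i j, 2 * q i = wt + 2 → 2 * q j = wt + 2 → i = j) :
    (∀ p, wt + 2 < 2 * p → Fl p = ⊥) ∧ ∀ p, wt + 2 = 2 * p → Module.finrank ℂ (Fl p) ≤ 1 := by
  constructor
  · intro p hp
    rw [Submodule.eq_bot_iff]
    intro x hx
    have h3 := (hP.fl p x).1 hx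
    have h4 : P⁻¹ *ᵥ x = 0 := by
      funext j
      by_contra hj
      have h5 := h3 j hj
      have h6 := h1 j
      omega
    rw [← B3_back hP.inv x, h4, Matrix.mulVec_zero]
  · intro p hp
    have key : ∃ v : Fin n → ℂ, Fl p ≤ Submodule.span ℂ {v} := by
      by_cases hex : ∃ i, 2 * q i = wt + 2
      · obtain ⟨i, hi⟩ := hex
        refine ⟨P *ᵥ (Pi.single i 1), fun x hx => ?_⟩
        have h3 := (hP.fl p x).1 hx
        rw [Submodule.mem_span_singleton]
        refine ⟨(P⁻¹ *ᵥ x) i, ?_⟩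
        rw [← Matrix.mulVec_smul]
        have h4 : (P⁻¹ *ᵥ x) i • (Pi.single i 1 : Fin n → ℂ) = P⁻¹ *ᵥ x := by
          funext j
          by_cases hj : j = i
          · subst hj
            simp
          · have h5 : (P⁻¹ *ᵥ x) j = 0 := by
              by_contra hne
              have h6 := h3 j hne
              have h7 := h1 j
              exact hj (h2 j i (by omega) hi)
            rw [h5, Pi.smul_apply, Pi.single_eq_of_ne hj, smul_zero]
        rw [h4]
        exact B3_back hP.inv x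
      · refine ⟨0, fun x hx => ?_⟩
        have h3 := (hP.fl p x).1 hx
        have h4 : P⁻¹ *ᵥ x = 0 := by
          funext j
          by_contra hj
          have h5 := h3 j hj
          have h6 := h1 j
          exact hex ⟨j, by omega⟩
        rw [← B3_back hP.inv x, h4, Matrix.mulVec_zero]
        exact Submodule.zero_mem _
    obtain ⟨v, hv⟩ := key
    refine (Submodule.finrank_mono hv).trans ?_
    refine (finrank_span_le_card ({v} : Set (Fin n → ℂ))).trans ?_
    simp

theorem rank_const {n m : ℕ} {X G : Type} [TopologicalSpace X] [ChartedSpace (Fin m → ℂ) X]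
    [IsManifold 𝓘(ℂ, Fin m → ℂ) ω X] [ConnectedSpace X] [Group G] [MulAction G X] (V : MVHS n m X G)
    (p : ℤ) (x y : X) : Module.finrank ℂ (V.F p x) = Module.finrank ℂ (V.F p y) := by
  have hf : IsLocallyConstant (fun y : X => Module.finrank ℂ (V.F p y)) := by
    rw [IsLocallyConstant.iff_eventually_eq]
    intro y
    obtain ⟨r, W, -, hev⟩ := V.hol p y
    have h0 := hev.self_of_nhds
    filter_upwards [hev] with u hu
    rw [hu.2, PC.CP3_rank _ hu.1, h0.2, PC.CP3_rank _ h0.1]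
  exact hf.apply_eq_of_preconnectedSpace x y

end MP2794d1.BW
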