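import Pool.Agent.Lib.MP_2794d1_ag.BW.ADefs
import Pool.Agent.Lib.MP_2794d1_ag.E07
import Pool.Agent.Lib.MP_2794d1_ag.J01
import Pool.Agent.Lib.MP_2794d1_ag.S01
import Pool.Agent.Lib.MP_2794d1_ag.U01

/-!
C1: the elements of `gMT V` are infinitesimal similitudes of `Q`: the rational matrices `B` with `Bᵀ Q + Q B = c Q` for some `c` form a Lie
algebra, whose complexification contains the gradings `μ`: `μᵀ Q + Q μ = wt Q` (`E07`: `Skew.gr` or `e07_gr`), `μ - wt / 2` is skew, and a complex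
skew matrix is a complex combination of rational ones (`X ↦ X - Q⁻¹ Xᵀ Q` is a projection, up to the factor `2`, defined over `ℚ`, onto the skew
matrices).
-/

namespace MP2794d1.BW

open Matrix Complex Filter Topology MP2794d1 MP2794d1.AH
open scoped ContDiff Manifold

/-- the similitudes -/
private def C1_sim {n : ℕ} (Q : Matrix (Fin n) (Fin n) ℚ) : Submodule ℚ (Matrix (Fin n) (Fin n) ℚ) where
  carrier := {B | ∃ c : ℚ, Bᵀ * Q + Q * B = c • Q}
  add_mem' := by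
    rintro a b ⟨c, hc⟩ ⟨d, hd⟩
    refine ⟨c + d, ?_⟩
    rw [Matrix.transpose_add, Matrix.add_mul, Matrix.mul_add, add_smul, ← hc, ← hd]
    abel
  zero_mem' := ⟨0, by simp⟩
  smul_mem' := by
    rintro r a ⟨c, hc⟩
    refine ⟨r * c, ?_⟩
    rw [Matrix.transpose_smul, Matrix.smul_mul, Matrix.mul_smul, ← smul_add, hc, smul_smul]

private theorem C1_lie {n : ℕ} (Q : Matrix (Fin n) (Fin n) ℚ) : IsLie (C1_sim Q) := by
  rintro X ⟨c, hc⟩ Y ⟨d, hd⟩
  refine ⟨0, ?_⟩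
  have h1 : Xᵀ * Q = c • Q - Q * X := eq_sub_of_add_eq hc
  have h2 : Yᵀ * Q = d • Q - Q * Y := eq_sub_of_add_eq hd
  rw [Matrix.transpose_sub, Matrix.transpose_mul, Matrix.transpose_mul, Matrix.sub_mul,
    Matrix.mul_sub, Matrix.mul_assoc Yᵀ, Matrix.mul_assoc Xᵀ, h1, h2, Matrix.mul_sub, Matrix.mul_sub,
    Matrix.mul_smul, Matrix.mul_smul, ← Matrix.mul_assoc Yᵀ, ← Matrix.mul_assoc Xᵀ, h1, h2,
    Matrix.sub_mul, Matrix.sub_mul, Matrix.smul_mul, Matrix.smul_mul, smul_sub, smul_sub, zero_smul,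
    smul_comm c d, Matrix.mul_assoc Q, Matrix.mul_assoc Q]
  abel

private theorem C1_cm_mul {n : ℕ} (A B : Matrix (Fin n) (Fin n) ℚ) : cm (A * B) = cm A * cm B :=
  Matrix.map_mul (f := Rat.castHom ℂ)

private theorem C1_skew {n : ℕ} (Q : Matrix (Fin n) (Fin n) ℚ) (hQ : IsUnit Q.det) (ε : ℚ)
    (hε : ε * ε = 1) (hs : Qᵀ = ε • Q) (X : Matrix (Fin n) (Fin n) ℂ) (hX : Xᵀ * cm Q + cm Q * X = 0) :
    X ∈ cx (C1_sim Q : Set (Matrix (Fin n) (Fin n) ℚ)) := by
  classical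
  have hQi : Q⁻¹ * Q = 1 := Matrix.nonsing_inv_mul _ hQ
  have hQi' : Q * Q⁻¹ = 1 := Matrix.mul_nonsing_inv _ hQ
  -- the projection over the rationals
  have hpi : ∀ Y : Matrix (Fin n) (Fin n) ℚ, Y - Q⁻¹ * Yᵀ * Q ∈ C1_sim Q := by
    intro Y
    refine ⟨0, ?_⟩
    have h1 : (Q⁻¹)ᵀ = ε • Q⁻¹ := by
      rw [Matrix.transpose_nonsing_inv, hs]
      refine Matrix.inv_eq_right_inv ?_
      rw [Matrix.smul_mul, Matrix.mul_smul, smul_smul, hε, one_smul, hQi']
    rw [Matrix.transpose_sub, Matrix.transpose_mul, Matrix.transpose_mul, Matrix.transpose_transpose,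
      h1, hs, Matrix.mul_smul, Matrix.mul_smul, Matrix.smul_mul, smul_smul, hε, one_smul,
      Matrix.sub_mul, Matrix.mul_sub, zero_smul]
    have h2 : Q * (Y * Q⁻¹) * Q = Q * Y := by
      rw [Matrix.mul_assoc Q, Matrix.mul_assoc Y, hQi, Matrix.mul_one]
    have h3 : Q * (Q⁻¹ * Yᵀ * Q) = Yᵀ * Q := by
      rw [← Matrix.mul_assoc, ← Matrix.mul_assoc, hQi', Matrix.one_mul]
    rw [h2, h3]
    abel
  have hC : cm Q⁻¹ * cm Q = 1 := by
    rw [← C1_cm_mul, hQi]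
    ext i j
    by_cases hij : i = j
    · subst hij; simp [cm]
    · simp [cm, hij]
  have hX2 : X = (1 / 2 : ℂ) • (X - cm Q⁻¹ * Xᵀ * cm Q) := by
    have h1 : Xᵀ * cm Q = -(cm Q * X) := eq_neg_of_add_eq_zero_left hX
    have h2 : cm Q⁻¹ * Xᵀ * cm Q = -X := by
      rw [Matrix.mul_assoc, h1, Matrix.mul_neg, ← Matrix.mul_assoc, hC, Matrix.one_mul]
    rw [h2, sub_neg_eq_add, ← two_smul ℂ X, smul_smul]
    norm_num
  have hsum : X = ∑ i, ∑ j, X i j • cm (Matrix.single i j (1 : ℚ)) := by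
    have h1 := Matrix.matrix_eq_sum_single X
    rw [h1]
    refine Finset.sum_congr rfl fun i _ => Finset.sum_congr rfl fun j _ => ?_
    rw [← h1]
    ext k l
    rw [Matrix.smul_apply]
    unfold cm
    rw [Matrix.map_apply, Matrix.single_apply, Matrix.single_apply, smul_eq_mul]
    split_ifs <;> simp
  let L : Matrix (Fin n) (Fin n) ℂ →ₗ[ℂ] Matrix (Fin n) (Fin n) ℂ :=
    { toFun := fun Y => Y - cm Q⁻¹ * Yᵀ * cm Q
      map_add' := fun a b => by
        rw [Matrix.transpose_add, Matrix.mul_add, Matrix.add_mul]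
        abel
      map_smul' := fun c a => by
        rw [Matrix.transpose_smul, Matrix.mul_smul, Matrix.smul_mul, RingHom.id_apply, smul_sub] }
  have hL : X = (1 / 2 : ℂ) • L X := hX2
  rw [hL]
  refine Submodule.smul_mem _ _ ?_
  rw [hsum, map_sum]
  refine Submodule.sum_mem _ fun i _ => ?_
  rw [map_sum]
  refine Submodule.sum_mem _ fun j _ => ?_
  rw [map_smul]
  refine Submodule.smul_mem _ _ (Submodule.subset_span ⟨_, hpi (Matrix.single i j 1), ?_⟩)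
  show cm _ = cm (Matrix.single i j 1) - cm Q⁻¹ * (cm (Matrix.single i j 1))ᵀ * cm Q
  have h1 : ∀ A B : Matrix (Fin n) (Fin n) ℚ, cm (A - B) = cm A - cm B := fun A B => by
    ext k l; simp [cm]
  have h2 : ∀ A : Matrix (Fin n) (Fin n) ℚ, cm Aᵀ = (cm A)ᵀ := fun A => by
    ext k l; simp [cm]
  rw [h1, C1_cm_mul, C1_cm_mul, h2]

theorem gMT_sim {n m : ℕ} {X G : Type} [TopologicalSpace X] [ChartedSpace (Fin m → ℂ) X] [Group G]
    [MulAction G X] [Nonempty X] (V : MVHS n m X G) (B : Matrix (Fin n) (Fin n) ℚ) (hB : B ∈ gMT V) :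
    ∃ c : ℚ, Bᵀ * qm V.Q + qm V.Q * B = c • qm V.Q := by
  have hmem : C1_sim (qm V.Q) ∈ {g : Submodule ℚ (Matrix (Fin n) (Fin n) ℚ) | IsLie g ∧
      ∀ x : X, ∀ μ, IsGrX V x μ → μ ∈ cx (g : Set (Matrix (Fin n) (Fin n) ℚ))} := by
    refine ⟨C1_lie _, fun x μ hμ => ?_⟩
    have h := V.phs x
    have hg := e07_gr h (μ := μ) hμ
    have hQu : IsUnit (qm V.Q).det := U01_det (qm V.Q) (by rw [U01_cm_qm]; exact im_Q_unit h)
    have hsym : (qm V.Q)ᵀ = (((V.wt.negOnePow : ℤˣ) : ℤ) : ℚ) • qm V.Q := by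
      ext i j
      rw [Matrix.transpose_apply, Matrix.smul_apply, smul_eq_mul]
      have h1 := h.symm i j
      unfold qm
      rw [Matrix.map_apply, Matrix.map_apply, h1]
      push_cast
      ring
    have hε : (((V.wt.negOnePow : ℤˣ) : ℤ) : ℚ) * (((V.wt.negOnePow : ℤˣ) : ℤ) : ℚ) = 1 := by
      have h1 : ((V.wt.negOnePow : ℤˣ) : ℤ) * ((V.wt.negOnePow : ℤˣ) : ℤ) = 1 := by
        rw [← Units.val_mul, ← sq, Int.units_sq, Units.val_one]
      exact_mod_cast h1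
    have hX : (μ - ((V.wt : ℂ) / 2) • (1 : Matrix (Fin n) (Fin n) ℂ))ᵀ * cm (qm V.Q) +
        cm (qm V.Q) * (μ - ((V.wt : ℂ) / 2) • (1 : Matrix (Fin n) (Fin n) ℂ)) = 0 := by
      rw [U01_cm_qm, Matrix.transpose_sub, Matrix.sub_mul, Matrix.mul_sub, hg, Matrix.transpose_smul,
        Matrix.transpose_one, Matrix.smul_mul, Matrix.mul_smul, Matrix.one_mul, Matrix.mul_one]
      have h1 : (V.wt : ℂ) • im V.Q = ((V.wt : ℂ) / 2) • im V.Q + ((V.wt : ℂ) / 2) • im V.Q := by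
        rw [← add_smul]
        congr 1
        ring
      rw [h1]
      abel
    have h1 := C1_skew (qm V.Q) hQu _ hε hsym _ hX
    have h2 : (1 : Matrix (Fin n) (Fin n) ℂ) ∈
        cx (C1_sim (qm V.Q) : Set (Matrix (Fin n) (Fin n) ℚ)) := by
      refine Submodule.subset_span ⟨1, ⟨2, ?_⟩, ?_⟩
      · rw [Matrix.transpose_one, Matrix.one_mul, Matrix.mul_one, two_smul]
      · ext i j
        by_cases hij : i = j
        · subst hij; simp [cm]
        · simp [cm, hij]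
    have h3 : μ = (μ - ((V.wt : ℂ) / 2) • (1 : Matrix (Fin n) (Fin n) ℂ)) +
        ((V.wt : ℂ) / 2) • (1 : Matrix (Fin n) (Fin n) ℂ) := by abel
    rw [h3]
    exact Submodule.add_mem _ h1 (Submodule.smul_mem _ _ h2)
  have h4 : B ∈ C1_sim (qm V.Q) := by
    unfold gMT at hB
    exact (Submodule.mem_sInf.mp hB) _ hmem
  exact h4

end MP2794d1.BW
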