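import Pool.Agent.Lib.MP_2794d1_ag.BW.ADefs
import Pool.Agent.Lib.MP_2794d1_ag.E02
import Pool.Agent.Lib.MP_2794d1_ag.E03

/-!
C2: linear algebra. `B = B₀ + c / 2`, `B₀` skew. `Fl p = ⊤` for `2 p ≤ wt - 1` (`(h.opp p)` with `Fl (wt + 1 - p) = ⊥`), so only
`2 p = wt + 2` is not trivial: then `Fl p` is spanned by one vector `e` (or zero), `wt` is even, so `Q` is symmetric and `Q (B₀ e, e) = 0`;
and `x ∈ Fl (p - 1)` iff `Q (x, y) = 0` for all `y ∈ Fl p` (adapted basis `S, d`: the conjugate of the column `a` of `S` is in `Fl (wt - d a)`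
(`cfl`), and `Adapted.on`).
-/

namespace MP2794d1.BW

open Matrix Complex Filter Topology MP2794d1 MP2794d1.AH
open scoped ContDiff Manifold

theorem C2_perp {n : ℕ} {wt : ℤ} {Q : Matrix (Fin n) (Fin n) ℤ} {Fl : ℤ → Submodule ℂ (Fin n → ℂ)}
    {S : Matrix (Fin n) (Fin n) ℂ} {d : Fin n → ℤ} (hS : Adapted wt Q Fl S d) (p : ℤ)
    (y : Fin n → ℂ) (hy : ∀ v ∈ Fl (wt + 1 - p), y ⬝ᵥ (im Q *ᵥ v) = 0) : y ∈ Fl p := by
  rw [E03_fl hS]
  intro a ha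
  by_contra hlt
  push Not at hlt
  have h1 : Sᵀ a ∈ conjSub (Fl (wt + 1 - p)) := by
    rw [E03_cfl hS]
    intro b hb
    rw [E03_colcoef hS.inv b a hb]
    omega
  have h2 : star (Sᵀ a) ∈ Fl (wt + 1 - p) := h1
  have h3 := hy _ h2
  apply ha
  have h4 : y ⬝ᵥ (im Q *ᵥ star (Sᵀ a)) = (S⁻¹ *ᵥ y) a * Complex.I ^ (wt - 2 * d a) := by
    have e1 : y = S *ᵥ (S⁻¹ *ᵥ y) := by
      rw [Matrix.mulVec_mulVec, Matrix.mul_nonsing_inv _ hS.inv, Matrix.one_mulVec]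
    have e2 : star (Sᵀ a) = mconj S *ᵥ Pi.single a 1 := by
      rw [Matrix.mulVec_single_one]
      rfl
    have e3 : y ⬝ᵥ (im Q *ᵥ star (Sᵀ a)) =
        (S⁻¹ *ᵥ y) ⬝ᵥ ((Sᵀ * im Q * mconj S) *ᵥ Pi.single a 1) := by
      conv_lhs => rw [e1, e2]
      rw [← Matrix.vecMul_transpose, ← Matrix.dotProduct_mulVec, Matrix.mulVec_mulVec,
        Matrix.mulVec_mulVec]
    rw [e3, hS.on, Matrix.mulVec_single_one]
    show ∑ b, (S⁻¹ *ᵥ y) b * Matrix.diagonal (fun a => Complex.I ^ (wt - 2 * d a)) b a = _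
    rw [Finset.sum_eq_single a]
    · rw [Matrix.diagonal_apply_eq]
    · intro b _ hb
      rw [Matrix.diagonal_apply_ne _ hb, mul_zero]
    · intro h
      exact absurd (Finset.mem_univ a) h
  rw [h4] at h3
  rcases mul_eq_zero.1 h3 with h5 | h5
  · exact h5
  · exact absurd h5 (zpow_ne_zero _ Complex.I_ne_zero)

theorem sv_alg {n : ℕ} {wt : ℤ} {Q : Matrix (Fin n) (Fin n) ℤ} {Fl : ℤ → Submodule ℂ (Fin n → ℂ)}
    (h : IsPHS wt Q Fl) (h1 : ∀ p, wt + 2 < 2 * p → Fl p = ⊥)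
    (h2 : ∀ p, wt + 2 = 2 * p → Module.finrank ℂ (Fl p) ≤ 1) (B : Matrix (Fin n) (Fin n) ℂ) (c : ℂ)
    (hB : Bᵀ * im Q + im Q * B = c • im Q) (p : ℤ) (x : Fin n → ℂ) (hx : x ∈ Fl p) :
    B *ᵥ x ∈ Fl (p - 1) := by
  rcases lt_trichotomy (wt + 2) (2 * p) with hlt | heq | hgt
  · rw [h1 p hlt] at hx
    have h3 : x = 0 := hx
    rw [h3, Matrix.mulVec_zero]
    exact (Fl (p - 1)).zero_mem
  · obtain ⟨S, d, hS⟩ := exists_adapted h
    apply C2_perp hS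
    have hp : wt + 1 - (p - 1) = p := by omega
    rw [hp]
    obtain ⟨⟨w, hw⟩, hw2⟩ := finrank_le_one_iff.1 (h2 p heq)
    have hspan : ∀ v ∈ Fl p, ∃ r : ℂ, v = r • w := by
      intro v hv
      obtain ⟨r, hr⟩ := hw2 ⟨v, hv⟩
      exact ⟨r, (congrArg Subtype.val hr).symm⟩
    -- the form vanishes on `(B w, w)`
    have hww : w ⬝ᵥ (im Q *ᵥ w) = 0 := by
      refine h.orth p w hw w ?_
      have h3 : wt + 1 - p = p - 1 := by omega
      rw [h3]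
      exact h.anti (p - 1) p (by omega) hw
    have hQs : (im Q)ᵀ = im Q := by
      ext i j
      have h3 := h.symm i j
      have h4 : Even wt := ⟨p - 1, by omega⟩
      rw [Int.negOnePow_even wt h4] at h3
      show ((Q j i : ℤ) : ℂ) = ((Q i j : ℤ) : ℂ)
      rw [h3]
      simp
    have hBw : (B *ᵥ w) ⬝ᵥ (im Q *ᵥ w) = 0 := by
      have h3 := congrArg (fun M : Matrix (Fin n) (Fin n) ℂ => w ⬝ᵥ (M *ᵥ w)) hB
      have h3' : w ⬝ᵥ ((Bᵀ * im Q + im Q * B) *ᵥ w) = w ⬝ᵥ ((c • im Q) *ᵥ w) := h3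
      rw [Matrix.add_mulVec, dotProduct_add, Matrix.smul_mulVec, dotProduct_smul, hww, smul_zero,
        ← Matrix.mulVec_mulVec, ← Matrix.mulVec_mulVec] at h3'
      have e1 : w ⬝ᵥ (Bᵀ *ᵥ (im Q *ᵥ w)) = (B *ᵥ w) ⬝ᵥ (im Q *ᵥ w) := by
        rw [Matrix.dotProduct_mulVec, Matrix.vecMul_transpose]
      have e2 : w ⬝ᵥ (im Q *ᵥ (B *ᵥ w)) = (B *ᵥ w) ⬝ᵥ (im Q *ᵥ w) := by
        rw [Matrix.dotProduct_mulVec, ← Matrix.mulVec_transpose, hQs, dotProduct_comm]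
      rw [e1, e2] at h3'
      have h4 : (2 : ℂ) * ((B *ᵥ w) ⬝ᵥ (im Q *ᵥ w)) = 0 := by
        rw [two_mul]
        exact h3'
      rcases mul_eq_zero.1 h4 with h5 | h5
      · exact absurd h5 two_ne_zero
      · exact h5
    intro v hv
    obtain ⟨r, rfl⟩ := hspan x hx
    obtain ⟨r', rfl⟩ := hspan v hv
    rw [Matrix.mulVec_smul, Matrix.mulVec_smul, smul_dotProduct, dotProduct_smul, hBw, smul_zero,
      smul_zero]
  · have h3 : Fl (wt + 1 - (p - 1)) = ⊥ := h1 _ (by omega)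
    have h4 := (h.opp (p - 1)).sup_eq_top
    have h5 : conjSub (⊥ : Submodule ℂ (Fin n → ℂ)) = ⊥ := by
      ext v
      show star v = 0 ↔ v = 0
      exact star_eq_zero
    rw [h3, h5, sup_bot_eq] at h4
    rw [h4]
    trivial

end MP2794d1.BW
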