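import Pool.Agent.Lib.MP_2794d1_ag.AH.Defs

/-!
# CM points near the boundary: definitions
-/

namespace MP2794d1.BW

open Matrix Complex Filter Topology MP2794d1.AH
open scoped ContDiff Manifold

/-- A chart of `G \ X` near the boundary: coordinates `z` (in the upper half plane), `u 0, ..., u (k - 1)` (in the upper
half plane) and `t 0, ..., t (l - 1)` (in `B`); the element `g` of the group translates `z` by `1`, with unipotent
monodromy `exp N`. -/
structure BChart {n m : ℕ} {X G : Type} [TopologicalSpace X] [ChartedSpace (Fin m → ℂ) X] [Group G]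
    [MulAction G X] (V : MVHS n m X G) (k l : ℕ) where
  /-- the domain of the coordinates `t` -/
  B : Set (Fin l → ℂ)
  /-- the chart -/
  c : ℂ → (Fin k → ℂ) → (Fin l → ℂ) → X
  hol : ∀ (z : ℂ) (u : Fin k → ℂ) (t : Fin l → ℂ), 0 < z.im → (∀ j, 0 < (u j).im) → t ∈ B →
    ContMDiffAt 𝓘(ℂ, ℂ × (Fin k → ℂ) × (Fin l → ℂ)) 𝓘(ℂ, Fin m → ℂ) ω
      (fun y : ℂ × (Fin k → ℂ) × (Fin l → ℂ) => c y.1 y.2.1 y.2.2) (z, u, t)
  /-- the element of the group which translates `z` by `1` -/
  g : G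
  eqv : ∀ (z : ℂ) (u : Fin k → ℂ) (t : Fin l → ℂ), 0 < z.im → (∀ j, 0 < (u j).im) → t ∈ B →
    c (z + 1) u t = g • c z u t
  /-- the logarithm of its monodromy -/
  N : Matrix (Fin n) (Fin n) ℚ
  nil : N ^ n = 0
  exp_eq : im (V.rho g : Matrix (Fin n) (Fin n) ℤ) = uexp (cm N) 1

/-- `A` is an endomorphism of the integral Hodge structure at `x` with separable characteristic polynomial and with
`trace (A A') ≤ h ^ 2`, `A'` the adjoint of `A` with respect to the polarisation (so `x` is a CM point of complexity at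
most `h`) -/
def IsEnd {n m : ℕ} {X G : Type} [TopologicalSpace X] [ChartedSpace (Fin m → ℂ) X] [Group G] [MulAction G X]
    (V : MVHS n m X G) (x : X) (A : Matrix (Fin n) (Fin n) ℤ) (h : ℝ) : Prop :=
  (im A).charpoly.Separable ∧ (∀ p, ∀ y ∈ V.F p x, (im A) *ᵥ y ∈ V.F p x) ∧
    (((qm A * radj V.Q A).trace : ℚ) : ℝ) ≤ h ^ 2

/-- the pairs of numbers `(a, b)` and `(a', b')` are conjugate over the rational numbers -/
def PairConj (a b a' b' : ℂ) : Prop :=
  ∀ g : MvPolynomial (Fin 2) ℚ, MvPolynomial.aeval ![a, b] g = 0 ↔ MvPolynomial.aeval ![a', b'] g = 0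

/-- `a` is an eigenvalue of `A` -/
def Eig {n : ℕ} (A : Matrix (Fin n) (Fin n) ℤ) (a : ℂ) : Prop := (im A).charpoly.eval a = 0

/-- some eigenvector of `A` for the eigenvalue `a` belongs to `F^p` and not to `F^(p + 1)`, at the point `x` -/
def Lev {n m : ℕ} {X G : Type} [TopologicalSpace X] [ChartedSpace (Fin m → ℂ) X] [Group G] [MulAction G X]
    (V : MVHS n m X G) (x : X) (A : Matrix (Fin n) (Fin n) ℤ) (a : ℂ) (p : ℤ) : Prop :=
  ∃ v : Fin n → ℂ, v ≠ 0 ∧ im A *ᵥ v = a • v ∧ v ∈ V.F p x ∧ v ∉ V.F (p + 1) x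

/-- The CM point `x` is wide: every pair of distinct eigenvalues of `A` is conjugate to a pair whose eigenvectors have
Hodge levels which differ by at least two. -/
def IsWide {n m : ℕ} {X G : Type} [TopologicalSpace X] [ChartedSpace (Fin m → ℂ) X] [Group G] [MulAction G X]
    (V : MVHS n m X G) (x : X) (A : Matrix (Fin n) (Fin n) ℤ) : Prop :=
  ∀ a b : ℂ, Eig A a → Eig A b → a ≠ b → ∃ (a' b' : ℂ) (p q : ℤ), PairConj a b a' b' ∧ Lev V x A a' p ∧
    Lev V x A b' q ∧ 2 ≤ |p - q|

/-- The Galois group of the characteristic polynomial of `A` is as transitive as the Weyl group of type `C` or `D` (in its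
action on the weights of the standard representation): it acts transitively on the pairs `(a, b)` with `b ≠ a, conj a`,
and on the pairs `(a, conj a)`. -/
def IsWeyl {n : ℕ} (A : Matrix (Fin n) (Fin n) ℤ) : Prop :=
  (∀ a b c d : ℂ, Eig A a → Eig A b → Eig A c → Eig A d → b ≠ a → b ≠ (starRingEnd ℂ) a → d ≠ c →
    d ≠ (starRingEnd ℂ) c → PairConj a b c d) ∧
  ∀ a b : ℂ, Eig A a → Eig A b → PairConj a ((starRingEnd ℂ) a) b ((starRingEnd ℂ) b)

/-- The generic Mumford-Tate Lie algebra has only the Hodge types `(-1,1), (0,0), (1,-1)`, at every point: the Mumford-Tate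
domain is a Shimura datum. -/
structure IsSV {n m : ℕ} {X G : Type} [TopologicalSpace X] [ChartedSpace (Fin m → ℂ) X] [Group G] [MulAction G X]
    (V : MVHS n m X G) : Prop where
  /-- `gMT V` does contain the Hodge gradings (after extension of scalars) -/
  grading : ∀ x : X, ∃ μ, IsGrX V x μ ∧ μ ∈ cx (gMT V : Set (Matrix (Fin n) (Fin n) ℚ))
  /-- `gMT V` is a Lie algebra -/
  lie : IsLie (gMT V)
  /-- it is of Hodge type `(-1,1), (0,0), (1,-1)` at every point -/
  sv1 : ∀ x : X, ∀ A ∈ gMT V, ∀ p, ∀ y ∈ V.F p x, (cm A) *ᵥ y ∈ V.F (p - 1) x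

end MP2794d1.BW
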