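import Pool.Agent.Lib.MP_2794d1_ag.PG.E1
import Pool.Agent.Lib.MP_2794d1_ag.BW.ADefs

/-!
F1: `frame_bound` (PG/E1) with a constant which depends only on `Q`: `‖S⁻¹ a b‖ ≤ 1 + m` and
`mconj S = (im Q)⁻¹ * ((S⁻¹)ᵀ * diagonal _)`.
-/

namespace MP2794d1.BW

open Matrix Complex Filter Topology MP2794d1 MP2794d1.AH
open scoped ContDiff Manifold

theorem frame_poly {n : ℕ} (Q : Matrix (Fin n) (Fin n) ℤ) : ∃ C : ℝ, 1 ≤ C ∧ ∀ V : PolVHS n, V.Q = Q →
    ∀ z : ℂ, 0 < z.im → ∀ m : ℝ, 0 ≤ m → (∀ i, qf V z (Pi.single i 1) ≤ m) →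
      ∀ (S : Matrix (Fin n) (Fin n) ℂ) (d : Fin n → ℤ), Adapted V.wt V.Q (fun p => V.F p z) S d →
        ∀ a b, ‖S a b‖ ≤ C * (1 + m) ∧ ‖S⁻¹ a b‖ ≤ C * (1 + m) := by
  set M : ℝ := ∑ a, ∑ b, ‖(im Q)⁻¹ a b‖ with hM
  have hM0 : 0 ≤ M := by positivity
  refine ⟨1 + M, by linarith, fun V hVQ z hz m hm0 hq S d hS a b => ?_⟩
  have hinv : ∀ a b, ‖S⁻¹ a b‖ ≤ 1 + m := by
    intro a b
    have h1 := hq b
    rw [qf_adapted V hz hS] at h1
    have h4 := L05_norm_le _ h1 a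
    have h5 : (S⁻¹ *ᵥ (Pi.single b 1)) a = S⁻¹ a b := by
      rw [Matrix.mulVec_single_one]
      rfl
    rwa [h5] at h4
  constructor
  · have hQu := im_Q_unit (V.phs z hz)
    have hSt : (S⁻¹)ᵀ * Sᵀ = 1 := by
      rw [← Matrix.transpose_mul, Matrix.mul_nonsing_inv S hS.inv, Matrix.transpose_one]
    have h1 : mconj S = (im V.Q)⁻¹ * ((S⁻¹)ᵀ *
        Matrix.diagonal (fun a => Complex.I ^ (V.wt - 2 * d a))) := by
      rw [← hS.on]
      calc mconj S = ((im V.Q)⁻¹ * im V.Q) * mconj S := by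
            rw [Matrix.nonsing_inv_mul _ hQu, Matrix.one_mul]
        _ = (im V.Q)⁻¹ * (((S⁻¹)ᵀ * Sᵀ) * im V.Q * mconj S) := by
            rw [hSt, Matrix.one_mul, Matrix.mul_assoc]
        _ = _ := by simp only [Matrix.mul_assoc]
    have h2 : ‖S a b‖ = ‖mconj S a b‖ := by
      show ‖S a b‖ = ‖(starRingEnd ℂ) (S a b)‖
      rw [RCLike.norm_conj]
    rw [h2, h1, Matrix.mul_apply, hVQ]
    calc ‖∑ c, (im Q)⁻¹ a c * ((S⁻¹)ᵀ *
          Matrix.diagonal (fun a => Complex.I ^ (V.wt - 2 * d a))) c b‖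
        ≤ ∑ c, ‖(im Q)⁻¹ a c * ((S⁻¹)ᵀ *
          Matrix.diagonal (fun a => Complex.I ^ (V.wt - 2 * d a))) c b‖ := norm_sum_le _ _
      _ ≤ ∑ c, ‖(im Q)⁻¹ a c‖ * (1 + m) := by
          refine Finset.sum_le_sum fun c _ => ?_
          rw [norm_mul]
          apply mul_le_mul_of_nonneg_left _ (norm_nonneg _)
          rw [Matrix.mul_diagonal, norm_mul, norm_zpow, Complex.norm_I, _root_.one_zpow, mul_one]
          exact hinv b c
      _ = (∑ c, ‖(im Q)⁻¹ a c‖) * (1 + m) := by rw [Finset.sum_mul]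
      _ ≤ M * (1 + m) := by
          apply mul_le_mul_of_nonneg_right _ (by positivity)
          rw [hM]
          exact Finset.single_le_sum (f := fun a => ∑ b, ‖(im Q)⁻¹ a b‖)
            (fun _ _ => by positivity) (Finset.mem_univ a)
      _ ≤ (1 + M) * (1 + m) := by nlinarith
  · refine (hinv a b).trans ?_
    nlinarith [mul_nonneg hM0 (by linarith : (0 : ℝ) ≤ 1 + m)]

end MP2794d1.BW
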