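import Pool.Agent.Lib.MP_2794d1_ag.BW.S3
import Pool.Agent.Lib.MP_2794d1_ag.BW.F1

/-!
F2: adapted frames in the chart: `chart_growth` (S3) and `frame_poly` (F1) for `cst V x` at `I`; `1 ≤ z.im * ∏ j, (u j).im`.
-/

namespace MP2794d1.BW

open Matrix Complex Filter Topology MP2794d1 MP2794d1.AH
open scoped ContDiff Manifold

variable {n m k l : ℕ} {X G : Type} [TopologicalSpace X] [ChartedSpace (Fin m → ℂ) X]
  [IsManifold 𝓘(ℂ, Fin m → ℂ) ω X] [Group G] [MulAction G X]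

theorem chart_frame (V : MVHS n m X G) (C : BChart V k l) (T : Set (Fin l → ℂ)) (hT : IsCompact T)
    (hTB : T ⊆ C.B) : ∃ (C₀ : ℝ) (K : ℕ), 1 ≤ C₀ ∧ ∀ (z : ℂ) (u : Fin k → ℂ) (t : Fin l → ℂ), t ∈ T →
      |z.re| ≤ 1 → 1 ≤ z.im → (∀ j, |(u j).re| ≤ 1 ∧ 1 ≤ (u j).im) →
      ∀ (S : Matrix (Fin n) (Fin n) ℂ) (d : Fin n → ℤ),
        Adapted V.wt V.Q (fun p => V.F p (C.c z u t)) S d → ∀ a b,
          ‖S a b‖ ≤ C₀ * (z.im * ∏ j, (u j).im) ^ K ∧ ‖S⁻¹ a b‖ ≤ C₀ * (z.im * ∏ j, (u j).im) ^ K := by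
  obtain ⟨C₁, hC₁, h1⟩ := frame_poly V.Q
  obtain ⟨C₂, K, hC₂, h2⟩ := chart_growth V C T hT hTB
  refine ⟨2 * C₁ * C₂, K, by nlinarith, ?_⟩
  intro z u t ht hzr hz hu S d hS a b
  have hP : 1 ≤ z.im * ∏ j, (u j).im := by
    have h3 : 1 ≤ ∏ j, (u j).im := by
      have h4 : ∀ s : Finset (Fin k), 1 ≤ ∏ j ∈ s, (u j).im := by
        intro s
        classical
        induction s using Finset.induction_on with
        | empty => simp
        | insert j s hj ih =>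
          rw [Finset.prod_insert hj]
          nlinarith [(hu j).2]
      exact h4 _
    nlinarith
  have hPK : 1 ≤ (z.im * ∏ j, (u j).im) ^ K := one_le_pow₀ hP
  have h3 := h1 (cst V (C.c z u t)) rfl Complex.I (by rw [Complex.I_im]; norm_num)
    (C₂ * (z.im * ∏ j, (u j).im) ^ K) (by nlinarith) (h2 z u t ht hzr hz hu) S d hS a b
  have h4 : C₁ * (1 + C₂ * (z.im * ∏ j, (u j).im) ^ K) ≤
      2 * C₁ * C₂ * (z.im * ∏ j, (u j).im) ^ K := by
    have h5 : 1 ≤ C₂ * (z.im * ∏ j, (u j).im) ^ K := by nlinarith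
    nlinarith
  exact ⟨h3.1.trans h4, h3.2.trans h4⟩

end MP2794d1.BW
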