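import Pool.Agent.Lib.MP_2794d1_ag.BW.A5
import Pool.Agent.Lib.MP_2794d1_ag.BW.B2
import Pool.Agent.Lib.MP_2794d1_ag.BW.B3
import Pool.Agent.Lib.MP_2794d1_ag.BW.C1
import Pool.Agent.Lib.MP_2794d1_ag.BW.C2
import Pool.Agent.Lib.MP_2794d1_ag.AH.S15

/-!
The main theorem.
-/

namespace MP2794d1.BW

open Matrix Complex Filter Topology MP2794d1 MP2794d1.AH
open scoped ContDiff Manifold

variable {n m k l : ℕ} {X G : Type} [TopologicalSpace X] [ChartedSpace (Fin m → ℂ) X]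
  [IsManifold 𝓘(ℂ, Fin m → ℂ) ω X] [ConnectedSpace X] [Group G] [MulAction G X]

theorem isSV (V : MVHS n m X G) (h1 : ∀ (x : X) (p : ℤ), V.wt + 2 < 2 * p → V.F p x = ⊥)
    (h2 : ∀ (x : X) (p : ℤ), V.wt + 2 = 2 * p → Module.finrank ℂ (V.F p x) ≤ 1) : IsSV V := by
  refine ⟨gradingX V, lieX V, fun x B hB p y hy => ?_⟩
  obtain ⟨c, hc⟩ := gMT_sim V B hB
  refine sv_alg (V.phs x) (fun p hp => h1 x p hp) (fun p hp => h2 x p hp) (cm B) (c : ℂ) ?_ p y hy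
  have h3 := congrArg cm hc
  have e1 : cm (Bᵀ * qm V.Q + qm V.Q * B) = cm (Bᵀ * qm V.Q) + cm (qm V.Q * B) := by
    ext i j
    simp [cm]
  have e2 : cm (c • qm V.Q) = (c : ℂ) • im V.Q := by
    ext i j
    simp [cm, im, qm]
  rw [e1, e2, S01_cm_mul, S01_cm_mul, U01_cm_qm] at h3
  exact h3

theorem main (V : MVHS n m X G) (C : BChart V k l) (hN : C.N ≠ 0) (T : Set (Fin l → ℂ))
    (hT : IsCompact T) (hTB : T ⊆ C.B) : ∃ δ Y : ℝ, 0 < δ ∧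
      ∀ (z : ℂ) (u : Fin k → ℂ) (t : Fin l → ℂ), t ∈ T → |z.re| ≤ 1 → Y < z.im →
      (∀ j, |(u j).re| ≤ 1 ∧ 1 ≤ (u j).im) → ∏ j, (u j).im ≤ Real.exp (δ * z.im) →
      ∀ A : Matrix (Fin n) (Fin n) ℤ, IsEnd V (C.c z u t) A (Real.exp (δ * z.im)) →
        (∀ p, ∀ y ∈ V.F p (C.c z u t), cm C.N *ᵥ y ∈ V.F (p - 1) (C.c z u t)) ∧
        ¬ IsWide V (C.c z u t) A ∧
        (IsWeyl A → IsSV V ∧ (∀ (x : X) (p : ℤ), V.wt + 2 < 2 * p → V.F p x = ⊥) ∧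
          ∀ (x : X) (p : ℤ), V.wt + 2 = 2 * p → Module.finrank ℂ (V.F p x) ≤ 1) := by
  obtain ⟨δ, Y, hδ, hY, h⟩ := star V C T hT hTB
  refine ⟨δ, Y, hδ, fun z u t ht hre him hu hprod A hA => ?_⟩
  obtain ⟨e, P, q, hP⟩ := exists_cmbasis (V.phs (C.c z u t)) A hA.1 hA.2.1
  have hst := h z u t ht hre him hu hprod A hA e P q hP
  refine ⟨fun p y hy => XX_trans hP C.N hst p y hy, not_wide V _ A hP C.N C.nil hN hst,
    fun hW => ?_⟩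
  obtain ⟨w1, w2⟩ := weyl_numbers hP C.N C.nil hN hst hW
  obtain ⟨n1, n2⟩ := numbers_of_q hP w1 w2
  have h1 : ∀ (x : X) (p : ℤ), V.wt + 2 < 2 * p → V.F p x = ⊥ := by
    intro x p hp
    have e1 := rank_const V p x (C.c z u t)
    have e2 : V.F p (C.c z u t) = ⊥ := n1 p hp
    rw [e2, finrank_bot] at e1
    exact Submodule.finrank_eq_zero.1 e1
  have h2 : ∀ (x : X) (p : ℤ), V.wt + 2 = 2 * p → Module.finrank ℂ (V.F p x) ≤ 1 := by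
    intro x p hp
    rw [rank_const V p x (C.c z u t)]
    exact n2 p hp
  exact ⟨isSV V h1 h2, h1, h2⟩

end MP2794d1.BW
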