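import Pool.Agent.Lib.MP_2794d1_ag.BW.ADefs
import Pool.Agent.Lib.MP_2794d1_ag.AH.B04

/-!
S1: slices of the chart. `exists_sliceZ`: `V.pull a` (AH/B04) for the arc `a.c z = C.c z u t`, `a.Γ = {S1_U k | k ∈ ℤ}`,
`S1_U x = !![1, x; 0, 1]`, `a.φ γ = C.g ^ ⌊γ 0 1⌋`. `exists_sliceU`: `a.Γ = ⊥`, `a.φ = 1` (see `exists_arc`, AH/B02);
outside the half plane nothing is required of an arc.
-/

namespace MP2794d1.BW

open Matrix Complex Filter Topology MP2794d1 MP2794d1.AH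
open scoped ContDiff Manifold

/-- the translation by `x` -/
noncomputable def S1_U (x : ℝ) : Matrix.SpecialLinearGroup (Fin 2) ℝ :=
  ⟨!![1, x; 0, 1], by simp⟩

theorem S1_U_mul (x y : ℝ) : S1_U x * S1_U y = S1_U (x + y) := by
  apply Subtype.ext
  ext i j
  fin_cases i <;> fin_cases j <;> simp [S1_U, Matrix.mul_apply, Fin.sum_univ_two, add_comm]

theorem S1_U_zero : S1_U 0 = 1 := by
  apply Subtype.ext
  ext i j
  fin_cases i <;> fin_cases j <;> simp [S1_U]

theorem S1_mob (x : ℝ) (z : ℂ) : mob (S1_U x) z = z + x := by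
  unfold mob S1_U
  simp

theorem S1_01 (x : ℝ) : (S1_U x : Matrix.SpecialLinearGroup (Fin 2) ℝ) 0 1 = x := by
  simp [S1_U]

/-- the group of the integral translations -/
noncomputable def S1_Γ : Subgroup (Matrix.SpecialLinearGroup (Fin 2) ℝ) where
  carrier := {γ | ∃ k : ℤ, γ = S1_U k}
  mul_mem' := by
    rintro _ _ ⟨a, rfl⟩ ⟨b, rfl⟩
    exact ⟨a + b, by rw [S1_U_mul]; push_cast; rfl⟩
  one_mem' := ⟨0, by rw [Int.cast_zero, S1_U_zero]⟩
  inv_mem' := by
    rintro _ ⟨a, rfl⟩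
    refine ⟨-a, ?_⟩
    rw [inv_eq_iff_mul_eq_one, S1_U_mul]
    push_cast
    rw [add_neg_cancel, S1_U_zero]

/-- the homomorphism of groups -/
noncomputable def S1_φ {G : Type} [Group G] (g : G) : S1_Γ →* G where
  toFun γ := g ^ ⌊(γ : Matrix.SpecialLinearGroup (Fin 2) ℝ) 0 1⌋
  map_one' := by
    show g ^ ⌊(1 : Matrix.SpecialLinearGroup (Fin 2) ℝ) 0 1⌋ = 1
    simp
  map_mul' := by
    rintro ⟨_, a, rfl⟩ ⟨_, b, rfl⟩
    show g ^ ⌊(S1_U a * S1_U b : Matrix.SpecialLinearGroup (Fin 2) ℝ) 0 1⌋ =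
      g ^ ⌊(S1_U a) 0 1⌋ * g ^ ⌊(S1_U b) 0 1⌋
    rw [S1_U_mul, S1_01, S1_01, S1_01, ← Int.cast_add, Int.floor_intCast, Int.floor_intCast,
      Int.floor_intCast, _root_.zpow_add]

variable {n m k l : ℕ} {X G : Type} [TopologicalSpace X] [ChartedSpace (Fin m → ℂ) X]
  [IsManifold 𝓘(ℂ, Fin m → ℂ) ω X] [Group G] [MulAction G X]

omit [IsManifold 𝓘(ℂ, Fin m → ℂ) ω X] in
theorem S1_shift {V : MVHS n m X G} (C : BChart V k l) (u : Fin k → ℂ) (t : Fin l → ℂ)
    (hu : ∀ j, 0 < (u j).im) (ht : t ∈ C.B) (a : ℤ) (z : ℂ) (hz : 0 < z.im) :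
    C.c (z + ((a : ℝ) : ℂ)) u t = C.g ^ a • C.c z u t := by
  induction a using Int.induction_on with
  | zero => simp
  | succ i ih =>
    have h1 : z + (((i : ℤ) + 1 : ℤ) : ℝ) = (z + (((i : ℤ) : ℝ) : ℂ)) + 1 := by
      push_cast
      ring
    have h2 : 0 < (z + (((i : ℤ) : ℝ) : ℂ)).im := by
      rw [Complex.add_im, Complex.ofReal_im, add_zero]
      exact hz
    rw [h1, C.eqv _ u t h2 hu ht, ih, ← mul_smul, ← _root_.zpow_one_add, add_comm (1 : ℤ)]
  | pred i ih =>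
    have h1 : (z + ((-(i : ℤ) - 1 : ℤ) : ℝ)) + 1 = z + (((-(i : ℤ) : ℤ) : ℝ) : ℂ) := by
      push_cast
      ring
    have h2 : 0 < (z + (((-(i : ℤ) - 1 : ℤ) : ℝ) : ℂ)).im := by
      rw [Complex.add_im, Complex.ofReal_im, add_zero]
      exact hz
    have h3 := C.eqv _ u t h2 hu ht
    rw [h1, ih] at h3
    have h4 : C.c (z + (((-(i : ℤ) - 1 : ℤ) : ℝ) : ℂ)) u t = C.g⁻¹ • C.g ^ (-(i : ℤ)) • C.c z u t := by
      rw [h3, inv_smul_smul]
    rw [h4, ← mul_smul, sub_eq_add_neg, add_comm (-(i : ℤ)), _root_.zpow_add, _root_.zpow_neg_one]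

theorem exists_sliceZ (V : MVHS n m X G) (C : BChart V k l) (u : Fin k → ℂ) (t : Fin l → ℂ)
    (hu : ∀ j, 0 < (u j).im) (ht : t ∈ C.B) : ∃ (W : PolVHS n) (c : UCusp W), W.wt = V.wt ∧ W.Q = V.Q ∧
      W.lo = V.lo ∧ W.hi = V.hi ∧ c.N = C.N ∧ ∀ p z, W.F p z = V.F p (C.c z u t) := by
  let a : Arc m X G :=
    { Γ := S1_Γ
      c := fun z => C.c z u t
      φ := S1_φ C.g
      hol := by
        intro z hz
        have h1 := C.hol z u t hz hu ht
        have h2 : ContMDiffAt 𝓘(ℂ, ℂ) 𝓘(ℂ, ℂ × (Fin k → ℂ) × (Fin l → ℂ)) ω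
            (fun w : ℂ => ((w, u, t) : ℂ × (Fin k → ℂ) × (Fin l → ℂ))) z := by
          apply ContDiffAt.contMDiffAt
          exact contDiffAt_id.prodMk contDiffAt_const
        exact ContMDiffAt.comp z h1 h2
      eqv := by
        rintro ⟨_, b, rfl⟩ z hz
        show C.c (mob (S1_U b) z) u t = C.g ^ ⌊(S1_U b) 0 1⌋ • C.c z u t
        rw [S1_mob, S1_01, Int.floor_intCast]
        exact S1_shift C u t hu ht b z hz }
  have hT : S1_U 1 ∈ S1_Γ := ⟨1, by rw [Int.cast_one]⟩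
  have hφ : S1_φ C.g ⟨S1_U 1, hT⟩ = C.g := by
    show C.g ^ ⌊(S1_U 1) 0 1⌋ = C.g
    rw [S1_01, Int.floor_one, zpow_one]
  refine ⟨V.pull a, ⟨⟨S1_U 1, hT⟩, fun z => ?_, C.N, C.nil, ?_⟩, rfl, rfl, rfl, rfl, rfl,
    fun p z => rfl⟩
  · show mob (S1_U 1) z = z + 1
    rw [S1_mob, Complex.ofReal_one]
  · show im (V.rho (S1_φ C.g ⟨S1_U 1, hT⟩) : Matrix (Fin n) (Fin n) ℤ) = uexp (cm C.N) 1
    rw [hφ]
    exact C.exp_eq

theorem exists_sliceU (V : MVHS n m X G) (C : BChart V k l) (z : ℂ) (u : Fin k → ℂ) (t : Fin l → ℂ)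
    (hz : 0 < z.im) (hu : ∀ j, 0 < (u j).im) (ht : t ∈ C.B) (j : Fin k) : ∃ W : PolVHS n, W.wt = V.wt ∧
      W.Q = V.Q ∧ W.lo = V.lo ∧ W.hi = V.hi ∧ ∀ p w, W.F p w = V.F p (C.c z (Function.update u j w) t) := by
  let a : Arc m X G :=
    { Γ := ⊥
      c := fun w => C.c z (Function.update u j w) t
      φ := 1
      hol := by
        intro w hw
        have hu' : ∀ i, 0 < (Function.update u j w i).im := by
          intro i
          by_cases hij : i = j
          · rw [hij, Function.update_self]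
            exact hw
          · rw [Function.update_of_ne hij]
            exact hu i
        have h1 := C.hol z (Function.update u j w) t hz hu' ht
        have h2 : ContMDiffAt 𝓘(ℂ, ℂ) 𝓘(ℂ, ℂ × (Fin k → ℂ) × (Fin l → ℂ)) ω
            (fun w : ℂ => ((z, Function.update u j w, t) : ℂ × (Fin k → ℂ) × (Fin l → ℂ))) w := by
          apply ContDiffAt.contMDiffAt
          refine contDiffAt_const.prodMk (ContDiffAt.prodMk ?_ contDiffAt_const)
          refine contDiffAt_pi.2 fun i => ?_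
          by_cases hij : i = j
          · subst hij
            simp only [Function.update_self]
            exact contDiffAt_id
          · simp only [Function.update_of_ne hij]
            exact contDiffAt_const
        exact ContMDiffAt.comp w h1 h2
      eqv := by
        intro g w hw
        have h1 : (g : Matrix.SpecialLinearGroup (Fin 2) ℝ) = 1 := Subgroup.mem_bot.1 g.2
        rw [h1]
        have h2 : mob 1 w = w := by
          unfold mob
          simp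
        rw [h2]
        simp }
  exact ⟨V.pull a, rfl, rfl, rfl, rfl, fun p w => rfl⟩

end MP2794d1.BW
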