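import Pool.Agent.Lib.MP_2794d1_ag.BW.ADefs
import Pool.Agent.Lib.MP_2794d1_ag.L01

/-!
S2: the Hodge norm at `z` of a variation over the half plane is the one of the point `x` if the Hodge structures agree: take `S, d`
adapted (`exists_adapted`), both sides are `∑ a, normSq ((S⁻¹ *ᵥ v) a)` (`qf_adapted`).
-/

namespace MP2794d1.BW

open Matrix Complex Filter Topology MP2794d1 MP2794d1.AH
open scoped ContDiff Manifold

variable {n m : ℕ} {X G : Type} [TopologicalSpace X] [ChartedSpace (Fin m → ℂ) X] [Group G] [MulAction G X]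

theorem qf_cst (V : MVHS n m X G) (x : X) (W : PolVHS n) (z : ℂ) (hz : 0 < z.im) (hwt : W.wt = V.wt)
    (hQ : W.Q = V.Q) (hF : ∀ p, W.F p z = V.F p x) (v : Fin n → ℂ) :
    qf W z v = qf (cst V x) Complex.I v := by
  obtain ⟨S, d, hS⟩ := exists_adapted (W.phs z hz)
  have h1 := qf_adapted W hz hS v
  have h2 : (fun p => W.F p z) = fun p => V.F p x := funext hF
  rw [h2, hwt, hQ] at hS
  have hI : 0 < Complex.I.im := by rw [Complex.I_im]; exact one_pos
  have h3 := qf_adapted (cst V x) hI (S := S) (d := d) hS v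
  rw [h1, h3]

end MP2794d1.BW
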