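import Pool.Agent.Lib.MP_2794d1_ag.BW.U1
import Pool.Agent.Lib.MP_2794d1_ag.L04

/-!
U8: polynomial growth of the Hodge norm (L04) with constants which depend only on `n` and `kc V`.
-/

namespace MP2794d1.BW

open Matrix Complex Filter Topology MP2794d1
open scoped ContDiff

theorem qf_growth_u (n : ℕ) (κ : ℝ) :
    ∃ (C : ℝ) (K : ℕ), 1 ≤ C ∧ ∀ (V : PolVHS n) (σ : Matrix.SpecialLinearGroup (Fin 2) ℝ), kc V = κ → ∀ w : ℂ, |w.re| ≤ 1 → 1 ≤ w.im → ∀ v : Fin n → ℂ,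
      qf V (mob σ w) v ≤ C * w.im ^ K * qf V (mob σ Complex.I) v ∧
      qf V (mob σ Complex.I) v ≤ C * w.im ^ K * qf V (mob σ w) v := by
  obtain ⟨C₀, hC₀, hcmp⟩ := qf_compare_u n κ
  set E : ℝ := Real.exp (C₀ / 2) with hE
  have hE1 : 1 ≤ E := Real.one_le_exp (by positivity)
  have hE0 : 0 < E := lt_of_lt_of_le one_pos hE1
  obtain ⟨K, hK⟩ : ∃ K : ℕ, E ≤ (4 / 3 : ℝ) ^ K := by
    obtain ⟨K, hK⟩ := pow_unbounded_of_one_lt E (by norm_num : (1 : ℝ) < 4 / 3)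
    exact ⟨K, hK.le⟩
  refine ⟨E ^ 4, K, one_le_pow₀ hE1, ?_⟩
  intro V σ hV
  replace hcmp := hcmp V hV
  have hstep : ∀ w₀ w₁ : ℂ, 0 < w₀.im → 0 < w₁.im → ‖w₁ - w₀‖ ≤ w₀.im / 3 → ∀ v : Fin n → ℂ,
      qf V (mob σ w₁) v ≤ E * qf V (mob σ w₀) v ∧ qf V (mob σ w₀) v ≤ E * qf V (mob σ w₁) v := by
    intro w₀ w₁ h0 h1 h v
    have him := mob_im_pos σ w₀ h0
    have him1 := mob_im_pos σ w₁ h1
    have h2 := L04_mob σ w₀ w₁ h0 h1 h
    have h3 := hcmp (mob σ w₀) (mob σ w₁) him h2 v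
    have h4 : Real.exp (C₀ * (‖mob σ w₁ - mob σ w₀‖ / (mob σ w₀).im)) ≤ E := by
      apply Real.exp_le_exp.2
      have h5 : ‖mob σ w₁ - mob σ w₀‖ / (mob σ w₀).im ≤ 1 / 2 := by
        rw [div_le_iff₀ him]
        linarith
      calc C₀ * (‖mob σ w₁ - mob σ w₀‖ / (mob σ w₀).im) ≤ C₀ * (1 / 2) :=
            mul_le_mul_of_nonneg_left h5 hC₀
        _ = C₀ / 2 := by ring
    exact ⟨h3.1.trans (mul_le_mul_of_nonneg_right h4 (qf_nonneg V him v)),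
      h3.2.trans (mul_le_mul_of_nonneg_right h4 (qf_nonneg V him1 v))⟩
  -- iterated steps
  have htrans : ∀ (A B : ℝ) (w₀ w₁ w₂ : ℂ), 0 ≤ A → 0 ≤ B → ∀ v : Fin n → ℂ,
      (qf V (mob σ w₁) v ≤ A * qf V (mob σ w₀) v ∧ qf V (mob σ w₀) v ≤ A * qf V (mob σ w₁) v) →
      (qf V (mob σ w₂) v ≤ B * qf V (mob σ w₁) v ∧ qf V (mob σ w₁) v ≤ B * qf V (mob σ w₂) v) →
      (qf V (mob σ w₂) v ≤ (A * B) * qf V (mob σ w₀) v ∧
        qf V (mob σ w₀) v ≤ (A * B) * qf V (mob σ w₂) v) := by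
    intro A B w₀ w₁ w₂ hA hB v h1 h2
    constructor
    · calc qf V (mob σ w₂) v ≤ B * qf V (mob σ w₁) v := h2.1
        _ ≤ B * (A * qf V (mob σ w₀) v) := mul_le_mul_of_nonneg_left h1.1 hB
        _ = (A * B) * qf V (mob σ w₀) v := by ring
    · calc qf V (mob σ w₀) v ≤ A * qf V (mob σ w₁) v := h1.2
        _ ≤ A * (B * qf V (mob σ w₂) v) := mul_le_mul_of_nonneg_left h2.2 hA
        _ = (A * B) * qf V (mob σ w₂) v := by ring
  -- vertical steps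
  have hvert : ∀ (k : ℕ) (v : Fin n → ℂ),
      qf V (mob σ ((((4 / 3 : ℝ) ^ k : ℝ) : ℂ) * Complex.I)) v ≤ E ^ k * qf V (mob σ Complex.I) v ∧
      qf V (mob σ Complex.I) v ≤ E ^ k * qf V (mob σ ((((4 / 3 : ℝ) ^ k : ℝ) : ℂ) * Complex.I)) v := by
    intro k v
    induction k with
    | zero => simp
    | succ k ih =>
      rw [pow_succ E k]
      apply htrans _ _ _ _ _ (pow_nonneg hE0.le k) hE0.le v ih
      have hp : (0 : ℝ) < (4 / 3) ^ k := by positivity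
      have hp1 : (0 : ℝ) < (4 / 3) ^ (k + 1) := by positivity
      apply hstep
      · rw [L04_im]
        exact hp
      · rw [L04_im]
        exact hp1
      · have h1 : (((4 / 3 : ℝ) ^ (k + 1) : ℝ) : ℂ) * Complex.I -
            (((4 / 3 : ℝ) ^ k : ℝ) : ℂ) * Complex.I =
            (((4 / 3 : ℝ) ^ k / 3 : ℝ) : ℂ) * Complex.I := by
          push_cast
          ring
        rw [h1, norm_mul, Complex.norm_I, mul_one, Complex.norm_real, Real.norm_eq_abs,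
          abs_of_pos (by positivity)]
        rw [L04_im]
  intro w hre him v
  obtain ⟨k, hk1, hk2⟩ := exists_nat_pow_near him (by norm_num : (1 : ℝ) < 4 / 3)
  have hw0 : 0 < w.im := lt_of_lt_of_le one_pos him
  have hEk : E ^ k ≤ w.im ^ K := by
    calc E ^ k ≤ ((4 / 3 : ℝ) ^ K) ^ k := pow_le_pow_left₀ hE0.le hK k
      _ = ((4 / 3 : ℝ) ^ k) ^ K := by rw [← pow_mul, ← pow_mul, mul_comm]
      _ ≤ w.im ^ K := pow_le_pow_left₀ (by positivity) hk1 K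
  -- from i (4/3)^k to i im w
  have hs1 := hstep ((((4 / 3 : ℝ) ^ k : ℝ) : ℂ) * Complex.I) ((w.im : ℂ) * Complex.I)
    (by
      rw [L04_im]
      positivity) (by simpa using hw0) (by
      have h1 : (w.im : ℂ) * Complex.I - (((4 / 3 : ℝ) ^ k : ℝ) : ℂ) * Complex.I =
          ((w.im - (4 / 3 : ℝ) ^ k : ℝ) : ℂ) * Complex.I := by
        push_cast
        ring
      rw [h1, norm_mul, Complex.norm_I, mul_one, Complex.norm_real, Real.norm_eq_abs,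
        abs_of_nonneg (by linarith)]
      rw [L04_im]
      rw [pow_succ] at hk2
      linarith) v
  have hhor : ∀ s t : ℝ, |t - s| ≤ 1 / 3 →
      qf V (mob σ (((t * w.re : ℝ) : ℂ) + (w.im : ℂ) * Complex.I)) v ≤
        E * qf V (mob σ (((s * w.re : ℝ) : ℂ) + (w.im : ℂ) * Complex.I)) v ∧
      qf V (mob σ (((s * w.re : ℝ) : ℂ) + (w.im : ℂ) * Complex.I)) v ≤
        E * qf V (mob σ (((t * w.re : ℝ) : ℂ) + (w.im : ℂ) * Complex.I)) v := by
    intro s t hst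
    apply hstep
    · simpa using hw0
    · simpa using hw0
    · have h1 : ((t * w.re : ℝ) : ℂ) + (w.im : ℂ) * Complex.I -
          (((s * w.re : ℝ) : ℂ) + (w.im : ℂ) * Complex.I) = (((t - s) * w.re : ℝ) : ℂ) := by
        push_cast
        ring
      rw [h1, Complex.norm_real, Real.norm_eq_abs, abs_mul]
      have h2 : (((s * w.re : ℝ) : ℂ) + (w.im : ℂ) * Complex.I).im = w.im := by simp
      rw [h2]
      calc |t - s| * |w.re| ≤ 1 / 3 * 1 := mul_le_mul hst hre (abs_nonneg _) (by norm_num)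
        _ ≤ w.im / 3 := by linarith
  have hh1 := hhor 0 (1 / 3) (by norm_num)
  have hh2 := hhor (1 / 3) (2 / 3) (by norm_num)
  have hh3 := hhor (2 / 3) 1 (by norm_num [abs_le])
  have e0 : (((0 * w.re : ℝ) : ℂ) + (w.im : ℂ) * Complex.I) = (w.im : ℂ) * Complex.I := by simp
  have e1 : (((1 * w.re : ℝ) : ℂ) + (w.im : ℂ) * Complex.I) = w := by
    rw [one_mul]
    exact Complex.re_add_im w
  rw [e0] at hh1
  rw [e1] at hh3
  have a1 := htrans _ _ _ _ _ (pow_nonneg hE0.le k) hE0.le v (hvert k v) hs1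
  have a2 := htrans _ _ _ _ _ (mul_nonneg (pow_nonneg hE0.le k) hE0.le) hE0.le v a1 hh1
  have a3 := htrans _ _ _ _ _ (mul_nonneg (mul_nonneg (pow_nonneg hE0.le k) hE0.le) hE0.le)
    hE0.le v a2 hh2
  have a4 := htrans _ _ _ _ _ (mul_nonneg (mul_nonneg (mul_nonneg (pow_nonneg hE0.le k) hE0.le)
    hE0.le) hE0.le) hE0.le v a3 hh3
  have hfac : E ^ k * E * E * E * E ≤ E ^ 4 * w.im ^ K := by
    calc E ^ k * E * E * E * E = E ^ 4 * E ^ k := by ring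
      _ ≤ E ^ 4 * w.im ^ K := mul_le_mul_of_nonneg_left hEk (by positivity)
  have hI : (0 : ℝ) < (Complex.I).im := by simp
  exact ⟨a4.1.trans (mul_le_mul_of_nonneg_right hfac (qf_nonneg V (mob_im_pos σ _ hI) v)),
    a4.2.trans (mul_le_mul_of_nonneg_right hfac (qf_nonneg V (mob_im_pos σ _ hw0) v))⟩

theorem growth_u (n : ℕ) (κ : ℝ) : ∃ (C : ℝ) (K : ℕ), 1 ≤ C ∧ ∀ V : PolVHS n, kc V = κ → ∀ w : ℂ, |w.re| ≤ 1 →
    1 ≤ w.im → ∀ v : Fin n → ℂ, qf V w v ≤ C * w.im ^ K * qf V Complex.I v := by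
  obtain ⟨C, K, hC, h⟩ := qf_growth_u n κ
  refine ⟨C, K, hC, fun V hV w h1 h2 v => ?_⟩
  have h3 : ∀ z : ℂ, mob 1 z = z := fun z => by simp [mob]
  have h4 := (h V 1 hV w h1 h2 v).1
  rwa [h3, h3] at h4

end MP2794d1.BW
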