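import Pool.Agent.Lib.MP_2794d1_ag.BW.S1
import Pool.Agent.Lib.MP_2794d1_ag.BW.S2
import Pool.Agent.Lib.MP_2794d1_ag.BW.U8
import Pool.Agent.Lib.MP_2794d1_ag.AH.A18

/-!
S3: growth of the Hodge norm in the chart. `growth_u n (kX V)` (U8) for the slices in the directions `u j` and `z` (S1), `qf_cst` (S2),
`kc_eq`. Induction over the finset of the coordinates `j` which have been replaced by `I`; then `z` is replaced by `I`; the points
`C.c I (fun _ => I) t`, `t ∈ T`, form a compact set (`C.hol`, continuity), `frX` (AH/A18). `growth_u` is applied with the standard basis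
vectors `v = Pi.single i 1`; the exponents are made equal by `1 ≤ im`.
-/

namespace MP2794d1.BW

open Matrix Complex Filter Topology MP2794d1 MP2794d1.AH
open scoped ContDiff Manifold

variable {n m k l : ℕ} {X G : Type} [TopologicalSpace X] [ChartedSpace (Fin m → ℂ) X]
  [IsManifold 𝓘(ℂ, Fin m → ℂ) ω X] [Group G] [MulAction G X]

omit [IsManifold 𝓘(ℂ, Fin m → ℂ) ω X] in
private theorem s3_nonneg (V : MVHS n m X G) (x : X) (v : Fin n → ℂ) : 0 ≤ qf (cst V x) Complex.I v :=
  qf_nonneg (cst V x) (by rw [Complex.I_im]; exact one_pos) v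

private theorem s3_u (V : MVHS n m X G) (C : BChart V k l) (A : ℝ) (K : ℕ)
    (hg : ∀ W : PolVHS n, kc W = kX V → ∀ w : ℂ, |w.re| ≤ 1 → 1 ≤ w.im →
      ∀ v : Fin n → ℂ, qf W w v ≤ A * w.im ^ K * qf W Complex.I v)
    (z : ℂ) (u : Fin k → ℂ) (t : Fin l → ℂ) (hz : 0 < z.im) (hu : ∀ j, 0 < (u j).im) (ht : t ∈ C.B)
    (j : Fin k) (h1 : |(u j).re| ≤ 1) (h2 : 1 ≤ (u j).im) (v : Fin n → ℂ) :
    qf (cst V (C.c z u t)) Complex.I v ≤
      A * (u j).im ^ K * qf (cst V (C.c z (Function.update u j Complex.I) t)) Complex.I v := by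
  obtain ⟨W, hwt, hQ, hlo, hhi, hF⟩ := exists_sliceU V C z u t hz hu ht j
  have h3 := hg W (kc_eq V W hlo hhi) (u j) h1 h2 v
  have h4 := qf_cst V (C.c z u t) W (u j) (hu j) hwt hQ (fun p => by
    rw [hF, Function.update_eq_self]) v
  have h5 := qf_cst V (C.c z (Function.update u j Complex.I) t) W Complex.I
    (by rw [Complex.I_im]; exact one_pos) hwt hQ (fun p => hF p Complex.I) v
  rwa [h4, h5] at h3

private theorem s3_z (V : MVHS n m X G) (C : BChart V k l) (A : ℝ) (K : ℕ)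
    (hg : ∀ W : PolVHS n, kc W = kX V → ∀ w : ℂ, |w.re| ≤ 1 → 1 ≤ w.im →
      ∀ v : Fin n → ℂ, qf W w v ≤ A * w.im ^ K * qf W Complex.I v)
    (z : ℂ) (u : Fin k → ℂ) (t : Fin l → ℂ) (hu : ∀ j, 0 < (u j).im) (ht : t ∈ C.B)
    (h1 : |z.re| ≤ 1) (h2 : 1 ≤ z.im) (v : Fin n → ℂ) :
    qf (cst V (C.c z u t)) Complex.I v ≤
      A * z.im ^ K * qf (cst V (C.c Complex.I u t)) Complex.I v := by
  obtain ⟨W, -, hwt, hQ, hlo, hhi, -, hF⟩ := exists_sliceZ V C u t hu ht
  have h3 := hg W (kc_eq V W hlo hhi) z h1 h2 v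
  have h4 := qf_cst V (C.c z u t) W z (by linarith) hwt hQ (fun p => hF p z) v
  have h5 := qf_cst V (C.c Complex.I u t) W Complex.I
    (by rw [Complex.I_im]; exact one_pos) hwt hQ (fun p => hF p Complex.I) v
  rwa [h4, h5] at h3

private theorem s3_ind (V : MVHS n m X G) (C : BChart V k l) (A : ℝ) (K : ℕ) (hA : 1 ≤ A)
    (hg : ∀ W : PolVHS n, kc W = kX V → ∀ w : ℂ, |w.re| ≤ 1 → 1 ≤ w.im →
      ∀ v : Fin n → ℂ, qf W w v ≤ A * w.im ^ K * qf W Complex.I v)
    (z : ℂ) (u : Fin k → ℂ) (t : Fin l → ℂ) (hz : 0 < z.im) (ht : t ∈ C.B)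
    (hu : ∀ j, |(u j).re| ≤ 1 ∧ 1 ≤ (u j).im) (v : Fin n → ℂ) (s : Finset (Fin k)) :
    qf (cst V (C.c z u t)) Complex.I v ≤ A ^ s.card * (∏ j ∈ s, (u j).im) ^ K *
      qf (cst V (C.c z (fun j => if j ∈ s then Complex.I else u j) t)) Complex.I v := by
  induction s using Finset.induction_on with
  | empty => simp
  | insert a s ha ih =>
    obtain ⟨us, hus⟩ : ∃ us : Fin k → ℂ, us = fun j => if j ∈ s then Complex.I else u j := ⟨_, rfl⟩
    have hpos : ∀ j, 0 < (us j).im := by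
      intro j
      rw [hus]
      simp only
      split_ifs
      · rw [Complex.I_im]
        exact one_pos
      · linarith [(hu j).2]
    have hua : us a = u a := by
      rw [hus]
      simp only
      rw [if_neg ha]
    have h1 := s3_u V C A K hg z us t hz hpos ht a (by rw [hua]; exact (hu a).1)
      (by rw [hua]; exact (hu a).2) v
    have h2 : Function.update us a Complex.I = fun j => if j ∈ insert a s then Complex.I else u j := by
      funext j
      by_cases h : j = a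
      · subst h
        rw [Function.update_self, if_pos (Finset.mem_insert_self j s)]
      · rw [Function.update_of_ne h, hus]
        simp only [Finset.mem_insert, h, false_or]
    rw [h2, hua] at h1
    rw [← hus] at ih
    have hP : 0 ≤ A ^ s.card * (∏ j ∈ s, (u j).im) ^ K := by
      have h3 : 0 ≤ ∏ j ∈ s, (u j).im := Finset.prod_nonneg fun j _ => by linarith [(hu j).2]
      positivity
    have h3 := mul_le_mul_of_nonneg_left h1 hP
    rw [Finset.card_insert_of_notMem ha, Finset.prod_insert ha, pow_succ, mul_pow]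
    refine (ih.trans h3).trans (le_of_eq ?_)
    ring

private theorem s3_compact (V : MVHS n m X G) (C : BChart V k l) (T : Set (Fin l → ℂ))
    (hT : IsCompact T) (hTB : T ⊆ C.B) :
    IsCompact ((fun t => C.c Complex.I (fun _ => Complex.I) t) '' T) := by
  refine hT.image_of_continuousOn fun t ht => ContinuousAt.continuousWithinAt ?_
  have hI : (0 : ℝ) < Complex.I.im := by rw [Complex.I_im]; exact one_pos
  have h1 := (C.hol Complex.I (fun _ => Complex.I) t hI (fun _ => hI) (hTB ht)).continuousAt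
  have h2 : ContinuousAt (fun t : Fin l → ℂ =>
      ((Complex.I, (fun _ => Complex.I : Fin k → ℂ), t) : ℂ × (Fin k → ℂ) × (Fin l → ℂ))) t :=
    (continuous_const.prodMk (continuous_const.prodMk continuous_id)).continuousAt
  exact ContinuousAt.comp (f := fun t : Fin l → ℂ =>
      ((Complex.I, (fun _ => Complex.I : Fin k → ℂ), t) : ℂ × (Fin k → ℂ) × (Fin l → ℂ))) h1 h2

theorem chart_growth (V : MVHS n m X G) (C : BChart V k l) (T : Set (Fin l → ℂ)) (hT : IsCompact T)
    (hTB : T ⊆ C.B) : ∃ (C₀ : ℝ) (K : ℕ), 1 ≤ C₀ ∧ ∀ (z : ℂ) (u : Fin k → ℂ) (t : Fin l → ℂ), t ∈ T →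
      |z.re| ≤ 1 → 1 ≤ z.im → (∀ j, |(u j).re| ≤ 1 ∧ 1 ≤ (u j).im) →
        ∀ i, qf (cst V (C.c z u t)) Complex.I (Pi.single i 1) ≤ C₀ * (z.im * ∏ j, (u j).im) ^ K := by
  obtain ⟨A, K, hA, hg⟩ := growth_u n (kX V)
  obtain ⟨b, hb⟩ := frX V _ (s3_compact V C T hT hTB)
  have hAk : (1 : ℝ) ≤ A ^ (k + 1) := one_le_pow₀ hA
  have hb0 : 0 ≤ |b| := abs_nonneg b
  refine ⟨A ^ (k + 1) * (1 + |b|), K, by nlinarith, fun z u t ht h1 h2 hu i => ?_⟩
  have hz : 0 < z.im := by linarith
  have hI : (0 : ℝ) < Complex.I.im := by rw [Complex.I_im]; exact one_pos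
  have h3 := s3_ind V C A K hA hg z u t hz (hTB ht) hu (Pi.single i 1) Finset.univ
  have h4 : (fun j : Fin k => if j ∈ (Finset.univ : Finset (Fin k)) then Complex.I else u j) =
      fun _ => Complex.I := by
    funext j
    rw [if_pos (Finset.mem_univ j)]
  rw [h4, Finset.card_univ, Fintype.card_fin] at h3
  have h5 := s3_z V C A K hg z (fun _ => Complex.I) t (fun _ => hI) (hTB ht) h1 h2 (Pi.single i 1)
  have h6 : qf (cst V (C.c Complex.I (fun _ => Complex.I) t)) Complex.I (Pi.single i 1) ≤ 1 + |b| := by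
    have h7 := hb _ ⟨t, ht, rfl⟩ i
    have h8 := le_abs_self b
    linarith
  have hprod : 0 ≤ ∏ j, (u j).im := Finset.prod_nonneg fun j _ => by linarith [(hu j).2]
  have hzK : 0 ≤ A * z.im ^ K := by positivity
  have h7 := h5.trans (mul_le_mul_of_nonneg_left h6 hzK)
  have hP : 0 ≤ A ^ k * (∏ j, (u j).im) ^ K := by positivity
  refine (h3.trans (mul_le_mul_of_nonneg_left h7 hP)).trans (le_of_eq ?_)
  rw [mul_pow, pow_succ]
  ring

end MP2794d1.BW
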