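import Pool.Agent.Lib.MP_2794d1_ag.L03

/-!
U1: the comparison of Hodge norms (L03) with constants which depend only on `n` and `kc V`.
-/

namespace MP2794d1.BW

open Matrix Complex Filter Topology MP2794d1
open scoped ContDiff

theorem qf_compare_u (n : ℕ) (κ : ℝ) : ∃ C : ℝ, 0 ≤ C ∧ ∀ V : PolVHS n, kc V = κ → ∀ z₀ z₁ : ℂ, 0 < z₀.im →
    ‖z₁ - z₀‖ ≤ z₀.im / 2 → ∀ v : Fin n → ℂ,
      qf V z₁ v ≤ Real.exp (C * (‖z₁ - z₀‖ / z₀.im)) * qf V z₀ v ∧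
      qf V z₀ v ≤ Real.exp (C * (‖z₁ - z₀‖ / z₀.im)) * qf V z₁ v := by
  refine ⟨8 * Real.sqrt (2 / κ), by positivity, ?_⟩
  rintro V rfl z₀ z₁ hz₀ hd v
  have him : ∀ t ∈ Set.Icc (0 : ℝ) 1, z₀.im / 2 ≤ (z₀ + (t : ℂ) * (z₁ - z₀)).im := by
    intro t ht
    have h1 : (z₀ + (t : ℂ) * (z₁ - z₀)).im = z₀.im + t * (z₁ - z₀).im := by
      simp [Complex.add_im, Complex.mul_im]
    rw [h1]
    have h2 : |(z₁ - z₀).im| ≤ z₀.im / 2 := (Complex.abs_im_le_norm _).trans hd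
    have h3 : |t * (z₁ - z₀).im| ≤ z₀.im / 2 := by
      rw [abs_mul, abs_of_nonneg ht.1]
      calc t * |(z₁ - z₀).im| ≤ 1 * (z₀.im / 2) :=
            mul_le_mul ht.2 h2 (abs_nonneg _) zero_le_one
        _ = _ := one_mul _
    have := (abs_le.mp h3).1
    linarith
  have hγ : ∀ t : ℝ, HasDerivAt (fun t : ℝ => z₀ + (t : ℂ) * (z₁ - z₀)) (z₁ - z₀) t := by
    intro t
    have h1 : HasDerivAt (fun t : ℝ => (t : ℂ)) 1 t := (hasDerivAt_id t).ofReal_comp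
    have h2 := (h1.mul_const (z₁ - z₀)).const_add z₀
    rwa [one_mul] at h2
  have hder : ∀ t ∈ Set.Icc (0 : ℝ) 1,
      HasDerivAt (fun t : ℝ => qf V (z₀ + (t : ℂ) * (z₁ - z₀)) v)
        (fderiv ℝ (fun y => qf V y v) (z₀ + (t : ℂ) * (z₁ - z₀)) (z₁ - z₀)) t := by
    intro t ht
    have hp : 0 < (z₀ + (t : ℂ) * (z₁ - z₀)).im := lt_of_lt_of_le (by linarith) (him t ht)
    have hs : DifferentiableAt ℝ (fun y => qf V y v) (z₀ + (t : ℂ) * (z₁ - z₀)) :=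
      (qf_smooth V hp v).differentiableAt (by simp)
    exact HasFDerivAt.comp_hasDerivAt (l := fun y => qf V y v)
      (f := fun t : ℝ => z₀ + (t : ℂ) * (z₁ - z₀)) t hs.hasFDerivAt (hγ t)
  have hbd : ∀ t ∈ Set.Icc (0 : ℝ) 1,
      |fderiv ℝ (fun y => qf V y v) (z₀ + (t : ℂ) * (z₁ - z₀)) (z₁ - z₀)|
        ≤ 8 * Real.sqrt (2 / kc V) * (‖z₁ - z₀‖ / z₀.im) *
            qf V (z₀ + (t : ℂ) * (z₁ - z₀)) v := by
    intro t ht
    have hp : 0 < (z₀ + (t : ℂ) * (z₁ - z₀)).im := lt_of_lt_of_le (by linarith) (him t ht)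
    have h1 := qf_deriv V hp v (z₁ - z₀)
    have h2 := L03_eV V hz₀ (him t ht)
    have h3 := qf_nonneg V hp v
    refine h1.trans ?_
    apply mul_le_mul_of_nonneg_right _ h3
    calc 4 * Real.sqrt (eV V (z₀ + (t : ℂ) * (z₁ - z₀))) * ‖z₁ - z₀‖
        ≤ 4 * (2 * Real.sqrt (2 / kc V) / z₀.im) * ‖z₁ - z₀‖ := by gcongr
      _ = _ := by ring
  have h := L03_gronwall hder hbd
  simp only [Complex.ofReal_one, Complex.ofReal_zero, one_mul, zero_mul, add_zero,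
    add_sub_cancel] at h
  exact h

theorem conv_entries_u (n : ℕ) (κ : ℝ) : ∃ C : ℝ, 0 ≤ C ∧ ∀ V : PolVHS n, kc V = κ → ∀ z₀ z₁ : ℂ, 0 < z₀.im →
    ‖z₁ - z₀‖ ≤ z₀.im / 2 → ∀ (S S' : Matrix (Fin n) (Fin n) ℂ) (d d' : Fin n → ℤ),
      Adapted V.wt V.Q (fun p => V.F p z₀) S d → Adapted V.wt V.Q (fun p => V.F p z₁) S' d' →
      ∀ a b, ‖(S⁻¹ * S') a b‖ ≤ C ∧ ‖(S'⁻¹ * S) a b‖ ≤ C := by
  obtain ⟨C, hC, hqc⟩ := qf_compare_u n κ
  refine ⟨Real.exp (C * (1 / 2)), (Real.exp_pos _).le, ?_⟩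
  intro V hV z₀ z₁ hz₀ hd S S' d d' hS hS' a b
  have hz₁ : 0 < z₁.im := by
    have h2 : |(z₁ - z₀).im| ≤ z₀.im / 2 := (Complex.abs_im_le_norm _).trans hd
    have h3 := (abs_le.mp h2).1
    rw [Complex.sub_im] at h3
    linarith
  have hE : 1 ≤ Real.exp (C * (1 / 2)) := Real.one_le_exp (by positivity)
  have hexp : Real.exp (C * (‖z₁ - z₀‖ / z₀.im)) ≤ Real.exp (C * (1 / 2)) := by
    apply Real.exp_le_exp.mpr
    apply mul_le_mul_of_nonneg_left _ hC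
    rw [div_le_div_iff₀ hz₀ (by norm_num)]
    linarith
  constructor
  · refine L03_entry V hz₀ hz₁ hE ?_ hS hS' a b
    intro v
    exact (hqc V hV z₀ z₁ hz₀ hd v).2.trans
      (mul_le_mul_of_nonneg_right hexp (qf_nonneg V hz₁ v))
  · refine L03_entry V hz₁ hz₀ hE ?_ hS' hS a b
    intro v
    exact (hqc V hV z₀ z₁ hz₀ hd v).1.trans
      (mul_le_mul_of_nonneg_right hexp (qf_nonneg V hz₀ v))

end MP2794d1.BW
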