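import Pool.Agent.Lib.MP_2794d1_ag.BW.U1
import Pool.Agent.Lib.MP_2794d1_ag.P02

/-!
U2: the speed of the Hodge projectors (P02) with constants which depend only on `n` and `kc V`.
-/

namespace MP2794d1.BW

open Matrix Complex Filter Topology MP2794d1
open scoped ContDiff

theorem speed_u (n : ℕ) (κ : ℝ) : ∃ C : ℝ, 0 ≤ C ∧ ∀ V : PolVHS n, kc V = κ → ∀ z₀ z₁ : ℂ, 0 < z₀.im →
    ‖z₁ - z₀‖ ≤ z₀.im / 2 → ∀ (S : Matrix (Fin n) (Fin n) ℂ) (d : Fin n → ℤ),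
      Adapted V.wt V.Q (fun p => V.F p z₀) S d → ∀ (ζ : ℂ) (p : ℤ) (a b : Fin n),
      ‖(S⁻¹ * (ζ • Dz (PiV V p) z₁ + (starRingEnd ℂ) ζ • Db (PiV V p) z₁) * S) a b‖
        ≤ C * (‖ζ‖ / z₀.im) := by
  obtain ⟨C, hC, hconv⟩ := conv_entries_u n κ
  refine ⟨(n : ℝ) * (n * (C * (4 * Real.sqrt (2 / κ))) * C), by positivity, ?_⟩
  rintro V rfl z₀ z₁ hz₀ hz S d hS ζ p a b
  replace hconv := hconv V rfl
  have hz₁ : z₀.im / 2 ≤ z₁.im := by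
    have h1 : |(z₁ - z₀).im| ≤ ‖z₁ - z₀‖ := Complex.abs_im_le_norm _
    rw [Complex.sub_im] at h1
    have h3 := (abs_le.1 h1).1
    linarith
  have hz₁0 : 0 < z₁.im := by linarith
  obtain ⟨S', d', hS'⟩ := exists_adapted (V.phs z₁ hz₁0)
  have hs : S' * S'⁻¹ = 1 := Matrix.mul_nonsing_inv _ hS'.inv
  obtain ⟨X, hX⟩ : ∃ X, X = ζ • Dz (PiV V p) z₁ + (starRingEnd ℂ) ζ • Db (PiV V p) z₁ := ⟨_, rfl⟩
  rw [← hX]
  have hk := kc_pos V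
  have hev : Real.sqrt (eV V z₁) ≤ 2 * Real.sqrt (2 / kc V) / z₀.im := by
    apply Real.sqrt_le_iff.2
    refine ⟨by positivity, (eV_bound V z₁ hz₁0).trans ?_⟩
    have e1 : (2 * Real.sqrt (2 / kc V) / z₀.im) ^ 2 = 2 / (kc V * (z₀.im / 2) ^ 2) := by
      rw [div_pow, mul_pow, Real.sq_sqrt (by positivity)]
      field_simp
    rw [e1]
    gcongr
  have hXe : ∀ i j, ‖(S'⁻¹ * X * S') i j‖ ≤ 4 * Real.sqrt (2 / kc V) * (‖ζ‖ / z₀.im) := by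
    intro i j
    obtain ⟨h1, h2⟩ := Pi_deriv_entries V hz₁0 hS' p i j
    have e1 : S'⁻¹ * X * S' = ζ • (S'⁻¹ * Dz (PiV V p) z₁ * S') +
        (starRingEnd ℂ) ζ • (S'⁻¹ * Db (PiV V p) z₁ * S') := by
      rw [hX, Matrix.mul_add, Matrix.add_mul, Matrix.mul_smul, Matrix.mul_smul, Matrix.smul_mul,
        Matrix.smul_mul]
    rw [e1, Matrix.add_apply, Matrix.smul_apply, Matrix.smul_apply, smul_eq_mul, smul_eq_mul]
    calc ‖ζ * (S'⁻¹ * Dz (PiV V p) z₁ * S') i j +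
          (starRingEnd ℂ) ζ * (S'⁻¹ * Db (PiV V p) z₁ * S') i j‖
        ≤ ‖ζ‖ * ‖(S'⁻¹ * Dz (PiV V p) z₁ * S') i j‖ +
          ‖ζ‖ * ‖(S'⁻¹ * Db (PiV V p) z₁ * S') i j‖ := by
          refine (norm_add_le _ _).trans ?_
          rw [norm_mul, norm_mul, RCLike.norm_conj]
      _ ≤ ‖ζ‖ * (2 * Real.sqrt (2 / kc V) / z₀.im) + ‖ζ‖ * (2 * Real.sqrt (2 / kc V) / z₀.im) := by
          gcongr
          · exact h1.trans hev
          · exact h2.trans hev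
      _ = _ := by ring
  have hc := hconv z₀ z₁ hz₀ hz S S' d d' hS hS'
  have e2 : S⁻¹ * X * S = (S⁻¹ * S') * (S'⁻¹ * X * S') * (S'⁻¹ * S) := by
    calc S⁻¹ * X * S = S⁻¹ * 1 * X * 1 * S := by simp only [Matrix.mul_one]
      _ = _ := by
          rw [← hs]
          simp only [Matrix.mul_assoc]
  rw [e2]
  have h3 := mul_entries (mul_entries (fun i j => (hc i j).1) hXe) (fun i j => (hc i j).2) a b
  refine h3.trans (le_of_eq ?_)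
  ring

theorem Pi_close_u (n : ℕ) (κ : ℝ) : ∃ C : ℝ, 0 ≤ C ∧ ∀ V : PolVHS n, kc V = κ → ∀ z₀ z₁ : ℂ, 0 < z₀.im →
    ‖z₁ - z₀‖ ≤ z₀.im / 2 → ∀ (S : Matrix (Fin n) (Fin n) ℂ) (d : Fin n → ℤ),
      Adapted V.wt V.Q (fun p => V.F p z₀) S d → ∀ p a b,
      ‖(S⁻¹ * (PiV V p z₁ - PiV V p z₀) * S) a b‖ ≤ C * (‖z₁ - z₀‖ / z₀.im) := by
  obtain ⟨C, hC, hsp⟩ := speed_u n κ
  refine ⟨C, hC, fun V hV z₀ z₁ hz₀ hz S d hS p a b => ?_⟩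
  replace hsp := hsp V hV
  obtain ⟨ζ, hζ⟩ : ∃ ζ, ζ = z₁ - z₀ := ⟨_, rfl⟩
  rw [← hζ] at hz ⊢
  have hseg : ∀ t : ℝ, t ∈ Set.Icc (0 : ℝ) 1 → ‖z₀ + t * ζ - z₀‖ ≤ z₀.im / 2 := by
    intro t ht
    rw [add_sub_cancel_left, norm_mul, Complex.norm_real, Real.norm_of_nonneg ht.1]
    calc t * ‖ζ‖ ≤ 1 * ‖ζ‖ := by gcongr; exact ht.2
      _ ≤ _ := by rw [one_mul]; exact hz
  have him : ∀ t : ℝ, t ∈ Set.Icc (0 : ℝ) 1 → 0 < (z₀ + t * ζ).im := by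
    intro t ht
    have h1 : |(z₀ + t * ζ - z₀).im| ≤ ‖z₀ + t * ζ - z₀‖ := Complex.abs_im_le_norm _
    have h2 := hseg t ht
    rw [Complex.sub_im] at h1
    have h3 := (abs_le.1 h1).1
    linarith
  have hder : ∀ t : ℝ, t ∈ Set.Icc (0 : ℝ) 1 → HasDerivWithinAt
      (fun t : ℝ => (S⁻¹ * PiV V p (z₀ + t * ζ) * S) a b)
      ((S⁻¹ * (ζ • Dz (PiV V p) (z₀ + t * ζ) +
        (starRingEnd ℂ) ζ • Db (PiV V p) (z₀ + t * ζ)) * S) a b) (Set.Icc 0 1) t := by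
    intro t ht
    apply HasDerivAt.hasDerivWithinAt
    have hline : HasDerivAt (fun t : ℝ => z₀ + t * ζ) ζ t := by
      have h1 : HasDerivAt (fun t : ℝ => (t : ℂ)) 1 t := Complex.ofRealCLM.hasDerivAt
      simpa using (h1.mul_const ζ).const_add z₀
    have hent : ∀ i j, HasDerivAt (fun t : ℝ => PiV V p (z₀ + t * ζ) i j)
        ((ζ • Dz (PiV V p) (z₀ + t * ζ) + (starRingEnd ℂ) ζ • Db (PiV V p) (z₀ + t * ζ)) i j) t := by
      intro i j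
      have h1 := (smooth_diff (Pi_smooth V p (him t ht) i j)).hasFDerivAt
      have h2 := h1.comp_hasDerivAt t hline
      have h3 : fderiv ℝ (fun y => PiV V p y i j) (z₀ + t * ζ) ζ =
          (ζ • Dz (PiV V p) (z₀ + t * ζ) +
            (starRingEnd ℂ) ζ • Db (PiV V p) (z₀ + t * ζ)) i j :=
        pd_eq (f := fun y => PiV V p y i j) ζ
      rw [h3] at h2
      exact h2
    have e1 : ∀ M : Matrix (Fin n) (Fin n) ℂ, (S⁻¹ * M * S) a b =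
        ∑ j, (∑ i, S⁻¹ a i * M i j) * S j b := by
      intro M
      rw [Matrix.mul_apply]
      refine Finset.sum_congr rfl fun j _ => ?_
      rw [Matrix.mul_apply]
    simp only [e1]
    refine HasDerivAt.fun_sum fun j _ => ?_
    refine HasDerivAt.mul_const ?_ _
    refine HasDerivAt.fun_sum fun i _ => ?_
    exact (hent i j).const_mul _
  have hbd : ∀ t ∈ Set.Ico (0 : ℝ) 1, ‖(S⁻¹ * (ζ • Dz (PiV V p) (z₀ + t * ζ) +
      (starRingEnd ℂ) ζ • Db (PiV V p) (z₀ + t * ζ)) * S) a b‖ ≤ C * (‖ζ‖ / z₀.im) := by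
    intro t ht
    exact hsp z₀ (z₀ + t * ζ) hz₀ (hseg t ⟨ht.1, ht.2.le⟩) S d hS ζ p a b
  have hfin := norm_image_sub_le_of_norm_deriv_le_segment_01' hder hbd
  have e3 : (S⁻¹ * (PiV V p z₁ - PiV V p z₀) * S) a b =
      (S⁻¹ * PiV V p (z₀ + ((1 : ℝ) : ℂ) * ζ) * S) a b -
        (S⁻¹ * PiV V p (z₀ + ((0 : ℝ) : ℂ) * ζ) * S) a b := by
    have h1 : z₀ + ((1 : ℝ) : ℂ) * ζ = z₁ := by rw [hζ]; push_cast; ring
    have h0 : z₀ + ((0 : ℝ) : ℂ) * ζ = z₀ := by push_cast; ring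
    rw [h1, h0, Matrix.mul_sub, Matrix.sub_mul, Matrix.sub_apply]
  rw [e3]
  exact hfin

end MP2794d1.BW
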