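import Pool.Agent.Lib.MP_2794d1_ag.BW.U1
import Pool.Agent.Lib.MP_2794d1_ag.M02

/-!
U3: the monodromy logarithm in an adapted basis (M02) with constants which depend only on `n` and `kc V`.
-/

namespace MP2794d1.BW

open Matrix Complex Filter Topology MP2794d1
open scoped ContDiff

theorem entries_u (n : ℕ) (κ : ℝ) : ∃ B : ℝ, 0 ≤ B ∧
    ∀ (V : PolVHS n) (c : UCusp V), kc V = κ → ∀ z : ℂ, 0 < z.im → ∀ (S : Matrix (Fin n) (Fin n) ℂ) (d : Fin n → ℤ),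
      Adapted V.wt V.Q (fun p => V.F p z) S d →
      ∀ m : ℕ, (m : ℝ) ≤ z.im / 2 → ∀ a b, ‖(S⁻¹ * uexp (cm c.N) m * S) a b‖ ≤ B := by
  obtain ⟨C, hC, hcmp⟩ := qf_compare_u n κ
  refine ⟨Real.exp (C / 2), (Real.exp_pos _).le, fun V c hV z hz S d hS m hm a b => ?_⟩
  replace hcmp := hcmp V hV
  have hz' : 0 < (z - (m : ℂ)).im := by simpa using hz
  have hcol : ∀ (M : Matrix (Fin n) (Fin n) ℂ), ∀ i, (M *ᵥ Pi.single b 1) i = M i b := by
    intro M i
    rw [Matrix.mulVec_single_one]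
    rfl
  have hinv : S⁻¹ * S = 1 := Matrix.nonsing_inv_mul _ hS.inv
  have h1 : qf V z (S *ᵥ Pi.single b 1) = 1 := by
    rw [qf_adapted V hz hS, Matrix.mulVec_mulVec, hinv]
    rw [Finset.sum_eq_single b]
    · rw [hcol]; simp
    · intro i _ hi
      rw [hcol, Matrix.one_apply_ne hi]
      simp
    · intro h
      exact absurd (Finset.mem_univ b) h
  have h2 := qf_shift V c m (z - m) hz' (S *ᵥ Pi.single b 1)
  rw [sub_add_cancel] at h2
  have hdist : ‖z - (m : ℂ) - z‖ = m := by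
    rw [sub_sub_cancel_left, norm_neg]
    simp
  have h3 := (hcmp z (z - m) hz (by rw [hdist]; exact hm) (S *ᵥ Pi.single b 1)).1
  rw [h1, mul_one, hdist, ← h2] at h3
  have h4 : Real.exp (C * ((m : ℝ) / z.im)) ≤ Real.exp (C / 2) := by
    rw [Real.exp_le_exp]
    have : (m : ℝ) / z.im ≤ 1 / 2 := by
      rw [div_le_div_iff₀ hz (by norm_num)]
      linarith
    calc C * ((m : ℝ) / z.im) ≤ C * (1 / 2) := by gcongr
      _ = C / 2 := by ring
  have h5 : Complex.normSq ((S⁻¹ * uexp (cm c.N) m * S) a b) ≤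
      qf V z (uexp (cm c.N) m *ᵥ (S *ᵥ Pi.single b 1)) := by
    rw [qf_adapted V hz hS]
    have e : S⁻¹ *ᵥ (uexp (cm c.N) m *ᵥ (S *ᵥ Pi.single b 1)) =
        (S⁻¹ * uexp (cm c.N) m * S) *ᵥ Pi.single b 1 := by
      simp only [Matrix.mulVec_mulVec, Matrix.mul_assoc]
    rw [e]
    have := Finset.single_le_sum (f := fun i =>
      Complex.normSq (((S⁻¹ * uexp (cm c.N) m * S) *ᵥ Pi.single b 1) i))
      (fun i _ => Complex.normSq_nonneg _) (Finset.mem_univ a)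
    simp only [hcol] at this ⊢
    exact this
  have h6 : ‖(S⁻¹ * uexp (cm c.N) m * S) a b‖ ^ 2 ≤ Real.exp (C / 2) := by
    rw [← Complex.normSq_eq_norm_sq]
    linarith
  have h7 : 1 ≤ Real.exp (C / 2) := Real.one_le_exp (by positivity)
  have h8 := norm_nonneg ((S⁻¹ * uexp (cm c.N) m * S) a b)
  nlinarith

theorem MN_pow_u (n : ℕ) (κ : ℝ) : ∃ C Y : ℝ, 0 ≤ C ∧ 1 ≤ Y ∧
    ∀ (V : PolVHS n) (c : UCusp V), kc V = κ → ∀ z : ℂ, Y ≤ z.im → ∀ (S : Matrix (Fin n) (Fin n) ℂ) (d : Fin n → ℤ),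
      Adapted V.wt V.Q (fun p => V.F p z) S d →
      ∀ j : ℕ, j < n → ∀ a b, ‖(S⁻¹ * cm c.N ^ j * S) a b‖ ≤ C / z.im ^ j := by
  obtain ⟨B, hB, hent⟩ := entries_u n κ
  obtain ⟨C₁, hC₁, hint⟩ := nil_interp n
  refine ⟨C₁ * B * (4 * n + 1) ^ n, 2 * n + 1, by positivity, ?_, ?_⟩
  · have : (0 : ℝ) ≤ n := Nat.cast_nonneg n
    linarith
  intro V c hV z hz S d hS j hj a b
  replace hent := hent V c hV
  have hn : (1 : ℝ) ≤ n := by
    have : 1 ≤ n := by omega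
    exact_mod_cast this
  have hz0 : 0 < z.im := by linarith
  obtain ⟨k, hk⟩ : ∃ k : ℕ, k = ⌊z.im / (2 * n)⌋₊ := ⟨_, rfl⟩
  have ht : 1 ≤ z.im / (2 * n) := by
    rw [le_div_iff₀ (by positivity)]
    linarith
  have hk1 : (k : ℝ) ≤ z.im / (2 * n) := by
    rw [hk]
    exact Nat.floor_le (by positivity)
  have hk2 : z.im / (4 * n) ≤ k := by
    have h1 : z.im / (2 * n) < k + 1 := by
      rw [hk]
      exact Nat.lt_floor_add_one _
    have h2 : (1 : ℝ) ≤ k := by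
      have : 1 ≤ k := by
        rw [hk]
        exact (Nat.one_le_floor_iff _).2 ht
      exact_mod_cast this
    have h3 : z.im / (4 * n) = z.im / (2 * n) / 2 := by ring
    rw [h3]
    linarith
  have hk0 : (0 : ℝ) < k := lt_of_lt_of_le (by positivity) hk2
  have h1 := hint (S⁻¹ * cm c.N * S) k B hk0 (fun m hm a b => by
    have e1 : (((m * k : ℝ) : ℝ) : ℂ) = ((m * k : ℕ) : ℂ) := by push_cast; ring
    rw [e1, uexp_conj _ _ hS.inv]
    refine hent z hz0 S d hS (m * k) ?_ a b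
    have hmn : (m : ℝ) ≤ n := by exact_mod_cast hm.le
    push_cast
    calc (m : ℝ) * k ≤ n * (z.im / (2 * n)) := by gcongr
      _ = z.im / 2 := by field_simp) j hj a b
  rw [pow_conj _ _ hS.inv] at h1
  refine h1.trans ?_
  have h2 : (z.im / (4 * n)) ^ j ≤ (k : ℝ) ^ j := by gcongr
  have h3 : (4 * (n : ℝ)) ^ j ≤ (4 * n + 1) ^ n := by
    calc (4 * (n : ℝ)) ^ j ≤ (4 * n + 1) ^ j := by gcongr; linarith
      _ ≤ (4 * n + 1) ^ n := pow_le_pow_right₀ (by linarith) hj.le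
  calc C₁ * B / (k : ℝ) ^ j ≤ C₁ * B / (z.im / (4 * n)) ^ j := by gcongr
    _ = C₁ * B * (4 * n) ^ j / z.im ^ j := by
        rw [div_pow]
        field_simp
    _ ≤ C₁ * B * (4 * n + 1) ^ n / z.im ^ j := by gcongr

theorem MN_exp_u (n : ℕ) (κ : ℝ) : ∃ C Y : ℝ, 0 ≤ C ∧ 1 ≤ Y ∧
    ∀ (V : PolVHS n) (c : UCusp V), kc V = κ → ∀ z : ℂ, Y ≤ z.im → ∀ (S : Matrix (Fin n) (Fin n) ℂ) (d : Fin n → ℤ),
      Adapted V.wt V.Q (fun p => V.F p z) S d →
      ∀ s : ℂ, ‖s‖ ≤ z.im → ∀ a b,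
        ‖(S⁻¹ * (uexp (cm c.N) s - 1) * S) a b‖ ≤ C * (‖s‖ / z.im) := by
  obtain ⟨C, Y, hC, hY, hpow⟩ := MN_pow_u n κ
  refine ⟨n * C, Y, by positivity, hY, fun V c hV z hz S d hS s hs a b => ?_⟩
  replace hpow := hpow V c hV
  have hz0 : 0 < z.im := by linarith
  obtain ⟨k, rfl⟩ : ∃ k, n = k + 1 := ⟨n - 1, by have := a.isLt; omega⟩
  have h1 : S⁻¹ * (uexp (cm c.N) s - 1) * S =
      ∑ j ∈ Finset.range k, (s ^ (j + 1) / ((j + 1).factorial : ℂ)) •
        (S⁻¹ * cm c.N ^ (j + 1) * S) := by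
    have e1 : uexp (cm c.N) s - 1 = ∑ j ∈ Finset.range k,
        (s ^ (j + 1) / ((j + 1).factorial : ℂ)) • cm c.N ^ (j + 1) := by
      unfold uexp
      rw [Finset.sum_range_succ']
      simp
    rw [e1, Finset.mul_sum, Finset.sum_mul]
    refine Finset.sum_congr rfl fun j _ => ?_
    rw [Matrix.mul_smul, Matrix.smul_mul]
  rw [h1, Matrix.sum_apply]
  have hr : ‖s‖ / z.im ≤ 1 := (div_le_one hz0).2 hs
  have hr0 : 0 ≤ ‖s‖ / z.im := by positivity
  calc ‖∑ j ∈ Finset.range k, ((s ^ (j + 1) / ((j + 1).factorial : ℂ)) •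
        (S⁻¹ * cm c.N ^ (j + 1) * S)) a b‖
      ≤ ∑ j ∈ Finset.range k, ‖((s ^ (j + 1) / ((j + 1).factorial : ℂ)) •
        (S⁻¹ * cm c.N ^ (j + 1) * S)) a b‖ := norm_sum_le _ _
    _ ≤ ∑ j ∈ Finset.range k, C * (‖s‖ / z.im) := by
        refine Finset.sum_le_sum fun j hj => ?_
        have hj' := Finset.mem_range.1 hj
        have h2 := hpow z hz S d hS (j + 1) (by omega) a b
        rw [Matrix.smul_apply, smul_eq_mul, norm_mul, norm_div, norm_pow]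
        have h3 : ‖s‖ ^ (j + 1) / ‖((j + 1).factorial : ℂ)‖ ≤ ‖s‖ ^ (j + 1) := by
          apply div_le_self (by positivity)
          rw [Complex.norm_natCast]
          exact_mod_cast Nat.factorial_pos (j + 1)
        calc ‖s‖ ^ (j + 1) / ‖((j + 1).factorial : ℂ)‖ * ‖(S⁻¹ * cm c.N ^ (j + 1) * S) a b‖
            ≤ ‖s‖ ^ (j + 1) * (C / z.im ^ (j + 1)) := by gcongr
          _ = C * (‖s‖ / z.im) ^ (j + 1) := by rw [div_pow]; ring
          _ ≤ C * (‖s‖ / z.im) := by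
              gcongr
              calc (‖s‖ / z.im) ^ (j + 1) ≤ (‖s‖ / z.im) ^ 1 :=
                    pow_le_pow_of_le_one hr0 hr (by omega)
                _ = ‖s‖ / z.im := pow_one _
    _ = k * (C * (‖s‖ / z.im)) := by
        rw [Finset.sum_const, Finset.card_range, nsmul_eq_mul]
    _ ≤ ((k + 1 : ℕ) : ℝ) * C * (‖s‖ / z.im) := by
        rw [mul_assoc]
        gcongr
        push_cast
        linarith

end MP2794d1.BW
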