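import Pool.Agent.Lib.MP_2794d1_ag.BW.U2
import Pool.Agent.Lib.MP_2794d1_ag.BW.U3
import Pool.Agent.Lib.MP_2794d1_ag.P03

/-!
U4: the projectors moved by the nilpotent orbit (P03) with constants which depend only on `n` and `kc V`.
-/

namespace MP2794d1.BW

open Matrix Complex Filter Topology MP2794d1
open scoped ContDiff

theorem PW_close_u (n : ℕ) (κ : ℝ) : ∃ C Y : ℝ, 0 ≤ C ∧ 1 ≤ Y ∧
    ∀ (V : PolVHS n) (c : UCusp V), kc V = κ → ∀ z₀ z : ℂ, Y ≤ z₀.im → ‖z - z₀‖ ≤ z₀.im / 2 → ∀ (S : Matrix (Fin n) (Fin n) ℂ) (d : Fin n → ℤ),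
      Adapted V.wt V.Q (fun p => V.F p z₀) S d → ∀ p a b,
      ‖(S⁻¹ * (PW V (cm c.N) p z₀ z - PiV V p z₀) * S) a b‖ ≤ C * (‖z - z₀‖ / z₀.im) := by
  obtain ⟨C₁, Y, hC₁, hY, hexp⟩ := MN_exp_u n κ
  obtain ⟨C₂, hC₂, hpi⟩ := Pi_close_u n κ
  refine ⟨(n : ℝ) * (C₁ * (n * ((1 + C₂) * (1 + C₁)))) + n * ((1 + C₂) * C₁) + C₂, Y,
    by positivity, hY, fun V c hV z₀ z hz₀ hz S d hS p a b => ?_⟩
  replace hexp := hexp V c hV
  replace hpi := hpi V hV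
  have hy : 0 < z₀.im := by linarith
  obtain ⟨x, hx⟩ : ∃ x : ℝ, x = ‖z - z₀‖ / z₀.im := ⟨_, rfl⟩
  have hx0 : 0 ≤ x := by rw [hx]; positivity
  have hx1 : x ≤ 1 := by
    rw [hx, div_le_one hy]
    linarith
  have hss : S * S⁻¹ = 1 := Matrix.mul_nonsing_inv _ hS.inv
  obtain ⟨E₁, hE₁⟩ : ∃ E₁, E₁ = S⁻¹ * (uexp (cm c.N) (-(z - z₀)) - 1) * S := ⟨_, rfl⟩
  obtain ⟨E₃, hE₃⟩ : ∃ E₃, E₃ = S⁻¹ * (uexp (cm c.N) (z - z₀) - 1) * S := ⟨_, rfl⟩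
  obtain ⟨E₂, hE₂⟩ : ∃ E₂, E₂ = S⁻¹ * (PiV V p z - PiV V p z₀) * S := ⟨_, rfl⟩
  obtain ⟨D, hD⟩ : ∃ D, D = S⁻¹ * PiV V p z₀ * S := ⟨_, rfl⟩
  have b1 : ∀ i j, ‖E₁ i j‖ ≤ C₁ * x := by
    intro i j
    rw [hE₁]
    have := hexp z₀ hz₀ S d hS (-(z - z₀)) (by rw [norm_neg]; linarith) i j
    rwa [norm_neg, ← hx] at this
  have b3 : ∀ i j, ‖E₃ i j‖ ≤ C₁ * x := by
    intro i j
    rw [hE₃]
    have := hexp z₀ hz₀ S d hS (z - z₀) (by linarith) i j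
    rwa [← hx] at this
  have b2 : ∀ i j, ‖E₂ i j‖ ≤ C₂ * x := by
    intro i j
    rw [hE₂]
    have := hpi z₀ z hy hz S d hS p i j
    rwa [← hx] at this
  have bD : ∀ i j, ‖D i j‖ ≤ 1 := by
    intro i j
    rw [hD]
    exact P03_diag V hy hS p i j
  have hkey : S⁻¹ * (PW V (cm c.N) p z₀ z - PiV V p z₀) * S =
      E₁ * ((D + E₂) * (1 + E₃)) + (D + E₂) * E₃ + E₂ := by
    have e1 : 1 + E₁ = S⁻¹ * uexp (cm c.N) (-(z - z₀)) * S := by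
      rw [hE₁, Matrix.mul_sub, Matrix.sub_mul, Matrix.mul_one, Matrix.nonsing_inv_mul _ hS.inv]
      abel
    have e3 : 1 + E₃ = S⁻¹ * uexp (cm c.N) (z - z₀) * S := by
      rw [hE₃, Matrix.mul_sub, Matrix.sub_mul, Matrix.mul_one, Matrix.nonsing_inv_mul _ hS.inv]
      abel
    have e2 : D + E₂ = S⁻¹ * PiV V p z * S := by
      rw [hD, hE₂, Matrix.mul_sub, Matrix.sub_mul]
      abel
    have e4 : S⁻¹ * PW V (cm c.N) p z₀ z * S = (1 + E₁) * (D + E₂) * (1 + E₃) := by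
      rw [e1, e2, e3]
      unfold PW
      calc S⁻¹ * (uexp (cm c.N) (-(z - z₀)) * PiV V p z * uexp (cm c.N) (z - z₀)) * S
          = S⁻¹ * uexp (cm c.N) (-(z - z₀)) * 1 * PiV V p z * 1 * uexp (cm c.N) (z - z₀) * S := by
            simp only [Matrix.mul_assoc, Matrix.one_mul]
        _ = _ := by
            rw [← hss]
            simp only [Matrix.mul_assoc]
    rw [Matrix.mul_sub, Matrix.sub_mul, e4, ← hD]
    noncomm_ring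
  have bDE : ∀ i j, ‖(D + E₂) i j‖ ≤ 1 + C₂ := by
    intro i j
    rw [Matrix.add_apply]
    refine (norm_add_le _ _).trans (add_le_add (bD i j) ((b2 i j).trans ?_))
    calc C₂ * x ≤ C₂ * 1 := by gcongr
      _ = C₂ := mul_one _
  have b1E : ∀ i j, ‖(1 + E₃) i j‖ ≤ 1 + C₁ := by
    intro i j
    rw [Matrix.add_apply]
    refine (norm_add_le _ _).trans (add_le_add ?_ ((b3 i j).trans ?_))
    · rw [Matrix.one_apply]
      split_ifs <;> simp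
    · calc C₁ * x ≤ C₁ * 1 := by gcongr
        _ = C₁ := mul_one _
  rw [hkey, ← hx, Matrix.add_apply, Matrix.add_apply]
  have t1 := mul_entries b1 (mul_entries bDE b1E) a b
  have t2 := mul_entries bDE b3 a b
  have t3 := b2 a b
  calc ‖(E₁ * ((D + E₂) * (1 + E₃))) a b + ((D + E₂) * E₃) a b + E₂ a b‖
      ≤ ‖(E₁ * ((D + E₂) * (1 + E₃))) a b‖ + ‖((D + E₂) * E₃) a b‖ + ‖E₂ a b‖ := norm_add₃_le
    _ ≤ n * (C₁ * x * (n * ((1 + C₂) * (1 + C₁)))) + n * ((1 + C₂) * (C₁ * x)) + C₂ * x := by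
        gcongr
    _ = _ := by ring

end MP2794d1.BW
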