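import Pool.Agent.Lib.MP_2794d1_ag.BW.U4
import Pool.Agent.Lib.MP_2794d1_ag.P04

/-!
U5: the oblique projectors (P04) with constants which depend only on `n` and `kc V`.
-/

namespace MP2794d1.BW

open Matrix Complex Filter Topology MP2794d1
open scoped ContDiff

theorem RW_props_u (n : ℕ) (κ : ℝ) : ∃ ε C Y : ℝ, 0 < ε ∧ ε ≤ 1 / 2 ∧ 0 ≤ C ∧
    1 ≤ Y ∧ ∀ (V : PolVHS n) (c : UCusp V), kc V = κ → ∀ z₀ z : ℂ, Y ≤ z₀.im → ‖z - z₀‖ ≤ ε * z₀.im → ∀ p : ℤ,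
      RW V (cm c.N) p z₀ z * RW V (cm c.N) p z₀ z = RW V (cm c.N) p z₀ z ∧
      RW V (cm c.N) p z₀ z * PW V (cm c.N) p z₀ z = PW V (cm c.N) p z₀ z ∧
      PW V (cm c.N) p z₀ z * RW V (cm c.N) p z₀ z = RW V (cm c.N) p z₀ z ∧
      PiV V p z₀ * RW V (cm c.N) p z₀ z = PiV V p z₀ ∧
      RW V (cm c.N) p z₀ z * PiV V p z₀ = RW V (cm c.N) p z₀ z ∧
      ∀ (S : Matrix (Fin n) (Fin n) ℂ) (d : Fin n → ℤ),
        Adapted V.wt V.Q (fun p => V.F p z₀) S d → ∀ a b,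
          ‖(S⁻¹ * RW V (cm c.N) p z₀ z * S) a b‖ ≤ C := by
  obtain ⟨C1, Y, hC1, hY, hclose⟩ := PW_close_u n κ
  have hpos : 0 < 2 * ((n : ℝ) + 1) * (C1 + 1) := by positivity
  refine ⟨min (1 / 2) (1 / (2 * ((n : ℝ) + 1) * (C1 + 1))), n * ((1 + C1) * 2), Y,
    lt_min (by norm_num) (by positivity), min_le_left _ _, by positivity, hY, ?_⟩
  set ε := min (1 / 2 : ℝ) (1 / (2 * ((n : ℝ) + 1) * (C1 + 1))) with hε
  have hε0 : 0 < ε := lt_min (by norm_num) (by positivity)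
  have hε1 : ε ≤ 1 / 2 := min_le_left _ _
  have hε2 : ε ≤ 1 / (2 * ((n : ℝ) + 1) * (C1 + 1)) := min_le_right _ _
  have hC1ε : C1 * ε ≤ 1 / (2 * ((n : ℝ) + 1)) := by
    have h1 : (C1 + 1) * ε ≤ 1 / (2 * ((n : ℝ) + 1)) := by
      calc (C1 + 1) * ε ≤ (C1 + 1) * (1 / (2 * ((n : ℝ) + 1) * (C1 + 1))) :=
            mul_le_mul_of_nonneg_left hε2 (by linarith)
        _ = 1 / (2 * ((n : ℝ) + 1)) := by field_simp
    nlinarith
  have hC1ε' : C1 * ε ≤ C1 := by nlinarith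
  intro V c hV z₀ z hz₀ hz p
  replace hclose := hclose V c hV
  have hz₀' : 0 < z₀.im := by linarith
  have hz2 : ‖z - z₀‖ ≤ z₀.im / 2 := by nlinarith
  have hzim : 0 < z.im := by
    have h1 : |(z - z₀).im| ≤ ‖z - z₀‖ := Complex.abs_im_le_norm _
    rw [Complex.sub_im] at h1
    have h2 := (abs_le.1 h1).1
    linarith
  have hratio : ‖z - z₀‖ / z₀.im ≤ ε := by
    rw [div_le_iff₀ hz₀']; exact hz
  have hPP := PW_idem V (cm c.N) (cm_pow c.N c.nil) p (z₀ := z₀) hzim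
  have hDeq : PiV V p z₀ = prj (V.phs z₀ hz₀') p := by
    unfold PiV
    rw [dif_pos hz₀']
  have hDD : PiV V p z₀ * PiV V p z₀ = PiV V p z₀ := by
    rw [hDeq]; exact prj_idem _ _
  set P := PW V (cm c.N) p z₀ z with hP
  set D := PiV V p z₀ with hD
  -- bounds in an adapted basis
  have hbd : ∀ (S : Matrix (Fin n) (Fin n) ℂ) (d : Fin n → ℤ),
      Adapted V.wt V.Q (fun p => V.F p z₀) S d → ∀ a b, ‖(S⁻¹ * (P - D) * S) a b‖ ≤ C1 * ε := by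
    intro S d hS a b
    exact (hclose z₀ z hz₀ hz2 S d hS p a b).trans (mul_le_mul_of_nonneg_left hratio hC1)
  have hsm : ∀ (S : Matrix (Fin n) (Fin n) ℂ) (d : Fin n → ℤ),
      Adapted V.wt V.Q (fun p => V.F p z₀) S d → ∀ a b : Fin n, C1 * ε ≤ 1 / (2 * (n : ℝ)) := by
    intro S d hS a b
    have hn : 0 < n := a.pos
    have hn' : (0 : ℝ) < n := by exact_mod_cast hn
    refine hC1ε.trans ?_
    apply one_div_le_one_div_of_le (by positivity)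
    linarith
  have hdiag : ∀ (S : Matrix (Fin n) (Fin n) ℂ) (d : Fin n → ℤ),
      Adapted V.wt V.Q (fun p => V.F p z₀) S d → S⁻¹ * D * S =
        Matrix.diagonal (fun a => if p ≤ d a then (1 : ℂ) else 0) := by
    intro S d hS
    have hSS' : S⁻¹ * S = 1 := Matrix.nonsing_inv_mul S hS.inv
    rw [hDeq, prj_adapted (V.phs z₀ hz₀') hS p]
    calc S⁻¹ * (S * Matrix.diagonal (fun a => if p ≤ d a then (1 : ℂ) else 0) * S⁻¹) * S
        = (S⁻¹ * S) * Matrix.diagonal (fun a => if p ≤ d a then (1 : ℂ) else 0) * (S⁻¹ * S) := by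
          simp only [Matrix.mul_assoc]
      _ = _ := by rw [hSS', Matrix.one_mul, Matrix.mul_one]
  have hE : ∀ (S : Matrix (Fin n) (Fin n) ℂ) (d : Fin n → ℤ),
      Adapted V.wt V.Q (fun p => V.F p z₀) S d →
        S⁻¹ * (1 - D + D * P) * S = 1 + (S⁻¹ * D * S) * (S⁻¹ * (P - D) * S) := by
    intro S d hS
    have hSS : S * S⁻¹ = 1 := Matrix.mul_nonsing_inv S hS.inv
    have hSS' : S⁻¹ * S = 1 := Matrix.nonsing_inv_mul S hS.inv
    have e1 : (S⁻¹ * D * S) * (S⁻¹ * (P - D) * S) = S⁻¹ * (D * P - D) * S := by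
      calc (S⁻¹ * D * S) * (S⁻¹ * (P - D) * S) = S⁻¹ * (D * (S * S⁻¹) * (P - D)) * S := by
            simp only [Matrix.mul_assoc]
        _ = _ := by rw [hSS, Matrix.mul_one, Matrix.mul_sub, hDD]
    have e2 : (1 : Matrix (Fin n) (Fin n) ℂ) = S⁻¹ * 1 * S := by
      rw [Matrix.mul_one, hSS']
    rw [e1, e2, ← Matrix.add_mul, ← Matrix.mul_add]
    congr 2
    rw [← e2]
    abel
  have hEb : ∀ (S : Matrix (Fin n) (Fin n) ℂ) (d : Fin n → ℤ),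
      Adapted V.wt V.Q (fun p => V.F p z₀) S d → ∀ a b,
        ‖((S⁻¹ * D * S) * (S⁻¹ * (P - D) * S)) a b‖ ≤ 1 / (2 * (n : ℝ)) := by
    intro S d hS a b
    rw [hdiag S d hS, Matrix.diagonal_mul, norm_mul]
    have h1 : ‖(if p ≤ d a then (1 : ℂ) else 0)‖ ≤ 1 := by
      split_ifs <;> simp
    calc ‖(if p ≤ d a then (1 : ℂ) else 0)‖ * ‖(S⁻¹ * (P - D) * S) a b‖
        ≤ 1 * (C1 * ε) := mul_le_mul h1 (hbd S d hS a b) (norm_nonneg _) zero_le_one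
      _ = C1 * ε := one_mul _
      _ ≤ _ := hsm S d hS a b
  obtain ⟨S0, d0, hS0⟩ := exists_adapted (V.phs z₀ hz₀')
  have hBu : IsUnit (1 - D + D * P).det := by
    apply P04_conj_det hS0.inv
    rw [hE S0 d0 hS0]
    exact (small_inv _ (hEb S0 d0 hS0)).1
  have hu : IsUnit (1 - (P - D)).det := by
    apply P04_conj_det hS0.inv
    have e : S0⁻¹ * (1 - (P - D)) * S0 = 1 + -(S0⁻¹ * (P - D) * S0) := by
      rw [Matrix.mul_sub, Matrix.sub_mul, Matrix.mul_one, Matrix.nonsing_inv_mul S0 hS0.inv]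
      abel
    rw [e]
    refine (small_inv _ fun a b => ?_).1
    rw [Matrix.neg_apply, norm_neg]
    exact (hbd S0 d0 hS0 a b).trans (hsm S0 d0 hS0 a b)
  obtain ⟨r1, r2, r3, r4, r5⟩ := P04_alg hPP hDD rfl hBu hu
  have hRW : RW V (cm c.N) p z₀ z = P * (1 - D + D * P)⁻¹ := rfl
  rw [hRW]
  refine ⟨r1, r2, r3, r4, r5, ?_⟩
  intro S d hS a b
  have hSS : S * S⁻¹ = 1 := Matrix.mul_nonsing_inv S hS.inv
  have hSS' : S⁻¹ * S = 1 := Matrix.nonsing_inv_mul S hS.inv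
  have e1 : S⁻¹ * (P * (1 - D + D * P)⁻¹) * S =
      (S⁻¹ * P * S) * (S⁻¹ * (1 - D + D * P)⁻¹ * S) := by
    calc S⁻¹ * (P * (1 - D + D * P)⁻¹) * S
        = S⁻¹ * (P * (S * S⁻¹) * (1 - D + D * P)⁻¹) * S := by rw [hSS, Matrix.mul_one]
      _ = _ := by simp only [Matrix.mul_assoc]
  have e2 : S⁻¹ * (1 - D + D * P)⁻¹ * S =
      (1 + (S⁻¹ * D * S) * (S⁻¹ * (P - D) * S))⁻¹ := by
    rw [← hE S d hS]
    symm
    apply Matrix.inv_eq_left_inv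
    calc S⁻¹ * (1 - D + D * P)⁻¹ * S * (S⁻¹ * (1 - D + D * P) * S)
        = S⁻¹ * ((1 - D + D * P)⁻¹ * (S * S⁻¹) * (1 - D + D * P)) * S := by
          simp only [Matrix.mul_assoc]
      _ = 1 := by
          rw [hSS, Matrix.mul_one, Matrix.nonsing_inv_mul _ hBu, Matrix.mul_one, hSS']
  have hP1 : ∀ i j, ‖(S⁻¹ * P * S) i j‖ ≤ 1 + C1 := by
    intro i j
    have e3 : S⁻¹ * P * S = S⁻¹ * D * S + S⁻¹ * (P - D) * S := by
      rw [← Matrix.add_mul, ← Matrix.mul_add]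
      congr 2
      abel
    rw [e3, Matrix.add_apply]
    refine (norm_add_le _ _).trans (add_le_add ?_ ((hbd S d hS i j).trans hC1ε'))
    rw [hdiag S d hS, Matrix.diagonal_apply]
    split_ifs <;> simp
  rw [e1, e2]
  exact mul_entries hP1 (small_inv _ (hEb S d hS)).2 a b

end MP2794d1.BW
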