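import Pool.Agent.Lib.MP_2794d1_ag.BW.U5
import Pool.Agent.Lib.MP_2794d1_ag.P05

/-!
U6: the oblique projectors are holomorphic and periodic (P05) with constants which depend only on `n` and `kc V`.
-/

namespace MP2794d1.BW

open Matrix Complex Filter Topology MP2794d1
open scoped ContDiff

theorem RW_analytic_u (n : ℕ) (κ : ℝ) : ∃ ε C Y : ℝ, 0 < ε ∧ ε ≤ 1 / 2 ∧
    0 ≤ C ∧ 1 ≤ Y ∧ ∀ (V : PolVHS n) (c : UCusp V), kc V = κ → ∀ z₀ z : ℂ, Y ≤ z₀.im → ‖z - z₀‖ < ε * z₀.im → ∀ p : ℤ,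
      (∀ i j, AnalyticAt ℂ (fun y => RW V (cm c.N) p z₀ y i j) z) ∧
      (‖z + 1 - z₀‖ < ε * z₀.im → RW V (cm c.N) p z₀ (z + 1) = RW V (cm c.N) p z₀ z) ∧
      (∀ (S : Matrix (Fin n) (Fin n) ℂ) (d : Fin n → ℤ),
        Adapted V.wt V.Q (fun p => V.F p z₀) S d → ∀ a b,
          ‖(S⁻¹ * RW V (cm c.N) p z₀ z * S) a b‖ ≤ C) := by
  obtain ⟨ε, C, Y, hε, hε2, hC, hY, hprops⟩ := RW_props_u n κ
  refine ⟨ε, C, Y, hε, hε2, hC, hY, fun V c hV z₀ z hz₀ hz p => ?_⟩
  replace hprops := hprops V c hV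
  have hy : 0 < z₀.im := by linarith
  have hN : cm c.N ^ n = 0 := cm_pow c.N c.nil
  have him : ∀ w : ℂ, ‖w - z₀‖ < ε * z₀.im → 0 < w.im := by
    intro w hw
    have h1 : |(w - z₀).im| ≤ ‖w - z₀‖ := Complex.abs_im_le_norm _
    have h2 : ε * z₀.im ≤ 1 / 2 * z₀.im := by gcongr
    rw [Complex.sub_im] at h1
    have h3 := (abs_le.1 h1).1
    linarith
  have hzim := him z hz
  obtain ⟨r1, r2, r3, r4, r5, r6⟩ := hprops z₀ z hz₀ hz.le p
  refine ⟨?_, ?_, r6⟩
  · -- analyticity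
    obtain ⟨P, hPan, hPev⟩ := (V.hol p z hzim).proj
    obtain ⟨R₁, hR₁⟩ : ∃ R₁, R₁ = RW V (cm c.N) p z₀ z := ⟨_, rfl⟩
    rw [← hR₁] at r1 r2 r3 r4 r5
    obtain ⟨Ph, hPh⟩ : ∃ Ph : ℂ → Matrix (Fin n) (Fin n) ℂ,
        Ph = fun y => uexp (cm c.N) (-(y - z₀)) * P y * uexp (cm c.N) (y - z₀) := ⟨_, rfl⟩
    have hPhan : ∀ i j, AnalyticAt ℂ (fun y => Ph y i j) z := by
      rw [hPh]
      refine f01_mul (f01_mul (fun i j => P05_uexp_an _ ?_ i j) hPan)
        (fun i j => P05_uexp_an _ ?_ i j)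
      · exact (analyticAt_id.sub analyticAt_const).neg
      · exact analyticAt_id.sub analyticAt_const
    -- relations between the two projectors onto the same subspace
    have hrel : ∀ y : ℂ, 0 < y.im → P y * P y = P y ∧ V.F p y = LinearMap.range (P y).mulVecLin →
        Ph y * Ph y = Ph y ∧ PW V (cm c.N) p z₀ y * Ph y = Ph y ∧
        Ph y * PW V (cm c.N) p z₀ y = PW V (cm c.N) p z₀ y := by
      intro y hyim hPy
      have hinv := (P03_inv (cm c.N) hN (y - z₀)).1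
      have hPi1 : PiV V p y * P y = P y := by
        refine P05_mat_eq fun x => ?_
        rw [← PiV_mem V hyim, hPy.2]
        exact ⟨x, rfl⟩
      have hPi2 : P y * PiV V p y = PiV V p y := by
        refine P05_mat_eq fun x => ?_
        rw [← proj_mem_iff hPy.1, ← hPy.2, PiV_mem V hyim, Matrix.mulVec_mulVec,
          (PiV_mul_of_le V hyim (le_refl p)).1]
      have hgen : ∀ A B : Matrix (Fin n) (Fin n) ℂ, A * B = B →
          (uexp (cm c.N) (-(y - z₀)) * A * uexp (cm c.N) (y - z₀)) *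
            (uexp (cm c.N) (-(y - z₀)) * B * uexp (cm c.N) (y - z₀)) =
          uexp (cm c.N) (-(y - z₀)) * B * uexp (cm c.N) (y - z₀) := by
        intro A B hAB
        calc (uexp (cm c.N) (-(y - z₀)) * A * uexp (cm c.N) (y - z₀)) *
            (uexp (cm c.N) (-(y - z₀)) * B * uexp (cm c.N) (y - z₀))
            = uexp (cm c.N) (-(y - z₀)) * A * (uexp (cm c.N) (y - z₀) *
              uexp (cm c.N) (-(y - z₀))) * B * uexp (cm c.N) (y - z₀) := by
              simp only [Matrix.mul_assoc]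
          _ = uexp (cm c.N) (-(y - z₀)) * (A * B) * uexp (cm c.N) (y - z₀) := by
              rw [hinv, Matrix.mul_one]
              simp only [Matrix.mul_assoc]
          _ = _ := by rw [hAB]
      rw [hPh]
      exact ⟨hgen _ _ hPy.1, hgen _ _ hPi1, hgen _ _ hPi2⟩
    obtain ⟨q1, q2, q3⟩ := hrel z hzim hPev.self_of_nhds
    have hRP : R₁ * Ph z = Ph z := by
      rw [← q2, ← Matrix.mul_assoc, r2]
    have hPR : Ph z * R₁ = R₁ := by
      rw [← r3, ← Matrix.mul_assoc, q3]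
    have hdet : IsUnit (1 - R₁ + R₁ * Ph z).det := P05_det q1 r1 hRP hPR
    have hBan : ∀ i j, AnalyticAt ℂ (fun y => (1 - R₁ + R₁ * Ph y) i j) z := by
      have h1 : ∀ i j, AnalyticAt ℂ (fun y => (R₁ * Ph y) i j) z :=
        f01_mul (fun i j => analyticAt_const) hPhan
      intro i j
      exact analyticAt_const.add (h1 i j)
    have hRan : ∀ i j, AnalyticAt ℂ (fun y => (Ph y * (1 - R₁ + R₁ * Ph y)⁻¹ * R₁) i j) z :=
      f01_mul (f01_mul hPhan (f01_inv hBan (isUnit_iff_ne_zero.1 hdet)))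
        (fun i j => analyticAt_const)
    have hev1 : ∀ᶠ y in 𝓝 z, (1 - R₁ + R₁ * Ph y).det ≠ 0 :=
      (f01_det hBan).continuousAt.eventually_ne (isUnit_iff_ne_zero.1 hdet)
    have hev2 : ∀ᶠ y in 𝓝 z, ‖y - z₀‖ < ε * z₀.im := by
      have hc : ContinuousAt (fun y : ℂ => ‖y - z₀‖) z := by fun_prop
      exact hc.eventually_lt continuousAt_const hz
    have hev : ∀ᶠ y in 𝓝 z, RW V (cm c.N) p z₀ y = Ph y * (1 - R₁ + R₁ * Ph y)⁻¹ * R₁ := by
      filter_upwards [hev1, hev2, hPev] with y hy1 hy2 hy3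
      obtain ⟨t1, t2, t3⟩ := hrel y (him y hy2) hy3
      obtain ⟨s1, s2, s3, s4, s5, -⟩ := hprops z₀ y hz₀ hy2.le p
      obtain ⟨a1, a2, a3⟩ := P05_alg t1 r1 r4 r5 (isUnit_iff_ne_zero.2 hy1)
      exact (oblique_unique a1 a2 s2 s5 t2).symm
    intro i j
    refine (hRan i j).congr ?_
    filter_upwards [hev] with y hy
    rw [hy]
  · -- periodicity
    intro hz1
    have hz1im := him (z + 1) hz1
    obtain ⟨s1, s2, s3, s4, s5, -⟩ := hprops z₀ (z + 1) hz₀ hz1.le p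
    refine (oblique_unique r3 r4 s2 s5 ?_).symm
    refine P05_mat_eq fun x => ?_
    rw [PW_mem V _ hN p hz1im]
    have h1 : PW V (cm c.N) p z₀ z *ᵥ x ∈ (V.F p z).map (uexp (cm c.N) (-(z - z₀))).mulVecLin := by
      rw [← PW_mem V _ hN p hzim, Matrix.mulVec_mulVec, PW_idem V _ hN p hzim]
    have h2 := F_shift V c 1 p z hzim
    rw [Nat.cast_one] at h2
    rw [h2, ← Submodule.map_comp, ← Matrix.mulVecLin_mul, ← uexp_add _ hN]
    have h3 : -(z + 1 - z₀) + 1 = -(z - z₀) := by ring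
    rw [h3]
    exact h1

end MP2794d1.BW
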